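import Pool.Agent.Lib.PosetForcing.CardDefs

set_option autoImplicit false

/-! Topological groups written inside a structure `(M, mem)`; all quantifiers range over `M`.
The element `G` is the group, `m` its multiplication, `e` its identity, `T` its set of open sets. -/

open Pool.Agent.Lib.PosetForcing

namespace Pool.Agent.P.MP_39acbb_lc.Gr

universe v

variable {M : Type v} (mem : M → M → Prop)

/-- `m(x, y) = z` -/
def Op (m x y z : M) : Prop := ∃ p, IsPair mem p x y ∧ App mem m p z

/-- `m : G × G → G` is a group operation with identity `e` -/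
def IsGrp (G m e : M) : Prop :=
  (∃ P, (∀ p, mem p P ↔ ∃ x y, mem x G ∧ mem y G ∧ IsPair mem p x y) ∧ IsFun mem m P G) ∧
  (∀ x y z u v w, Op mem m x y u → Op mem m y z v → Op mem m u z w → Op mem m x v w) ∧
  mem e G ∧ ∀ x, mem x G → Op mem m e x x ∧ Op mem m x e x ∧
    ∃ y, mem y G ∧ Op mem m y x e ∧ Op mem m x y e

/-- `T` is a topology on `X` -/
def IsTop (X T : M) : Prop :=
  (∀ V, mem V T → IsSub mem V X) ∧ mem X T ∧
  (∀ V W Z, mem V T → mem W T → (∀ x, mem x Z ↔ mem x V ∧ mem x W) → mem Z T) ∧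
  ∀ F Z, IsSub mem F T → (∀ x, mem x Z ↔ ∃ V, mem V F ∧ mem x V) → mem Z T

/-- distinct points have disjoint open neighbourhoods -/
def IsHausdorff (X T : M) : Prop :=
  ∀ x, mem x X → ∀ y, mem y X → x ≠ y → ∃ V W, mem V T ∧ mem W T ∧ mem x V ∧ mem y W ∧
    ∀ z, mem z V → ¬ mem z W

/-- the map `(x, y) ↦ x y⁻¹` is continuous; `z = x y⁻¹` is written `z y = x` -/
def IsCont (m T : M) : Prop :=
  ∀ x y z W, Op mem m z y x → mem W T → mem z W → ∃ U V, mem U T ∧ mem V T ∧ mem x U ∧ mem y V ∧
    ∀ x' y' z', mem x' U → mem y' V → Op mem m z' y' x' → mem z' W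

/-- every open set around `p` contains a point of `A` other than `p` -/
def Accum (T A p : M) : Prop := ∀ V, mem V T → mem p V → ∃ a, mem a A ∧ mem a V ∧ a ≠ p

/-- no nonempty open set is contained in the closure of `A` -/
def NowhereDense (T A : M) : Prop :=
  ∀ V y, mem V T → mem y V → ∃ x W, mem x V ∧ mem W T ∧ mem x W ∧ ∀ a, mem a A → ¬ mem a W

/-- every Hausdorff topological group in which some countable subset has an accumulation point
has a nonempty nowhere dense subset without isolated points -/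
def CountableCase : Prop :=
  ∀ w G m e T : M, IsOmega mem w → IsGrp mem G m e → IsTop mem G T → IsHausdorff mem G T →
    IsCont mem m T → (∃ C p, IsSub mem C G ∧ LeCard mem C w ∧ mem p G ∧ Accum mem T C p) →
    ∃ A, IsSub mem A G ∧ (∃ a, mem a A) ∧ NowhereDense mem T A ∧ ∀ a, mem a A → Accum mem T A a

end Pool.Agent.P.MP_39acbb_lc.Gr
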