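import Mathlib

set_option autoImplicit false
set_option linter.unusedSectionVars false

/-! Iterated superperfect sets as a monoid of causal continuous maps: definitions. -/

open Filter Topology Set Function

namespace Pool.Agent.P.MP_39acbb_lc.Mi

universe u

/-- the parameter space -/
abbrev Om (ι : Type u) : Type u := ι → ℕ → ℕ

/-- agreement below `k` -/
def Up (k : ℕ) (a b : ℕ → ℕ) : Prop := ∀ i < k, a i = b i

theorem Up.rfl {k : ℕ} {a : ℕ → ℕ} : Up k a a := fun _ _ => Eq.refl _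

theorem Up.symm {k : ℕ} {a b : ℕ → ℕ} (h : Up k a b) : Up k b a := fun i hi => (h i hi).symm

theorem Up.trans {k : ℕ} {a b c : ℕ → ℕ} (h : Up k a b) (h' : Up k b c) : Up k a c :=
  fun i hi => (h i hi).trans (h' i hi)

theorem Up.mono {k l : ℕ} {a b : ℕ → ℕ} (h : Up k a b) (e : l ≤ k) : Up l a b :=
  fun i hi => h i (hi.trans_le e)

theorem up_zero (a b : ℕ → ℕ) : Up 0 a b := fun _ h => absurd h (Nat.not_lt_zero _)

theorem up_update {k l : ℕ} (a : ℕ → ℕ) (v : ℕ) (h : l ≤ k) : Up l (update a k v) a :=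
  fun _ hi => update_of_ne (hi.trans_le h).ne _ _

/-- locally constant -/
def LC {ι : Type u} {β : Type*} (f : Om ι → β) : Prop := ∀ x, ∀ᶠ y in 𝓝 x, f y = f x

/-- `f` depends only on the coordinates in `S` -/
def Dep {ι : Type u} {β : Type*} (S : Set ι) (f : Om ι → β) : Prop :=
  ∀ x y, (∀ δ ∈ S, x δ = y δ) → f x = f y

section basic
variable {ι : Type u} {β : Type*}

theorem Dep.mono {S T : Set ι} {f : Om ι → β} (h : Dep S f) (e : S ⊆ T) : Dep T f :=
  fun x y k => h x y fun δ hδ => k δ (e hδ)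

theorem cont_iff {K : Om ι → Om ι} : Continuous K ↔ ∀ γ j, LC fun x => K x γ j := by
  simp only [continuous_pi_iff]
  refine forall₂_congr fun γ j => ?_
  rw [continuous_iff_continuousAt]
  exact forall_congr' fun x => by
    rw [ContinuousAt, nhds_discrete ℕ, tendsto_pure]

theorem LC.comp {f : Om ι → β} {K : Om ι → Om ι} (h : LC f) (hK : Continuous K) :
    LC fun x => f (K x) := fun x => hK.continuousAt.eventually (h (K x))

theorem LC.map {β' : Type*} {f : Om ι → β} (h : LC f) (g : β → β') : LC fun x => g (f x) :=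
  fun x => (h x).mono fun _ e => congrArg g e

theorem LC.map2 {β' β'' : Type*} {f : Om ι → β} {f' : Om ι → β'} (h : LC f) (h' : LC f')
    (g : β → β' → β'') : LC fun x => g (f x) (f' x) :=
  fun x => ((h x).and (h' x)).mono fun _ e => congrArg₂ g e.1 e.2

theorem LC.bind {β' : Type*} {f : Om ι → β} {g : β → Om ι → β'} (h : LC f) (h' : ∀ b, LC (g b)) :
    LC fun x => g (f x) x :=
  fun x => ((h x).and (h' (f x) x)).mono fun y e => (congrArg (g · y) e.1).trans e.2

theorem lc_const (b : β) : LC fun _ : Om ι => b := fun _ => Eventually.of_forall fun _ => rfl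

theorem lc_coord (γ : ι) (j : ℕ) : LC fun x : Om ι => x γ j := cont_iff.1 continuous_id γ j

theorem ev_up {K : Om ι → Om ι} (h : Continuous K) (x : Om ι) (γ : ι) (k : ℕ) :
    ∀ᶠ y in 𝓝 x, Up k (K y γ) (K x γ) :=
  (eventually_all_finite (Set.finite_Iio k)).2 fun i _ => cont_iff.1 h γ i x

end basic

variable {ι : Type u} [LinearOrder ι]

/-- agreement below the coordinate `γ` -/
def Lo (γ : ι) (x y : Om ι) : Prop := ∀ δ < γ, x δ = y δ

theorem Lo.rfl {γ : ι} {x : Om ι} : Lo γ x x := fun _ _ => Eq.refl _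

theorem Lo.symm {γ : ι} {x y : Om ι} (h : Lo γ x y) : Lo γ y x := fun i hi => (h i hi).symm

theorem Lo.trans {γ : ι} {x y z : Om ι} (h : Lo γ x y) (h' : Lo γ y z) : Lo γ x z :=
  fun i hi => (h i hi).trans (h' i hi)

theorem lo_update (γ : ι) (x : Om ι) (a : ℕ → ℕ) : Lo γ (update x γ a) x :=
  fun _ hi => update_of_ne hi.ne _ _

/-- the node of length `k` of `x γ` is sent to a splitting node of length `l` -/
def Spl (K : Om ι → Om ι) (γ : ι) (x : Om ι) (k l : ℕ) : Prop :=
  ∀ y y', Lo γ y x → Lo γ y' x → Up k (y γ) (x γ) → Up k (y' γ) (x γ) →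
    Up l (K y γ) (K y' γ) ∧ (y γ k < y' γ k → K y γ l < K y' γ l)

/-- conditions -/
structure IsCond (K : Om ι → Om ι) : Prop where
  cont : Continuous K
  caus : ∀ γ x y, (∀ δ ≤ γ, x δ = y δ) → K x γ = K y γ
  supp : ∃ S : Set ι, S.Countable ∧ (∀ x γ, γ ∉ S → K x γ = x γ) ∧
    ∀ γ ∈ S, Dep S fun x => K x γ
  mil : ∀ γ x k, ∃ l, Spl K γ x k l

/-- `K` is the identity outside `I` -/
def In (I : Set ι) (K : Om ι → Om ι) : Prop := ∀ x γ, γ ∉ I → K x γ = x γ

/-- `K` fixes the node of length `k` of `z` at the coordinate `γ` -/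
def Fix (K : Om ι → Om ι) (γ : ι) (z : ℕ → ℕ) (k : ℕ) : Prop :=
  ∀ x, Up k (x γ) z → Up k (K x γ) z ∧
    ∀ y, Lo γ y x → Up k (y γ) z → x γ k < y γ k → K x γ k < K y γ k

/-- `K` keeps the first `n` digits at the coordinate `γ` -/
def Lev (K : Om ι → Om ι) (γ : ι) (n : ℕ) : Prop := ∀ x, Up n (K x γ) (x γ)

/-- `K` fixes the roots at the coordinates in `F` -/
def Pure (F : Set ι) (K : Om ι → Om ι) : Prop := ∀ γ ∈ F, Fix K γ 0 0

variable {K L R : Om ι → Om ι} {γ : ι} {x y : Om ι} {k l m : ℕ} {z : ℕ → ℕ} {I F : Set ι}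

theorem IsCond.lo (h : IsCond K) (e : Lo γ x y) : Lo γ (K x) (K y) :=
  fun δ hδ => h.caus δ x y fun ε hε => e ε (hε.trans_lt hδ)

theorem Spl.congr (h : Spl K γ x k l) (e : Lo γ y x) (e' : Up k (y γ) (x γ)) : Spl K γ y k l :=
  fun a b h1 h2 h3 h4 => h a b (h1.trans e) (h2.trans e) (h3.trans e') (h4.trans e')

theorem Spl.comp (hR : IsCond R) (h : Spl R γ x k l) (h' : Spl L γ (R x) l m) :
    Spl (L ∘ R) γ x k m := fun y y' h1 h2 h3 h4 =>
  have := h' (R y) (R y') (hR.lo h1) (hR.lo h2) (h y x h1 Lo.rfl h3 Up.rfl).1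
    (h y' x h2 Lo.rfl h4 Up.rfl).1
  ⟨this.1, fun e => this.2 ((h y y' h1 h2 h3 h4).2 e)⟩

theorem Spl.ge (h : Spl K γ x k l) : x γ k ≤ K x γ l := by
  have hm : StrictMono fun i => K (update x γ (update (x γ) k i)) γ l := fun i j hij =>
    (h _ _ (lo_update _ _ _) (lo_update _ _ _) (by rw [update_self]; exact up_update _ _ le_rfl)
      (by rw [update_self]; exact up_update _ _ le_rfl)).2 (by simpa using hij)
  simpa using hm.le_apply (x := x γ k)

theorem Spl.lt (h : Spl K γ x k l) (h' : Spl K γ x (k + 1) m) : l < m := by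
  by_contra hc
  have hc := not_lt.1 hc
  let y : ℕ → Om ι := fun i => update x γ (update (x γ) (k + 1) i)
  have u : ∀ i, Up (k + 1) (y i γ) (x γ) := fun i => by
    simp only [y, update_self]; exact up_update _ _ le_rfl
  have lo : ∀ i, Lo γ (y i) x := fun i => lo_update _ _ _
  rcases hc.eq_or_lt with rfl | hc
  · let w : Om ι := update x γ (update (x γ) k (x γ k + 1))
    have h1 := (h (y (K w γ m)) w (lo _) (lo_update _ _ _) ((u _).mono k.le_succ)
      (by simp only [w, update_self]; exact up_update _ _ le_rfl)).2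
      (by rw [u _ k k.lt_succ_self]; simp [w])
    have h2 := (h'.congr (lo (K w γ m)) (u _)).ge
    simp only [y, update_self] at h1 h2
    omega
  · have h1 := (h (y 0) (y 1) (lo _) (lo _) ((u _).mono k.le_succ) ((u _).mono k.le_succ)).1 m hc
    have h2 := (h' (y 0) (y 1) (lo _) (lo _) (u _) (u _)).2 (by simp [y])
    omega

theorem IsCond.le_spl (hK : IsCond K) (h : Spl K γ x k l) : k ≤ l := by
  induction k generalizing l with
  | zero => exact Nat.zero_le _
  | succ k ih =>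
    obtain ⟨l', h'⟩ := hK.mil γ x k
    exact Nat.succ_le_of_lt ((ih h').trans_lt (h'.lt h))

theorem IsCond.dig (hK : IsCond K) (e : Lo γ y x) (e' : Up k (y γ) (x γ)) :
    Up k (K y γ) (K x γ) := by
  obtain ⟨l, h⟩ := hK.mil γ x k
  exact (h y x e Lo.rfl e' Up.rfl).1.mono (hK.le_spl h)

theorem spl_self (h : ∀ y, Lo γ y x → Up k (y γ) (x γ) → Up (k + 1) (K y γ) (y γ)) :
    Spl K γ x k k := fun y y' h1 h2 h3 h4 =>
  ⟨(((h y h1 h3).mono k.le_succ).trans (h3.trans h4.symm)).trans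
    ((h y' h2 h4).mono k.le_succ).symm,
    fun e => by rwa [h y h1 h3 k k.lt_succ_self, h y' h2 h4 k k.lt_succ_self]⟩

theorem isCond_id : IsCond (id : Om ι → Om ι) :=
  ⟨continuous_id, fun γ _ _ h => h γ le_rfl, ⟨∅, countable_empty, fun _ _ _ => rfl,
    fun _ h => h.elim⟩, fun _ _ k => ⟨k, spl_self fun _ _ _ => Up.rfl⟩⟩

theorem IsCond.comp (hL : IsCond L) (hR : IsCond R) : IsCond (L ∘ R) := by
  refine ⟨hL.cont.comp hR.cont, fun γ x y h => hL.caus γ _ _ fun δ hδ =>
    hR.caus δ x y fun ε hε => h ε (hε.trans hδ), ?_, fun γ x k => ?_⟩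
  · obtain ⟨S, h1, h2, h3⟩ := hL.supp
    obtain ⟨T, g1, g2, g3⟩ := hR.supp
    have key : ∀ x y : Om ι, (∀ δ ∈ S ∪ T, x δ = y δ) → ∀ δ ∈ S ∪ T, R x δ = R y δ :=
      fun x y h δ hδ => by
        by_cases e : δ ∈ T
        · exact g3 δ e x y fun ε hε => h ε (Or.inr hε)
        · rw [g2 x δ e, g2 y δ e, h δ hδ]
    refine ⟨S ∪ T, h1.union g1, fun x γ h => (h2 _ γ fun e => h (Or.inl e)).trans
      (g2 x γ fun e => h (Or.inr e)), fun γ hγ x y h => ?_⟩
    by_cases e : γ ∈ S
    · exact h3 γ e _ _ fun δ hδ => key x y h δ (Or.inl hδ)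
    · exact (h2 _ γ e).trans ((key x y h γ hγ).trans (h2 _ γ e).symm)
  · obtain ⟨l, h⟩ := hR.mil γ x k
    obtain ⟨m, h'⟩ := hL.mil γ (R x) l
    exact ⟨m, h.comp hR h'⟩

/-- each coordinate depends on countably many lower ones -/
theorem IsCond.dep (hK : IsCond K) : ∃ S : Set ι, S.Countable ∧ In S K ∧
    ∀ γ, Dep (insert γ (S ∩ Iic γ)) fun x => K x γ := by
  obtain ⟨S, h1, h2, h3⟩ := hK.supp
  refine ⟨S, h1, h2, fun γ x y h => ?_⟩
  by_cases e : γ ∈ S
  · classical
    refine (hK.caus γ x (fun δ => if δ ∈ S then y δ else x δ) fun δ hδ => ?_).trans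
      (h3 γ e _ _ fun δ hδ => if_pos hδ)
    by_cases e' : δ ∈ S
    · rw [if_pos e', h δ (Or.inr ⟨e', hδ⟩)]
    · rw [if_neg e']
  · exact (h2 x γ e).trans ((h γ (Or.inl rfl)).trans (h2 y γ e).symm)

/-- dependence on countably many coordinates of a lower set is kept under conditions -/
theorem Dep.comp {β : Type*} {f : Om ι → β} {S : Set ι} (h : Dep S f) (hS : S.Countable)
    (hI : IsLowerSet I) (e : S ⊆ I) (hK : IsCond K) :
    ∃ T : Set ι, T.Countable ∧ S ⊆ T ∧ T ⊆ I ∧ Dep T fun x => f (K x) := by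
  obtain ⟨T, h1, -, h3⟩ := hK.dep
  refine ⟨S ∪ T ∩ I, hS.union (h1.mono inter_subset_left), subset_union_left,
    union_subset e inter_subset_right, fun x y k => h _ _ fun δ hδ => h3 δ x y ?_⟩
  rintro ε (rfl | hε)
  · exact k _ (Or.inl hδ)
  · exact k _ (Or.inr ⟨hε.1, hI hε.2 (e hδ)⟩)

theorem IsCond.low (hK : IsCond K) (hI : IsLowerSet I) (h : ∀ δ ∈ I, x δ = y δ) :
    ∀ δ ∈ I, K x δ = K y δ := fun δ hδ => hK.caus δ x y fun ε hε => h ε (hI hε hδ)

theorem IsCond.inj_low [WellFoundedLT ι] (hK : IsCond K) (hI : IsLowerSet I)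
    (h : ∀ δ ∈ I, K x δ = K y δ) : ∀ δ ∈ I, x δ = y δ := by
  intro δ
  induction δ using WellFoundedLT.induction with
  | ind δ ih =>
    intro hδ
    have lo : Lo δ y x := fun ε hε => (ih ε hε (hI hε.le hδ)).symm
    funext k
    induction k using Nat.strong_induction_on with
    | _ k ik =>
      obtain ⟨l, hl⟩ := hK.mil δ x k
      have u : Up k (y δ) (x δ) := fun i hi => (ik i hi).symm
      have h1 := (hl x y Lo.rfl lo Up.rfl u).2
      have h2 := (hl y x lo Lo.rfl u Up.rfl).2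
      rw [h δ hδ] at h1 h2
      omega

theorem In.comp (hL : In I L) (hR : In I R) : In I (L ∘ R) :=
  fun x γ h => (hL _ γ h).trans (hR x γ h)

theorem In.mono {J : Set ι} (h : In I K) (e : I ⊆ J) : In J K := fun x γ k => h x γ fun k' => k (e k')

theorem in_id : In I (id : Om ι → Om ι) := fun _ _ _ => rfl

theorem in_univ : In univ K := fun _ _ h => (h trivial).elim

theorem Lev.comp (hL : Lev L γ k) (hR : Lev R γ k) : Lev (L ∘ R) γ k :=
  fun x => (hL _).trans (hR x)

theorem Lev.mono (h : Lev K γ k) (e : l ≤ k) : Lev K γ l := fun x => (h x).mono e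

theorem lev_zero : Lev K γ 0 := fun _ => up_zero _ _

theorem In.lev (h : In I K) (e : γ ∉ I) : Lev K γ k := fun x => by rw [h x γ e]; exact Up.rfl

theorem Lev.fix (h : Lev K γ l) (e : k < l) : Fix K γ z k := fun x hx =>
  ⟨((h x).mono e.le).trans hx, fun y _ _ h3 => by rwa [h x k e, h y k e]⟩

theorem In.fix (h : In I K) (e : γ ∉ I) : Fix K γ z k := (h.lev e).fix k.lt_succ_self

theorem Fix.comp (hL : Fix L γ z k) (hR : Fix R γ z k) (h : IsCond R) : Fix (L ∘ R) γ z k :=
  fun x hx => ⟨(hL _ (hR x hx).1).1, fun y h1 h2 h3 =>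
    (hL _ (hR x hx).1).2 _ (h.lo h1) (hR y h2).1 ((hR x hx).2 y h1 h2 h3)⟩

theorem Fix.spl (h : Fix K γ z k) (e : Up k (x γ) z) : Spl K γ x k k := fun y y' h1 h2 h3 h4 =>
  ⟨(h y (h3.trans e)).1.trans (h y' (h4.trans e)).1.symm,
    (h y (h3.trans e)).2 y' (h2.trans h1.symm) (h4.trans e)⟩

theorem Fix.ge (h : Fix K γ z k) (e : Up k (x γ) z) : x γ k ≤ K x γ k := (h.spl e).ge

theorem Fix.congr {z' : ℕ → ℕ} (h : Fix K γ z k) (e : Up k z z') : Fix K γ z' k := fun x hx =>
  ⟨(h x (hx.trans e.symm)).1.trans e, fun y h1 h2 =>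
    (h x (hx.trans e.symm)).2 y h1 (h2.trans e.symm)⟩

theorem Fix.of_eq (h : Fix K γ z k) (e : ∀ x, L x γ = K x γ) : Fix L γ z k := fun x hx => by
  simp only [e]; exact h x hx

theorem Pure.comp (hL : Pure F L) (hR : Pure F R) (h : IsCond R) : Pure F (L ∘ R) :=
  fun γ e => (hL γ e).comp (hR γ e) h

theorem Pure.mono {G : Set ι} (h : Pure F K) (e : G ⊆ F) : Pure G K := fun γ k => h γ (e k)

theorem In.pure (h : In I K) (e : ∀ γ ∈ F, γ ∉ I) : Pure F K := fun γ k => h.fix (e γ k)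

theorem pure_id : Pure F (id : Om ι → Om ι) := (in_id (I := ∅)).pure fun _ _ h => h

theorem Pure.ge (h : Pure F K) (e : γ ∈ F) (x : Om ι) : x γ 0 ≤ K x γ 0 :=
  (h γ e).ge (up_zero _ _)

theorem Spl.ev (hK : IsCond K) (h : Spl K γ x k l) : ∀ᶠ y in 𝓝 x, Spl K γ y k l := by
  classical
  let f : ℕ → Om ι → Om ι := fun i y => update y γ (update (y γ) k i)
  have hf : ∀ i, Continuous (f i) := fun i =>
    continuous_id.update γ ((continuous_apply γ).update k continuous_const)
  have lo : ∀ i y, Lo γ (f i y) y := fun i y => lo_update _ _ _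
  have u : ∀ i y, Up k (f i y γ) (y γ) := fun i y => by
    simp only [f, update_self]; exact up_update _ _ le_rfl
  have d : ∀ y, f 0 y γ k < f 1 y γ k := fun y => by simp [f]
  filter_upwards [ev_up (hK.cont.comp (hf 0)) x γ (l + 1), ev_up (hK.cont.comp (hf 1)) x γ (l + 1)]
    with y h0 h1
  obtain ⟨m, hm⟩ := hK.mil γ y k
  have a := h _ _ (lo 0 x) (lo 1 x) (u 0 x) (u 1 x)
  have b := hm _ _ (lo 0 y) (lo 1 y) (u 0 y) (u 1 y)
  have a2 := a.2 (d x)
  have b2 := b.2 (d y)
  simp only [Function.comp_apply] at h0 h1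
  obtain rfl : m = l := by
    rcases lt_trichotomy m l with e | e | e
    · rw [h0 m (by omega), h1 m (by omega), a.1 m e] at b2
      omega
    · exact e
    · rw [← h0 l (by omega), ← h1 l (by omega), b.1 l e] at a2
      omega
  exact hm

section rst
open Classical

/-- the part of `K` in `I` -/
noncomputable def rst (I : Set ι) (K : Om ι → Om ι) (x : Om ι) (γ : ι) : ℕ → ℕ :=
  if γ ∈ I then K x γ else x γ

theorem rst_in (h : γ ∈ I) : rst I K x γ = K x γ := if_pos h

theorem rst_out (h : γ ∉ I) : rst I K x γ = x γ := if_neg h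

theorem in_rst : In I (rst I K) := fun _ _ => rst_out

theorem IsCond.rst (hK : IsCond K) (I : Set ι) : IsCond (rst I K) := by
  obtain ⟨S, h1, h2, h3⟩ := hK.supp
  refine ⟨continuous_pi fun γ => ?_, fun γ x y h => ?_, ⟨S, h1, fun x γ h => ?_, fun γ h x y e => ?_⟩,
    fun γ x k => ?_⟩ <;> by_cases e' : γ ∈ I
  · simp only [rst_in e']; exact (continuous_apply γ).comp hK.cont
  · simp only [rst_out e']; exact continuous_apply γ
  · simp only [rst_in e']; exact hK.caus γ x y h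
  · simp only [rst_out e']; exact h γ le_rfl
  · rw [rst_in e', h2 x γ h]
  · rw [rst_out e']
  · simp only [rst_in e']; exact h3 γ h x y e
  · simp only [rst_out e']; exact e γ h
  · simpa only [Spl, rst_in e'] using hK.mil γ x k
  · exact ⟨k, ((in_rst (I := I) (K := K)).fix e').spl Up.rfl⟩

theorem rst_tl (hK : IsCond K) (hI : IsLowerSet I) : rst I K ∘ rst Iᶜ K = K := by
  funext x γ
  by_cases e : γ ∈ I
  · exact (rst_in e).trans (hK.low hI (fun δ hδ => rst_out (not_not.2 hδ)) γ e)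
  · exact (rst_out e).trans (rst_in e)

theorem rst_comp (hK : IsCond K) (hI : IsLowerSet I) : rst I (K ∘ R) = rst I K ∘ rst I R := by
  funext x γ
  by_cases e : γ ∈ I
  · exact (rst_in e).trans ((hK.low hI (fun δ hδ => (rst_in hδ).symm) γ e).trans (rst_in e).symm)
  · exact (rst_out e).trans ((rst_out e).symm.trans (rst_out e).symm)

theorem In.rst (h : In I K) : rst I K = K := by
  funext x γ
  by_cases e : γ ∈ I
  · exact rst_in e
  · exact (rst_out e).trans (h x γ e).symm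

theorem In.rst_of {J : Set ι} (h : In I K) : In I (Mi.rst J K) := fun x γ e => by
  by_cases e' : γ ∈ J
  · exact (rst_in e').trans (h x γ e)
  · exact rst_out e'

theorem In.rst_id (h : In Iᶜ K) : Mi.rst I K = id := by
  funext x γ
  by_cases e : γ ∈ I
  · exact (rst_in e).trans (h x γ (not_not.2 e))
  · exact rst_out e

theorem Fix.rst (h : Fix K γ z k) : Fix (rst I K) γ z k := by
  by_cases e : γ ∈ I
  · exact h.of_eq fun _ => rst_in e
  · exact in_rst.fix e

theorem Pure.rst (h : Pure F K) : Pure F (rst I K) := fun γ e => (h γ e).rst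

end rst

end Pool.Agent.P.MP_39acbb_lc.Mi
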