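import Pool.Agent.P.MP_39acbb_lc.Mi.A1

set_option autoImplicit false
set_option linter.unusedSectionVars false

/-! Boxes, restriction to a box, cells. -/

open Filter Topology Set Function

namespace Pool.Agent.P.MP_39acbb_lc.Mi

universe u

/-- the clopen set of sequences that begin with `k` digits of `z`, the next digit being `≥ r` -/
structure Pc where
  /-- length -/
  k : ℕ
  /-- lower bound of the next digit -/
  r : ℕ
  /-- the digits -/
  z : ℕ → ℕ

namespace Pc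

/-- membership -/
def mem (c : Pc) (a : ℕ → ℕ) : Prop := Up c.k a c.z ∧ c.r ≤ a c.k

/-- parametrisation -/
def res (c : Pc) (a : ℕ → ℕ) (j : ℕ) : ℕ :=
  if j < c.k then c.z j else a (j - c.k) + if j = c.k then c.r else 0

/-- inverse of the parametrisation -/
def drop (c : Pc) (a : ℕ → ℕ) (j : ℕ) : ℕ := a (j + c.k) - if j = 0 then c.r else 0

/-- the whole space -/
def triv : Pc := ⟨0, 0, 0⟩

variable {c : Pc} {a b : ℕ → ℕ} {l : ℕ}

theorem res_add (j : ℕ) : c.res a (j + c.k) = a j + if j = 0 then c.r else 0 := by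
  simp [res]

theorem res_lt' {j : ℕ} (h : j < c.k) : c.res a j = c.z j := if_pos h

theorem res_drop (h : c.mem a) : c.res (c.drop a) = a := by
  funext j
  by_cases e : j < c.k
  · exact (res_lt' e).trans (h.1 j e).symm
  · obtain ⟨j, rfl⟩ : ∃ i, j = i + c.k := ⟨j - c.k, by omega⟩
    rw [res_add, drop]
    have := h.2
    split_ifs with e'
    · subst e'; simp only [Nat.zero_add]; omega
    · rfl

theorem drop_res : c.drop (c.res a) = a := by
  funext j
  rw [drop, res_add]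
  omega

theorem mem_res : c.mem (c.res a) :=
  ⟨fun _ => res_lt', by have := res_add (c := c) (a := a) 0; simp at this; omega⟩

theorem triv_res : triv.res a = a := by funext j; simp [res, triv]

theorem triv_drop : triv.drop a = a := by funext j; simp [drop, triv]

theorem triv_mem : triv.mem a := ⟨up_zero _ _, Nat.zero_le _⟩

theorem up_res (h : Up l a b) : Up (l + c.k) (c.res a) (c.res b) := fun j hj => by
  by_cases e : j < c.k
  · rw [res_lt' e, res_lt' e]
  · obtain ⟨j, rfl⟩ : ∃ i, j = i + c.k := ⟨j - c.k, by omega⟩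
    rw [res_add, res_add, h j (by omega)]

theorem res_lt (h : a l < b l) : c.res a (l + c.k) < c.res b (l + c.k) := by
  rw [res_add, res_add]; omega

theorem up_drop (h : Up (l + c.k) a b) : Up l (c.drop a) (c.drop b) := fun j hj => by
  rw [drop, drop, h _ (by omega)]

theorem drop_lt (ha : c.mem a) (h : a (l + c.k) < b (l + c.k)) : c.drop a l < c.drop b l := by
  rw [drop, drop]
  have := ha.2
  split_ifs with e
  · subst e; simp only [Nat.zero_add] at h ⊢; omega
  · exact h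

theorem mem.congr (ha : c.mem a) (h : Up (c.k + 1) b a) : c.mem b :=
  ⟨(h.mono c.k.le_succ).trans ha.1, by rw [h _ c.k.lt_succ_self]; exact ha.2⟩

end Pc

open Pc (triv)

variable {ι : Type u}

/-- boxes -/
abbrev Box (ι : Type u) : Type u := ι → Pc

/-- membership in a box -/
def Mem (c : Box ι) (x : Om ι) : Prop := ∀ γ, (c γ).mem (x γ)

/-- parametrisation of a box -/
def res (c : Box ι) (x : Om ι) (γ : ι) : ℕ → ℕ := (c γ).res (x γ)

/-- inverse of the parametrisation -/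
def drop (c : Box ι) (x : Om ι) (γ : ι) : ℕ → ℕ := (c γ).drop (x γ)

/-- the box is trivial outside `S` -/
def On (c : Box ι) (S : Set ι) : Prop := ∀ γ, γ ∉ S → c γ = triv

variable {K L R : Om ι → Om ι} {γ : ι} {x y : Om ι} {k l m n : ℕ} {z : ℕ → ℕ} {I S : Set ι}
  {c : Box ι}

theorem res_drop (h : Mem c x) : res c (drop c x) = x := funext fun γ => Pc.res_drop (h γ)

theorem drop_res : drop c (res c x) = x := funext fun _ => Pc.drop_res

theorem mem_res : Mem c (res c x) := fun _ => Pc.mem_res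

theorem On.mono {T : Set ι} (h : On c S) (e : S ⊆ T) : On c T := fun γ k => h γ fun k' => k (e k')

theorem factor (h : ∀ x, Mem c (R x)) : res c ∘ (drop c ∘ R) = R :=
  funext fun x => res_drop (h x)

theorem cont_res : Continuous (res c) := cont_iff.2 fun γ j =>
  (lc_coord γ (j - (c γ).k)).map fun v =>
    if j < (c γ).k then (c γ).z j else v + if j = (c γ).k then (c γ).r else 0

theorem cont_drop : Continuous (drop c) := cont_iff.2 fun γ j =>
  (lc_coord γ (j + (c γ).k)).map fun v => v - if j = 0 then (c γ).r else 0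

theorem lc_pcmem (c : Pc) (γ : ι) : LC fun x : Om ι => c.mem (x γ) := fun x =>
  (ev_up continuous_id x γ (c.k + 1)).mono fun _ e =>
    propext ⟨fun h => h.congr e.symm, fun h => h.congr e⟩

theorem ev_mem {F : Finset ι} (h : On c F) (hx : Mem c x) : ∀ᶠ y in 𝓝 x, Mem c y := by
  have : ∀ᶠ y in 𝓝 x, ∀ γ ∈ F, (c γ).mem (y γ) :=
    (eventually_all_finset F).2 fun γ _ => (lc_pcmem (c γ) γ x).mono fun _ e => e.mpr (hx γ)
  filter_upwards [this] with y hy γ
  by_cases e : γ ∈ F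
  · exact hy γ e
  · rw [h γ e]; exact Pc.triv_mem

variable [LinearOrder ι]

theorem On.in_res (h : On c S) : In S (res c) := fun x γ e => by
  rw [res, h γ e, Pc.triv_res]

theorem On.in_drop (h : On c S) : In S (drop c) := fun x γ e => by
  rw [drop, h γ e, Pc.triv_drop]

theorem On.cond (h : On c S) (hS : S.Countable) : IsCond (res c) :=
  ⟨cont_res, fun γ _ _ e => congrArg _ (e γ le_rfl),
    ⟨S, hS, h.in_res, fun γ hγ _ _ e => congrArg _ (e γ hγ)⟩,
    fun γ _ k => ⟨k + (c γ).k, fun _ _ _ _ h3 h4 => ⟨Pc.up_res (h3.trans h4.symm), Pc.res_lt⟩⟩⟩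

theorem IsCond.drop (hR : IsCond R) (h : On c S) (hS : S.Countable) (e : ∀ x, Mem c (R x)) :
    IsCond (drop c ∘ R) := by
  refine ⟨cont_drop.comp hR.cont, fun γ x y k => congrArg (c γ).drop (hR.caus γ x y k), ?_,
    fun γ x k => ?_⟩
  · obtain ⟨T, h1, h2, h3⟩ := hR.supp
    refine ⟨S ∪ T, hS.union h1, fun x γ k => (h.in_drop _ γ fun e => k (Or.inl e)).trans
      (h2 x γ fun e => k (Or.inr e)), fun γ hγ x y k => congrArg (c γ).drop ?_⟩
    by_cases e' : γ ∈ T
    · exact h3 γ e' x y fun δ hδ => k δ (Or.inr hδ)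
    · rw [h2 x γ e', h2 y γ e', k γ hγ]
  · obtain ⟨l, hl⟩ := hR.mil γ x k
    obtain ⟨l, rfl⟩ : ∃ i, l = i + (c γ).k := by
      refine ⟨l - (c γ).k, (Nat.sub_add_cancel (not_lt.1 fun hc => ?_)).symm⟩
      have := (hl (update x γ (update (x γ) k 0)) (update x γ (update (x γ) k 1)) (lo_update _ _ _)
        (lo_update _ _ _) (by rw [update_self]; exact up_update _ _ le_rfl)
        (by rw [update_self]; exact up_update _ _ le_rfl)).2 (by simp)
      rw [(e _ γ).1 l hc, (e _ γ).1 l hc] at this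
      omega
    exact ⟨l, fun y y' h1 h2 h3 h4 => ⟨Pc.up_drop (hl y y' h1 h2 h3 h4).1,
      fun k => Pc.drop_lt (e y γ) ((hl y y' h1 h2 h3 h4).2 k)⟩⟩

theorem lo_drop (h : Lo γ x y) : Lo γ (drop c x) (drop c y) := fun δ hδ => congrArg _ (h δ hδ)

theorem spl_conj (hR : IsCond R) (hk : (c γ).k ≤ k) (x : Om ι) : ∃ l, ∀ y y', Lo γ y x →
    Lo γ y' x → Up k (y γ) (x γ) → Up k (y' γ) (x γ) → (c γ).mem (y γ) →
    Up l (res c (R (drop c y)) γ) (res c (R (drop c y')) γ) ∧
      (y γ k < y' γ k → res c (R (drop c y)) γ l < res c (R (drop c y')) γ l) := by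
  obtain ⟨k, rfl⟩ : ∃ i, k = i + (c γ).k := ⟨k - (c γ).k, by omega⟩
  obtain ⟨l, hl⟩ := hR.mil γ (drop c x) k
  refine ⟨l + (c γ).k, fun y y' h1 h2 h3 h4 h5 => ?_⟩
  have := hl _ _ (lo_drop h1) (lo_drop h2) (Pc.up_drop h3) (Pc.up_drop h4)
  exact ⟨Pc.up_res this.1, fun e => Pc.res_lt (this.2 (Pc.drop_lt h5 e))⟩

/-- the first `n` digits -/
def trunc (n : ℕ) (a : ℕ → ℕ) (j : ℕ) : ℕ := if j < n then a j else 0

theorem up_trunc (n : ℕ) (a : ℕ → ℕ) : Up n (trunc n a) a := fun _ h => if_pos h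

theorem trunc_eq {a b : ℕ → ℕ} (h : Up n a b) : trunc n a = trunc n b := by
  funext j
  unfold trunc
  split_ifs with e
  exacts [h j e, rfl]

theorem countable_trunc (n : ℕ) : (range (trunc n)).Countable := by
  refine (countable_range fun (f : Fin n → ℕ) j => if h : j < n then f ⟨j, h⟩ else 0).mono ?_
  rintro _ ⟨a, rfl⟩
  exact ⟨fun i => a i, funext fun j => by simp [trunc]⟩

/-- basic neighbourhoods -/
def nb (x : Om ι) (F : Finset ι) (n : ℕ) (γ : ι) : Pc :=
  if γ ∈ F then ⟨n, 0, trunc n (x γ)⟩ else triv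

variable {F : Finset ι}

theorem on_nb : On (nb x F n) F := fun _ h => if_neg h

theorem mem_nb : Mem (nb x F n) y ↔ ∀ γ ∈ F, Up n (y γ) (x γ) := by
  refine forall_congr' fun γ => ?_
  by_cases e : γ ∈ F
  · simp only [nb, Pc.mem, Nat.zero_le, and_true, e, forall_true_left, if_true]
    exact ⟨fun h => h.trans (up_trunc _ _), fun h => h.trans (up_trunc _ _).symm⟩
  · simp only [nb, Pc.triv_mem, e, false_imp_iff, if_false]

theorem self_nb : Mem (nb x F n) x := mem_nb.2 fun _ _ => Up.rfl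

theorem nb_eq (h : Mem (nb x F n) y) : nb y F n = nb x F n := by
  funext γ
  unfold nb
  split_ifs with e
  · rw [trunc_eq (mem_nb.1 h γ e)]
  · rfl

theorem nb_mono {G : Finset ι} (h : Mem (nb x G m) y) (e : F ⊆ G) (e' : n ≤ m) :
    Mem (nb x F n) y := mem_nb.2 fun γ hγ => (mem_nb.1 h γ (e hγ)).mono e'

theorem cond_nb : IsCond (res (nb x F n)) := on_nb.cond F.countable_toSet

theorem countable_nb (F : Finset ι) (n : ℕ) : (range fun x : Om ι => nb x F n).Countable := by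
  have := (countable_trunc n).to_subtype
  refine (countable_range fun (f : F → range (trunc n)) γ =>
    if h : γ ∈ F then (⟨n, 0, f ⟨γ, h⟩⟩ : Pc) else triv).mono ?_
  rintro _ ⟨x, rfl⟩
  exact ⟨fun γ => ⟨_, x γ, rfl⟩, funext fun γ => by simp [nb]⟩

theorem ex_nb {p : Om ι → Prop} (h : ∀ᶠ y in 𝓝 x, p y) (hd : Dep S p) :
    ∃ F : Finset ι, ↑F ⊆ S ∧ ∃ n, ∀ y, Mem (nb x F n) y → p y := by
  classical
  rw [nhds_pi, Filter.Eventually, Filter.mem_pi] at h
  obtain ⟨J, hJ, t, ht, h⟩ := h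
  have : ∀ γ, ∃ n, ∀ a, Up n a (x γ) → a ∈ t γ := fun γ => by
    have := ht γ
    rw [nhds_pi, Filter.mem_pi] at this
    obtain ⟨J', hJ', t', ht', h'⟩ := this
    obtain ⟨n, hn⟩ := hJ'.bddAbove
    exact ⟨n + 1, fun a ha => h' fun i hi => by
      rw [ha i (Nat.lt_succ_of_le (hn hi))]; exact mem_of_mem_nhds (ht' i)⟩
  choose f hf using this
  obtain ⟨n, hn⟩ := (hJ.image f).bddAbove
  refine ⟨hJ.toFinset.filter (· ∈ S), fun γ hγ => (Finset.mem_filter.1 hγ).2, n, fun y hy => ?_⟩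
  rw [← hd (fun γ => if γ ∈ S then y γ else x γ) y fun δ hδ => if_pos hδ]
  refine h fun γ hγ => hf γ _ ?_
  split_ifs with e
  · exact (mem_nb.1 hy γ (by simp [hγ, e])).mono (hn ⟨γ, hγ, rfl⟩)
  · exact Up.rfl

theorem dep_univ {β : Type*} (f : Om ι → β) : Dep univ f :=
  fun _ _ h => congrArg f (funext fun δ => h δ trivial)

theorem On.dep (h : On c S) : Dep S (Mem c) := fun x y e => propext (forall_congr' fun γ => by
  by_cases k : γ ∈ S
  · rw [e γ k]
  · simp only [h γ k, Pc.triv_mem])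

/-- hereditary properties of conditions -/
def Her (I : Set ι) (D : (Om ι → Om ι) → Prop) : Prop :=
  ∀ K R, IsCond R → In I R → D K → D (K ∘ R)

/-- `D` holds locally -/
def Good (I : Set ι) (D : (Om ι → Om ι) → Prop) (K : Om ι → Om ι) : Prop :=
  ∃ S : Set ι, S.Countable ∧ S ⊆ I ∧ ∀ x, ∃ F : Finset ι, ↑F ⊆ S ∧ ∃ n, D (K ∘ res (nb x F n))

variable {D : (Om ι → Om ι) → Prop}

theorem Her.box (hD : Her I D) (h : On c S) (hS : S.Countable) (e : S ⊆ I) (hR : IsCond R)
    (hI : In I R) (hm : ∀ x, Mem c (R x)) (hK : D (K ∘ res c)) : D (K ∘ R) := by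
  rw [← factor hm]
  exact hD (K ∘ res c) _ (hR.drop h hS hm) ((h.in_drop.mono e).comp hI) hK

theorem Good.comp (h : Good I D K) (hD : Her I D) (hI : IsLowerSet I) (hR : IsCond R)
    (hI' : In I R) : Good I D (K ∘ R) := by
  obtain ⟨S, h1, h2, h3⟩ := h
  obtain ⟨T, g1, -, g3, g4⟩ :=
    Dep.comp (S := S) (f := fun (x : Om ι) (γ : S) => x γ.1) (fun x y e => funext fun γ => e γ γ.2) h1 hI h2 hR
  refine ⟨T, g1, g3, fun x => ?_⟩
  obtain ⟨F, k1, n, k2⟩ := h3 (R x)
  obtain ⟨G, k3, m, k4⟩ := ex_nb (hR.cont.continuousAt.eventually (ev_mem on_nb self_nb))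
    (S := T) (p := fun y => Mem (nb (R x) F n) (R y))
    fun a b e => on_nb.dep _ _ fun δ hδ => congrFun (g4 a b e) ⟨δ, k1 hδ⟩
  exact ⟨G, k3, m, hD.box (K := K) on_nb F.countable_toSet (k1.trans h2) (hR.comp cond_nb)
    (hI'.comp (on_nb.in_res.mono (k3.trans g3))) (fun y => k4 _ mem_res) k2⟩

theorem Good.of (h : D K) (hD : Her I D) : Good I D K :=
  ⟨∅, countable_empty, empty_subset _, fun _ => ⟨∅, by simp, 0,
    hD _ _ cond_nb (on_nb.in_res.mono (by simp)) h⟩⟩

theorem Good.imp {D' : (Om ι → Om ι) → Prop} (h : Good I D K)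
    (e : ∀ R, IsCond R → In I R → D (K ∘ R) → D' (L ∘ R)) : Good I D' L :=
  let ⟨S, h1, h2, h3⟩ := h
  ⟨S, h1, h2, fun x => let ⟨F, k1, n, k2⟩ := h3 x
    ⟨F, k1, n, e _ cond_nb (on_nb.in_res.mono (k1.trans h2)) k2⟩⟩

theorem Good.all {p : Om ι → Prop} (h : Good I (fun K => ∀ x, p (K x)) K) (x : Om ι) : p (K x) := by
  obtain ⟨S, -, -, h3⟩ := h
  obtain ⟨F, -, n, k2⟩ := h3 x
  simpa only [comp_apply, res_drop self_nb] using k2 (drop (nb x F n) x)

/-- a countable partition into boxes supported in `I` -/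
structure Cells (I : Set ι) (cell : Om ι → Box ι) : Prop where
  mem : ∀ x, Mem (cell x) x
  eq : ∀ x y, Mem (cell x) y → cell y = cell x
  cnt : (range cell).Countable
  fin : ∀ x, ∃ F : Finset ι, ↑F ⊆ I ∧ On (cell x) F

theorem Cells.lc {cell : Om ι → Box ι} (h : Cells I cell) : LC cell := fun x =>
  let ⟨_, _, k⟩ := h.fin x
  (ev_mem k (h.mem x)).mono (h.eq x)

theorem Cells.dep {cell : Om ι → Box ι} (h : Cells I cell) :
    ∃ S : Set ι, S.Countable ∧ S ⊆ I ∧ Dep S cell ∧ ∀ x, On (cell x) S := by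
  have : ∀ c : range cell, ∃ F : Finset ι, ↑F ⊆ I ∧ On c.1 F := by
    rintro ⟨_, x, rfl⟩
    exact h.fin x
  choose F h1 h2 using this
  have := h.cnt.to_subtype
  have o : ∀ x, On (cell x) (⋃ c, ↑(F c)) := fun x =>
    (h2 ⟨_, x, rfl⟩).mono (subset_iUnion (fun c => (F c : Set ι)) _)
  exact ⟨⋃ c, ↑(F c), countable_iUnion fun c => (F c).countable_toSet, iUnion_subset h1,
    fun x y e => (h.eq x y ((o x).dep x y e ▸ h.mem x)).symm, o⟩

theorem exhaust (hS : S.Countable) :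
    ∃ G : ℕ → Finset ι, Monotone G ∧ (∀ n, ↑(G n) ⊆ S) ∧ ∀ γ ∈ S, ∃ n, γ ∈ G n := by
  classical
  obtain ⟨f, hf⟩ := Set.countable_iff_exists_injOn.1 hS
  refine ⟨fun n => (Finite.of_injOn (s := {γ ∈ S | f γ ≤ n}) (fun _ h => h.2)
    (hf.mono fun _ h => h.1) (finite_Iic n)).toFinset, fun a b e γ => ?_, fun n γ => ?_,
    fun γ h => ⟨f γ, ?_⟩⟩
  · simpa using fun h k => ⟨h, k.trans e⟩
  · simpa using fun h _ => h
  · simpa using h

theorem Good.cells (h : Good I D K) (hD : Her I D) :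
    ∃ cell, Cells I cell ∧ ∀ x, D (K ∘ res (cell x)) := by
  classical
  obtain ⟨S, h1, h2, h3⟩ := h
  obtain ⟨G, g1, g2, g3⟩ := exhaust h1
  have ex : ∀ x, ∃ m, D (K ∘ res (nb x (G m) m)) := fun x => by
    obtain ⟨F, k1, n, k2⟩ := h3 x
    obtain ⟨m, hm⟩ := (((eventually_all_finset F).2 fun γ hγ =>
      let ⟨n, hn⟩ := g3 γ (k1 hγ)
      (eventually_ge_atTop n).mono fun _ e => g1 e hn).and (eventually_ge_atTop n)).exists
    exact ⟨m, hD.box on_nb F.countable_toSet (k1.trans h2) cond_nb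
      (on_nb.in_res.mono ((g2 m).trans h2)) (fun y => nb_mono mem_res hm.1 hm.2) k2⟩
  refine ⟨fun x => nb x (G (Nat.find (ex x))) (Nat.find (ex x)), ⟨fun x => self_nb,
    fun x y e => ?_, ?_, fun x => ⟨_, (g2 _).trans h2, on_nb⟩⟩, fun x => Nat.find_spec (ex x)⟩
  · have : Nat.find (ex y) = Nat.find (ex x) := (Nat.find_eq_iff _).2
      ⟨by rw [nb_eq e]; exact Nat.find_spec (ex x), fun m hm => by
        rw [nb_eq (nb_mono e (g1 hm.le) hm.le)]; exact Nat.find_min (ex x) hm⟩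
    simp only [this]
    exact nb_eq e
  · refine (countable_iUnion fun m => countable_nb (G m) m).mono ?_
    rintro _ ⟨x, rfl⟩
    exact mem_iUnion.2 ⟨_, x, rfl⟩

end Pool.Agent.P.MP_39acbb_lc.Mi
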