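import Pool.Agent.P.MP_39acbb_lc.Mi.A2

set_option autoImplicit false
set_option linter.unusedSectionVars false

/-! Fusion and bookkeeping. -/

open Filter Topology Set Function

namespace Pool.Agent.P.MP_39acbb_lc.Mi

universe u

variable {ι : Type u}

/-- `K n ∘ ⋯ ∘ K (n + m - 1)` -/
def seg (K : ℕ → Om ι → Om ι) (n : ℕ) : ℕ → Om ι → Om ι
  | 0 => id
  | m + 1 => seg K n m ∘ K (n + m)

variable {K : ℕ → Om ι → Om ι}

theorem seg_add (n d e : ℕ) : seg K n (d + e) = seg K n d ∘ seg K (n + d) e := by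
  induction e with
  | zero => rfl
  | succ e ih => rw [← Nat.add_assoc, seg, seg, ih, Nat.add_assoc n d e]; rfl

variable [LinearOrder ι]

theorem seg_ind (hK : ∀ n, IsCond (K n)) {Q : (Om ι → Om ι) → Prop} (h0 : Q id)
    (h1 : ∀ L R, IsCond R → Q L → Q R → Q (L ∘ R)) {n : ℕ} (h : ∀ i, n ≤ i → Q (K i)) (m : ℕ) :
    Q (seg K n m) := by
  induction m with
  | zero => exact h0
  | succ m ih => exact h1 _ _ (hK _) ih (h _ (Nat.le_add_right _ _))

theorem seg_cond (hK : ∀ n, IsCond (K n)) (n m : ℕ) : IsCond (seg K n m) :=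
  seg_ind hK isCond_id (fun _ _ _ => IsCond.comp) (fun i _ => hK i) m

theorem seg_fix (hK : ∀ n, IsCond (K n)) {γ : ι} {z : ℕ → ℕ} {k n : ℕ}
    (h : ∀ i, n ≤ i → Fix (K i) γ z k) (m : ℕ) : Fix (seg K n m) γ z k :=
  seg_ind (Q := fun L => Fix L γ z k) hK ((in_id (I := ∅)).fix id)
    (fun _ _ a b c => b.comp c a) h m

variable [WellFoundedLT ι]

theorem conv (hK : ∀ n, IsCond (K n)) (hf : ∀ γ z k, ∃ d, ∀ n, d ≤ n → Fix (K n) γ z k) (γ : ι) :
    ∀ n x j, ∃ v, ∀ᶠ p : Om ι × ℕ in 𝓝 x ×ˢ atTop, seg K n p.2 p.1 γ j = v := by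
  induction γ using WellFoundedLT.induction with
  | ind γ ih =>
    intro n x j
    obtain ⟨d, hd⟩ := hf γ (x γ) (j + 1)
    choose v hv using fun δ h i => ih δ h (n + d) x i
    let w : Om ι := fun δ => if h : δ < γ then v δ h else x δ
    let w' : Om ι × ℕ → Om ι := fun p δ => if δ < γ then seg K (n + d) p.2 p.1 δ else x δ
    have t : Tendsto w' (𝓝 x ×ˢ atTop) (𝓝 w) := tendsto_pi_nhds.2 fun δ => by
      by_cases h : δ < γ
      · simp only [w, w', if_pos h, dif_pos h]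
        exact tendsto_pi_nhds.2 fun i => tendsto_const_nhds.congr' ((hv δ h i).mono fun _ e => e.symm)
      · simp only [w, w', if_neg h, dif_neg h]
        exact tendsto_const_nhds
    have c := seg_cond hK n d
    have h1 : ∀ᶠ p : Om ι × ℕ in 𝓝 x ×ˢ atTop,
        seg K n d (seg K (n + d) p.2 p.1) γ j = seg K n d w γ j := by
      filter_upwards [t.eventually (cont_iff.1 c.cont γ j w),
        tendsto_fst.eventually (ev_up continuous_id x γ (j + 1))] with p a b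
      refine (c.dig (x := w' p) (fun δ h => (if_pos h).symm) ?_ j j.lt_succ_self).trans a
      simp only [w', lt_irrefl, if_false]
      exact (seg_fix hK (fun i hi => hd i (by omega)) p.2 p.1 b).1
    have t2 : Tendsto (fun p : Om ι × ℕ => (p.1, p.2 - d)) (𝓝 x ×ˢ atTop) (𝓝 x ×ˢ atTop) :=
      tendsto_fst.prodMk ((tendsto_sub_atTop_nat d).comp tendsto_snd)
    refine ⟨seg K n d w γ j, ?_⟩
    filter_upwards [t2.eventually h1, tendsto_snd.eventually (eventually_ge_atTop d)] with p a b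
    rw [← Nat.add_sub_cancel' b, seg_add]
    exact a

theorem fusion (hK : ∀ n, IsCond (K n)) (hf : ∀ γ z k, ∃ d, ∀ n, d ≤ n → Fix (K n) γ z k) :
    ∃ M : ℕ → Om ι → Om ι, (∀ n, IsCond (M n)) ∧ (∀ n d, M n = seg K n d ∘ M (n + d)) ∧
      ∀ n x γ j, ∀ᶠ m in atTop, seg K n m x γ j = M n x γ j := by
  choose M hM using fun n x γ j => conv hK hf γ n x j
  have pt : ∀ n x γ j, ∀ᶠ m in atTop, seg K n m x γ j = M n x γ j := fun n x γ j =>
    (hM n x γ j).curry.self_of_nhds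
  have pu : ∀ n x γ k, ∀ᶠ m in atTop, Up k (seg K n m x γ) (M n x γ) := fun n x γ k =>
    (eventually_all_finite (Set.finite_Iio k)).2 fun i _ => pt n x γ i
  have eq2 : ∀ n γ x y, (∀ m, seg K n m x γ = seg K n m y γ) → M n x γ = M n y γ :=
    fun n γ x y h => funext fun j => by
      obtain ⟨m, a, b⟩ := ((pt n x γ j).and (pt n y γ j)).exists
      rw [← a, ← b, h]
  have sp : ∀ n d, M n = seg K n d ∘ M (n + d) := fun n d => by
    funext x γ j
    have t : Tendsto (fun m => seg K (n + d) m x) atTop (𝓝 (M (n + d) x)) :=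
      tendsto_pi_nhds.2 fun δ => tendsto_pi_nhds.2 fun i =>
        tendsto_const_nhds.congr' ((pt _ x δ i).mono fun _ e => e.symm)
    obtain ⟨m, a, b⟩ := (((tendsto_add_atTop_nat d).eventually (pt n x γ j)).and
      (t.eventually (cont_iff.1 (seg_cond hK n d).cont γ j _))).exists
    rw [← a, Nat.add_comm m d, seg_add]
    exact b
  have ca : ∀ n γ x y, (∀ δ ≤ γ, x δ = y δ) → M n x γ = M n y γ := fun n γ x y h =>
    eq2 n γ x y fun m => (seg_cond hK n m).caus γ x y h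
  refine ⟨M, fun n => ⟨cont_iff.2 fun γ j x => (hM n x γ j).curry.mono fun y hy => ?_, ca n, ?_,
    fun γ x k => ?_⟩, sp, pt⟩
  · obtain ⟨m, a, b⟩ := (hy.and (pt n y γ j)).exists
    exact b.symm.trans a
  · choose S h1 h2 h3 using fun m => (seg_cond hK n m).supp
    refine ⟨⋃ m, S m, countable_iUnion h1, fun x γ h => funext fun j => ?_,
      fun γ hγ x y h => eq2 n γ x y fun m => ?_⟩
    · obtain ⟨m, a⟩ := (pt n x γ j).exists
      rw [← a, h2 m x γ fun e => h (mem_iUnion.2 ⟨m, e⟩)]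
    · by_cases e : γ ∈ S m
      · exact h3 m γ e x y fun δ hδ => h δ (mem_iUnion.2 ⟨m, hδ⟩)
      · rw [h2 m x γ e, h2 m y γ e, h γ hγ]
  · obtain ⟨d, hd⟩ := hf γ (x γ) k
    have f := seg_fix (n := n + d) hK fun i hi => hd i (by omega)
    have f' : Fix (M (n + d)) γ (x γ) k := fun y hy => ⟨by
      obtain ⟨m, a⟩ := (pu (n + d) y γ k).exists
      exact a.symm.trans (f m y hy).1, fun y' h1 h2 h3 => by
      obtain ⟨m, a, b⟩ := ((pt (n + d) y γ k).and (pt (n + d) y' γ k)).exists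
      rw [← a, ← b]
      exact (f m y hy).2 y' h1 h2 h3⟩
    obtain ⟨l, hl⟩ := (seg_cond hK n d).mil γ (M (n + d) x) k
    refine ⟨l, fun y y' h1 h2 h3 h4 => ?_⟩
    have lo : ∀ y, Lo γ y x → Lo γ (M (n + d) y) (M (n + d) x) := fun y h δ hδ =>
      ca _ δ y x fun ε hε => h ε (hε.trans_lt hδ)
    have s := f'.spl (x := x) Up.rfl
    have := hl _ _ (lo y h1) (lo y' h2) (s y x h1 Lo.rfl h3 Up.rfl).1 (s y' x h2 Lo.rfl h4 Up.rfl).1
    rw [sp n d]
    exact ⟨this.1, fun e => this.2 ((s y y' h1 h2 h3 h4).2 e)⟩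

theorem lim_mem {M : Om ι → Om ι} {n : ℕ} {x : Om ι} {γ : ι} {c : Pc}
    (h : ∀ j, ∀ᶠ m in atTop, seg K n m x γ j = M x γ j) (e : ∀ m, c.mem (seg K n m x γ)) :
    c.mem (M x γ) := by
  obtain ⟨m, a⟩ := ((eventually_all_finite (Set.finite_Iio (c.k + 1))).2 fun i _ => h i).exists
  exact (e m).congr fun i hi => (a i hi).symm

omit [LinearOrder ι] [WellFoundedLT ι] in
theorem book {St : Type*} (Inv : ℕ → St → Prop) (Rel : ℕ → St → Finset ι → St → Set ι → Prop)
    (s0 : St) (h0 : Inv 0 s0) (F0 : Finset ι)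
    (step : ∀ n s F, Inv n s → ∃ s' S, S.Countable ∧ Inv (n + 1) s' ∧ Rel n s F s' S) :
    ∃ (s : ℕ → St) (F : ℕ → Finset ι) (S : ℕ → Set ι), s 0 = s0 ∧ (∀ n, Inv n (s n)) ∧
      (∀ n, Rel n (s n) (F n) (s (n + 1)) (S n)) ∧ (∀ n, F0 ⊆ F n) ∧
      ∀ n, ∀ γ ∈ S n, ∃ d, ∀ m, d ≤ m → γ ∈ F m := by
  classical
  let : LinearOrder ι := linearOrderOfSTO WellOrderingRel
  choose s' S h1 h2 h3 using step
  choose G g1 g2 g3 using fun n s F h => exhaust (h1 n s F h)
  let f : ∀ n, {s // Inv n s} × (ℕ → Finset ι) := fun n =>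
    Nat.rec (motive := fun n => {s // Inv n s} × (ℕ → Finset ι)) (⟨s0, h0⟩, fun _ => F0)
      (fun n p => (⟨s' n p.1.1 (p.2 n) p.1.2, h2 _ _ _ _⟩,
        fun j => p.2 j ∪ G n p.1.1 (p.2 n) p.1.2 j)) n
  have mo : ∀ j, Monotone fun n => (f n).2 j := fun j =>
    monotone_nat_of_le_succ fun n => Finset.subset_union_left
  refine ⟨fun n => (f n).1.1, fun n => (f n).2 n, fun n => S n _ ((f n).2 n) (f n).1.2, rfl,
    fun n => (f n).1.2, fun n => h3 n _ _ _, fun n => mo n (Nat.zero_le n), fun n γ hγ => ?_⟩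
  obtain ⟨j, hj⟩ := g3 _ _ _ _ γ hγ
  exact ⟨max (n + 1) j, fun m hm => mo m (le_of_max_le_left hm)
    (Finset.mem_union_right _ (g1 _ _ _ _ (le_of_max_le_right hm) hj))⟩

end Pool.Agent.P.MP_39acbb_lc.Mi
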