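import Pool.Agent.P.MP_39acbb_lc.Mi.A3

set_option autoImplicit false
set_option linter.unusedSectionVars false

/-! Gluing along cells; countably many dense sets are met locally. -/

open Filter Topology Set Function

namespace Pool.Agent.P.MP_39acbb_lc.Mi

universe u

open Pc (triv)

variable {ι : Type u} [LinearOrder ι] {K L R : Om ι → Om ι} {β γ : ι} {x y : Om ι} {n : ℕ}
  {I S : Set ι} {c : Box ι} {D : (Om ι → Om ι) → Prop}

theorem Pc.res_zero {c : Pc} (h : c.k = 0) (h' : c.r = 0) (a : ℕ → ℕ) : c.res a = a := by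
  funext j; simp [Pc.res, h, h']

theorem Pc.drop_zero {c : Pc} (h : c.k = 0) (h' : c.r = 0) (a : ℕ → ℕ) : c.drop a = a := by
  funext j; simp [Pc.drop, h, h']

/-- conditions glued along cells -/
def glue (cell : Om ι → Box ι) (R : Box ι → Om ι → Om ι) (x : Om ι) : Om ι :=
  res (cell x) (R (cell x) (drop (cell x) x))

section glue
variable {cell : Om ι → Box ι} {T : Box ι → Om ι → Om ι} (hc : Cells (Iic β) cell)
  (hk : ∀ x, (cell x β).k = n ∧ (cell x β).r = 0) (hT : ∀ x, IsCond (T (cell x)))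
  (hI : ∀ x, In (Ici β) (T (cell x)))
include hc

theorem glue_res (x : Om ι) : glue cell T ∘ res (cell x) = res (cell x) ∘ T (cell x) := by
  funext y
  simp only [comp_apply, glue, hc.eq x _ mem_res, drop_res]

theorem cell_triv (h : β < γ) : cell x γ = triv :=
  let ⟨_, a, b⟩ := hc.fin x
  b γ fun e => not_le.2 h (a e)

include hk

theorem cell_eq (h : Lo β y x) (h' : Up n (y β) (x β)) : cell y = cell x := hc.eq x y fun γ => by
  rcases lt_trichotomy γ β with e | rfl | e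
  · rw [h γ e]; exact hc.mem x γ
  · exact ⟨((hk x).1 ▸ h').trans (hc.mem x γ).1, (hk x).2 ▸ Nat.zero_le _⟩
  · rw [cell_triv hc e]; exact Pc.triv_mem

theorem glue_lev : Lev (glue cell T) β n := fun x =>
  (hk x).1 ▸ (mem_res β).1.trans (hc.mem x β).1.symm

theorem cell_eq' (h : β < γ ∨ γ = β ∧ n = 0) (e : Lo γ y x) : cell y = cell x := by
  rcases h with h | ⟨rfl, rfl⟩
  · exact cell_eq hc hk (fun δ hδ => e δ (hδ.trans h)) (e β h ▸ Up.rfl)
  · exact cell_eq hc hk e (up_zero _ _)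

theorem glue_fix (h : β < γ ∨ γ = β ∧ n = 0) (e : ∀ x, Fix (T (cell x)) γ 0 0) :
    Fix (glue cell T) γ 0 0 := fun x _ => ⟨up_zero _ _, fun y h1 _ h3 => by
  have z : (cell x γ).k = 0 ∧ (cell x γ).r = 0 := by
    rcases h with h | ⟨rfl, rfl⟩
    · rw [cell_triv hc h]; exact ⟨rfl, rfl⟩
    · exact hk x
  simp only [glue, cell_eq' hc hk h h1, res, Pc.res_zero z.1 z.2]
  refine (e x _ (up_zero _ _)).2 _ (lo_drop h1) (up_zero _ _) ?_
  simpa only [drop, Pc.drop_zero z.1 z.2] using h3⟩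

omit hk in
include hI in
theorem glue_in : In (Ici β) (glue cell T) := fun x γ h => by
  rw [glue, res, hI x _ γ h, drop, Pc.res_drop (hc.mem x γ)]

include hT hI

theorem glue_cond : IsCond (glue cell T) := by
  refine ⟨cont_iff.2 fun γ j x => ?_, fun γ x y h => ?_, ?_, fun γ x k => ?_⟩
  · filter_upwards [hc.lc x, cont_iff.1 (cont_res.comp ((hT x).cont.comp (cont_drop (c := cell x))))
      γ j x] with y a b
    rw [glue, a]
    exact b
  · by_cases e : γ < β
    · rw [glue_in hc hI x γ (not_le.2 e), glue_in hc hI y γ (not_le.2 e), h γ le_rfl]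
    · have e := not_lt.1 e
      rw [glue, glue, cell_eq hc hk (fun δ hδ => h δ (hδ.le.trans e)) (h β e ▸ Up.rfl)]
      exact congrArg _ ((hT y).caus γ _ _ fun δ hδ => congrArg _ (h δ hδ))
  · obtain ⟨S, h1, -, h3, h4⟩ := hc.dep
    have : ∀ c : range cell, IsCond (T c.1) := by
      rintro ⟨_, x, rfl⟩
      exact hT x
    choose U g1 g2 g3 using fun c => (this c).supp
    have := hc.cnt.to_subtype
    have sub : ∀ x, U ⟨_, x, rfl⟩ ⊆ S ∪ ⋃ c, U c := fun x _ h => Or.inr (mem_iUnion.2 ⟨_, h⟩)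
    refine ⟨S ∪ ⋃ c, U c, h1.union (countable_iUnion g1), fun x γ h => ?_, fun γ hγ x y h => ?_⟩
    · rw [glue, res, g2 ⟨_, x, rfl⟩ _ γ fun e => h (sub x e), drop, Pc.res_drop (hc.mem x γ)]
    · simp only [glue, h3 x y fun δ hδ => h δ (Or.inl hδ)]
      refine congrArg (cell y γ).res ?_
      by_cases e : γ ∈ U ⟨_, y, rfl⟩
      · exact g3 ⟨_, y, rfl⟩ γ e _ _ fun δ hδ => congrArg _ (h δ (sub y hδ))
      · rw [g2 ⟨_, y, rfl⟩ _ γ e, g2 ⟨_, y, rfl⟩ _ γ e, drop, drop, h γ hγ]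
  · by_cases e : γ < β
    · exact ⟨k, ((glue_in hc hI).fix (not_le.2 e)).spl Up.rfl⟩
    by_cases e' : γ = β ∧ k < n
    · exact ⟨k, e'.1 ▸ ((glue_lev hc hk).fix e'.2).spl Up.rfl⟩
    have ce : ∀ y, Lo γ y x → Up k (y γ) (x γ) → cell y = cell x := fun y h1 h2 => by
      rcases (not_lt.1 e).eq_or_lt with rfl | e
      · exact cell_eq hc hk h1 (h2.mono (not_lt.1 fun k => e' ⟨rfl, k⟩))
      · exact cell_eq' hc hk (Or.inl e) h1
    obtain ⟨l, hl⟩ := spl_conj (c := cell x) (γ := γ) (k := k) (hT x) (by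
      rcases (not_lt.1 e).eq_or_lt with rfl | e
      · exact (hk x).1 ▸ not_lt.1 fun k => e' ⟨rfl, k⟩
      · rw [cell_triv hc e]; exact Nat.zero_le _) x
    refine ⟨l, fun y y' h1 h2 h3 h4 => ?_⟩
    simp only [glue, ce y h1 h3, ce y' h2 h4]
    exact hl y y' h1 h2 h3 h4 (ce y h1 h3 ▸ hc.mem y γ)

end glue

theorem Cells.good {cell : Om ι → Box ι} (hc : Cells I cell) (hD : Her I D)
    (h : ∀ x, D (K ∘ res (cell x))) : Good I D K := by
  obtain ⟨S, h1, h2, -, h4⟩ := hc.dep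
  refine ⟨S, h1, h2, fun x => ?_⟩
  obtain ⟨F, -, k⟩ := hc.fin x
  obtain ⟨G, k1, m, k2⟩ := ex_nb (ev_mem k (hc.mem x)) (h4 x).dep
  exact ⟨G, k1, m, hD.box (h4 x) h1 h2 cond_nb (on_nb.in_res.mono (k1.trans h2))
    (fun y => k2 _ mem_res) (h x)⟩

theorem res_comm (hI : IsLowerSet I) (h : On c Iᶜ) (hR : IsCond R) (h' : In I R) :
    res c ∘ R = R ∘ res c := by
  funext x γ
  by_cases e : γ ∈ I
  · exact (h.in_res _ γ (not_not.2 e)).trans
      (hR.low hI (fun δ hδ => (h.in_res _ δ (not_not.2 hδ)).symm) γ e)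
  · exact (congrArg (c γ).res (h' x γ e)).trans (h' (res c x) γ e).symm

theorem Her.mono {J : Set ι} (h : Her I D) (e : J ⊆ I) : Her J D :=
  fun K R a b => h K R a (b.mono e)

/-- dense properties of conditions -/
def Dns (I : Set ι) (D : (Om ι → Om ι) → Prop) : Prop :=
  ∀ K, IsCond K → In I K → ∃ R, IsCond R ∧ In I R ∧ D (K ∘ R)

/-- countably many dense open sets can be met locally -/
def BB (I : Set ι) : Prop :=
  ∀ D : ℕ → (Om ι → Om ι) → Prop, (∀ k, Her I (D k)) → (∀ k, Dns I (D k)) →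
    ∀ (F : Finset ι) (n : ℕ), ∃ K, IsCond K ∧ In I K ∧ (∀ γ ∈ F, Lev K γ n) ∧ ∀ k, Good I (D k) K

/-- the box given by `n` digits at one coordinate -/
def one (β : ι) (n : ℕ) (a : ℕ → ℕ) : Box ι := nb (fun _ => a) {β} n

theorem on_one {a : ℕ → ℕ} : On (one β n a) (Iio β)ᶜ := on_nb.mono (by simp)

theorem one_self {a : ℕ → ℕ} : one β n a β = ⟨n, 0, trunc n a⟩ := by simp [one, nb]

theorem one_trunc (a : ℕ → ℕ) : one β n (trunc n a) = one β n a :=
  nb_eq (mem_nb.2 fun _ _ => up_trunc _ _)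

theorem Her.one (hD : Her (Iio β) D) (K : Om ι → Om ι) (a : ℕ → ℕ) :
    Her (Iio β) fun K' => D (K ∘ K' ∘ res (one β n a)) := fun K' R h1 h2 h => by
  have := hD _ R h1 h2 h
  rw [comp_assoc, comp_assoc, res_comm (isLowerSet_Iio β) on_one h1 h2] at this
  exact this

theorem unif (hI : IsLowerSet I) (hβ : β ∈ I) (hB : BB (Iio β)) (n n' : ℕ) (F : Finset ι)
    (Fp : Set ι) (hp : ∀ γ ∈ Fp, β < γ ∨ γ = β ∧ n = 0) (hD : Her (Iio β) D)
    (hd : ∀ K, IsCond K → In I K → Pure Fp K →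
      ∃ R, IsCond R ∧ In I R ∧ Pure Fp R ∧ D (K ∘ R)) :
    ∃ K, IsCond K ∧ In I K ∧ Pure Fp K ∧ (∀ γ ∈ F, γ < β → Lev K γ n') ∧ Lev K β n ∧
      ∀ a, Good (Iio β) (fun K' => D (K ∘ K' ∘ res (one β n a))) id := by
  classical
  have lw := isLowerSet_Iio β
  have sI : Iio β ⊆ I := fun _ h => hI (le_of_lt h) hβ
  have np : ∀ γ ∈ Fp, γ ∉ Iio β := fun γ h e =>
    (hp γ h).elim (fun k => lt_asymm k e) fun k => lt_irrefl β (k.1 ▸ e)
  have cI : (Iio β)ᶜ = Ici β := compl_Iio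
  have i1 : ∀ a, In I (res (one β n a)) := fun a => on_nb.in_res.mono (by simpa using hβ)
  have p1 : ∀ a, Pure Fp (res (one β n a)) := fun a γ h => by
    rcases hp γ h with e | ⟨rfl, rfl⟩
    · exact on_nb.in_res.fix (by simpa using e.ne')
    · exact (pure_id γ h).of_eq fun x => by rw [res, one_self]; exact Pc.res_zero rfl rfl _
  obtain ⟨f, hf⟩ := (countable_trunc n).exists_eq_range (range_nonempty _)
  let E : ℕ → (Om ι → Om ι) → Prop := fun k K' => ∃ R, IsCond R ∧ In (Ici β) R ∧ In I R ∧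
    Pure Fp R ∧ D (K' ∘ res (one β n (f k)) ∘ R)
  have hE : ∀ k, Her (Iio β) (E k) := by
    rintro k K' R' h1 h2 ⟨R, g1, g2, g3, g4, g5⟩
    refine ⟨rst (Iio β)ᶜ (R ∘ R'), (g1.comp h1).rst _, cI ▸ in_rst, (g3.comp (h2.mono sI)).rst_of,
      (g4.comp (h2.pure np) h1).rst, ?_⟩
    have := hD _ R' h1 h2 g5
    rw [comp_assoc, comp_assoc, ← rst_tl (g1.comp h1) lw, rst_comp g1 lw, In.rst_id (I := Iio β) (cI ▸ g2), h2.rst,
      id_comp, ← comp_assoc (res _), res_comm lw on_one h1 h2] at this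
    exact this
  obtain ⟨K', k1, k2, k3, k4⟩ := hB E hE (fun k K' h1 h2 => by
    obtain ⟨R, g1, g2, g3, g4⟩ := hd (K' ∘ res (one β n (f k))) (h1.comp cond_nb)
      ((h2.mono sI).comp (i1 _)) ((h2.pure np).comp (p1 _) cond_nb)
    refine ⟨rst (Iio β) R, g1.rst _, in_rst, rst (Iio β)ᶜ R, g1.rst _, cI ▸ in_rst, g2.rst_of,
      g3.rst, ?_⟩
    rw [← rst_tl g1 lw, comp_assoc, ← comp_assoc (res _), res_comm lw on_one (g1.rst _) in_rst] at g4
    exact g4) F n'
  choose ce c1 c2 using fun k => (k4 k).cells (hE k)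
  have : ∀ a, ∃ k, a ∈ range (trunc n) → f k = a := fun a => by
    by_cases h : a ∈ range (trunc n)
    · exact (hf ▸ h).imp fun _ e _ => e
    · exact ⟨0, fun e => (h e).elim⟩
  choose κ hκ using this
  have tr : ∀ k x, ce k x β = triv := fun k x =>
    let ⟨_, a, b⟩ := (c1 k).fin x
    b β fun e => lt_irrefl β (a e)
  have lo : ∀ k x a, ce k (update x β a) = ce k x := fun k x a =>
    let ⟨_, _, b, c, _⟩ := (c1 k).dep
    c _ _ fun δ hδ => lo_update β x a δ (b hδ)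
  let cell : Om ι → Box ι := fun x =>
    update (ce (κ (trunc n (x β))) x) β ⟨n, 0, trunc n (x β)⟩
  have rc : ∀ x, res (cell x) = res (ce (κ (trunc n (x β))) x) ∘ res (one β n (x β)) := fun x => by
    funext y γ
    by_cases e : γ = β
    · subst e
      simp only [cell, res, comp_apply, update_self, tr, Pc.triv_res, one_self]
    · simp only [cell, res, comp_apply, update_of_ne e]
      rw [one, on_nb (F := {β}) γ (by simpa using e), Pc.triv_res]
  have hc : Cells (Iic β) cell := by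
    refine ⟨fun x γ => ?_, fun x y h => ?_, ?_, fun x => ?_⟩
    · by_cases e : γ = β
      · subst e
        simp only [cell, update_self]
        exact ⟨(up_trunc _ _).symm, Nat.zero_le _⟩
      · simp only [cell, update_of_ne e]
        exact (c1 _).mem x γ
    · have e : trunc n (y β) = trunc n (x β) := by
        have := h β
        simp only [cell, update_self] at this
        exact trunc_eq (this.1.trans (up_trunc _ _))
      simp only [cell, e]
      rw [(c1 _).eq x y fun γ => ?_]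
      by_cases e' : γ = β
      · rw [e', tr]; exact Pc.triv_mem
      · simpa only [cell, update_of_ne e'] using h γ
    · refine (((countable_iUnion fun k => (c1 k).cnt).prod (countable_trunc n)).image
        fun p => update p.1 β ⟨n, 0, p.2⟩).mono ?_
      rintro _ ⟨x, rfl⟩
      exact ⟨(_, _), ⟨mem_iUnion.2 ⟨_, x, rfl⟩, _, rfl⟩, rfl⟩
    · obtain ⟨G, a, b⟩ := (c1 (κ (trunc n (x β)))).fin x
      refine ⟨insert β G, by simpa using insert_subset self_mem_Iic (a.trans Iio_subset_Iic_self),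
        fun γ h => ?_⟩
      simp only [Finset.coe_insert, mem_insert_iff, not_or] at h
      simp only [cell, update_of_ne h.1]
      exact b γ h.2
  have hk : ∀ x, (cell x β).k = n ∧ (cell x β).r = 0 := fun x => by simp [cell]
  have : ∀ c, ∃ R, c ∈ range cell → IsCond R ∧ In (Ici β) R ∧ In I R ∧ Pure Fp R ∧
      D (K' ∘ res c ∘ R) := fun c => by
    by_cases h : c ∈ range cell
    · obtain ⟨x, rfl⟩ := h
      obtain ⟨R, g⟩ := c2 (κ (trunc n (x β))) x
      rw [hκ _ ⟨_, rfl⟩, one_trunc] at g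
      exact ⟨R, fun _ => by rw [rc]; exact g⟩
    · exact ⟨id, fun e => (h e).elim⟩
  choose T hT using this
  replace hT := fun x => hT (cell x) ⟨x, rfl⟩
  have t1 := glue_cond hc hk (fun x => (hT x).1) fun x => (hT x).2.1
  have t2 := glue_in hc fun x => (hT x).2.1
  refine ⟨K' ∘ glue cell T, k1.comp t1, (k2.mono sI).comp fun x γ h => ?_,
    (k2.pure np).comp (fun γ h => glue_fix hc hk (hp γ h) fun x => (hT x).2.2.2.1 γ h) t1,
    fun γ h e => (k3 γ h).comp (t2.lev (not_le.2 e)),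
    (k2.lev (lt_irrefl β)).comp (glue_lev hc hk), fun a => ?_⟩
  · rw [glue, res, (hT x).2.2.1 _ γ h, drop, Pc.res_drop (hc.mem x γ)]
  · refine (c1 (κ (trunc n a))).good (hD.one _ a) fun x => ?_
    have := (hT (update x β a)).2.2.2.2
    rw [← glue_res hc, rc, update_self, lo] at this
    exact this

theorem one_dense (hI : IsLowerSet I) (hB : ∀ β ∈ I, BB (Iio β)) (hD : Her I D) (hd : Dns I D)
    (F : Finset ι) (n : ℕ) : ∃ K, IsCond K ∧ In I K ∧ (∀ γ ∈ F, Lev K γ n) ∧ Good I D K := by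
  classical
  rcases (F.filter (· ∈ I)).eq_empty_or_nonempty with h | h
  · obtain ⟨R, h1, h2, h3⟩ := hd id isCond_id in_id
    exact ⟨R, h1, h2, fun γ hγ => h2.lev (Finset.filter_eq_empty_iff.1 h hγ), Good.of h3 hD⟩
  obtain ⟨β, hβ, hm⟩ := Finset.exists_max_image _ id h
  have hβ := (Finset.mem_filter.1 hβ).2
  have sI : Iio β ⊆ I := fun _ h => hI (le_of_lt h) hβ
  obtain ⟨K, k1, k2, -, k4, k5, k6⟩ := unif hI hβ (hB β hβ) n n F ∅ (fun _ h => h.elim)
    (hD.mono sI) fun K a b _ =>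
      let ⟨R, a, b, c⟩ := hd K a b
      ⟨R, a, b, fun _ h => h.elim, c⟩
  refine ⟨K, k1, k2, fun γ hγ => ?_, ?_⟩
  · by_cases e : γ ∈ I
    · rcases (hm γ (Finset.mem_filter.2 ⟨hγ, e⟩)).eq_or_lt with e' | e'
      · exact (show γ = β from e') ▸ k5
      · exact k4 γ hγ e'
    · exact k2.lev e
  choose S s1 s2 s3 using k6
  refine ⟨insert β (⋃ a ∈ range (trunc n), S a), ((countable_trunc n).biUnion fun a _ => s1 a).insert β,
    insert_subset hβ (iUnion₂_subset fun a _ => (s2 a).trans sI), fun x => ?_⟩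
  obtain ⟨G, g1, m, g2⟩ := s3 (trunc n (x β)) x
  have sub : (↑(insert β G) : Set ι) ⊆ insert β (⋃ a ∈ range (trunc n), S a) := by
    rw [Finset.coe_insert]
    exact insert_subset_insert (g1.trans (subset_biUnion_of_mem (u := S) ⟨_, rfl⟩))
  have gI : (G : Set ι) ⊆ I := g1.trans ((s2 _).trans sI)
  have m1 : ∀ y, Mem (nb x G m) (res (nb x (insert β G) (max m n)) y) := fun y =>
    nb_mono mem_res (Finset.subset_insert _ _) (le_max_left _ _)
  refine ⟨insert β G, sub, max m n, ?_⟩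
  rw [← factor m1]
  refine hD.box (K := K ∘ res (nb x G m)) (c := one β n (trunc n (x β))) on_nb
    (Finset.countable_toSet _) (by simpa using hβ) (cond_nb.drop on_nb G.countable_toSet m1)
    ((on_nb.in_drop.mono gI).comp (on_nb.in_res.mono (by simpa using insert_subset hβ gI)))
    (fun y => mem_nb.2 fun γ hγ => ?_) g2
  obtain rfl := Finset.mem_singleton.1 hγ
  rw [comp_apply, on_nb.in_drop _ γ fun e => lt_irrefl γ (s2 _ (g1 e))]
  exact ((mem_nb.1 mem_res γ (Finset.mem_insert_self _ _)).mono (le_max_right _ _)).trans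
    (up_trunc _ _).symm

variable [WellFoundedLT ι]

theorem lim_in {K : ℕ → Om ι → Om ι} {M : Om ι → Om ι} (hK : ∀ n, IsCond (K n))
    (h : ∀ x γ j, ∀ᶠ m in atTop, seg K n m x γ j = M x γ j) (e : ∀ i, In I (K i)) : In I M :=
  fun x γ hγ => funext fun j => by
    obtain ⟨m, a⟩ := (h x γ j).exists
    rw [← a, seg_ind (Q := In I) hK in_id (fun _ _ _ => In.comp) (fun i _ => e i) m x γ hγ]

theorem lim_lev {K : ℕ → Om ι → Om ι} {M : Om ι → Om ι} {k : ℕ} (hK : ∀ n, IsCond (K n))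
    (h : ∀ x γ j, ∀ᶠ m in atTop, seg K n m x γ j = M x γ j) (e : ∀ i, Lev (K i) γ k) : Lev M γ k :=
  fun x j hj => by
    obtain ⟨m, a⟩ := (h x γ j).exists
    rw [← a, seg_ind (Q := fun L => Lev L γ k) hK (fun _ => Up.rfl) (fun _ _ _ => Lev.comp)
      (fun i _ => e i) m x j hj]

theorem bb_of (hI : IsLowerSet I) (hB : ∀ β ∈ I, BB (Iio β)) : BB I := by
  intro D hD hd F0 n0
  obtain ⟨s, F, S, h0, h1, h2, h3, h4⟩ := book (St := (Om ι → Om ι) × (Om ι → Om ι))
    (fun _ s => IsCond s.1 ∧ In I s.1)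
    (fun n s F s' S => s'.1 = s.1 ∘ s'.2 ∧ IsCond s'.2 ∧ In I s'.2 ∧ In S s'.2 ∧
      (∀ γ ∈ F, Lev s'.2 γ (n0 + n)) ∧ Good I (D n) s'.1) (id, id) ⟨isCond_id, in_id⟩ F0
    fun n s F h => by
      obtain ⟨K, k1, k2, k3, k4⟩ := one_dense (D := fun K => D n (s.1 ∘ K)) hI hB
        (fun K R a b c => hD n _ R a b c) (fun K a b => hd n _ (h.1.comp a) (h.2.comp b)) F (n0 + n)
      obtain ⟨S, g1, g2, -⟩ := k1.supp
      exact ⟨(s.1 ∘ K, K), S, g1, ⟨h.1.comp k1, h.2.comp k2⟩, rfl, k1, k2, g2, k3,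
        k4.imp fun _ _ _ e => e⟩
  let K : ℕ → Om ι → Om ι := fun n => (s (n + 1)).2
  have hK : ∀ n, IsCond (K n) := fun n => (h2 n).2.1
  have e : ∀ n, (s n).1 = seg K 0 n := fun n => by
    induction n with
    | zero => rw [h0]; rfl
    | succ n ih => rw [(h2 n).1, ih, seg, Nat.zero_add]
  obtain ⟨M, m1, m2, m3⟩ := fusion hK fun γ z k => by
    by_cases h : ∃ n, γ ∈ S n
    · obtain ⟨n, h⟩ := h
      obtain ⟨d, hd⟩ := h4 n γ h
      exact ⟨max d (k + 1), fun m hm => ((h2 m).2.2.2.2.1 γ (hd m (le_of_max_le_left hm))).fix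
        (by have := le_of_max_le_right hm; omega)⟩
    · exact ⟨0, fun m _ => (h2 m).2.2.2.1.fix fun k => h ⟨m, k⟩⟩
  have mi : ∀ n, In I (M n) := fun n => lim_in hK (m3 n) fun i => (h2 i).2.2.1
  refine ⟨M 0, m1 0, mi 0, fun γ hγ => lim_lev hK (m3 0) fun i =>
    ((h2 i).2.2.2.2.1 γ (h3 i hγ)).mono (Nat.le_add_right _ _), fun k => ?_⟩
  rw [m2 0 (k + 1), ← e]
  exact (h2 k).2.2.2.2.2.comp (hD k) hI (m1 _) (mi _)

theorem bb_Iio (β : ι) : BB (Iio β) := by
  induction β using WellFoundedLT.induction with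
  | ind β ih => exact bb_of (isLowerSet_Iio β) ih

theorem bb_univ : BB (univ : Set ι) := bb_of isLowerSet_univ fun β _ => bb_Iio β

end Pool.Agent.P.MP_39acbb_lc.Mi
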