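import Pool.Agent.P.MP_39acbb_lc.Mi.A4

set_option autoImplicit false
set_option linter.unusedSectionVars false

/-! Pure decision. -/

open Filter Topology Set Function

namespace Pool.Agent.P.MP_39acbb_lc.Mi

universe u

open Pc (triv)

variable {ι : Type u} [LinearOrder ι] {K L R : Om ι → Om ι} {β γ : ι} {x y : Om ι} {n : ℕ}
  {I S : Set ι} {c : Box ι} {D : (Om ι → Om ι) → Prop}

/-- thinning of the successors of the root at `β` -/
def thin (β : ι) (g : Om ι → ℕ → ℕ) (x : Om ι) : Om ι :=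
  update x β (update (x β) 0 (g x (x β 0)))

section thin
variable {g : Om ι → ℕ → ℕ}

theorem in_thin : In {β} (thin β g) := fun _ _ h => update_of_ne h _ _

theorem thin_zero : thin β g x β 0 = g x (x β 0) := by simp [thin]

theorem fix_thin (hg : ∀ x, StrictMono (g x)) (hs : S ⊆ Iio β) (hd : Dep S g) :
    Fix (thin β g) β 0 0 := fun x _ => ⟨up_zero _ _, fun y h1 _ h3 => by
  rw [thin_zero, thin_zero, hd y x fun δ hδ => h1 δ (hs hδ)]
  exact hg x h3⟩

theorem thin_cond (hg : ∀ x, StrictMono (g x)) (hl : ∀ t, LC fun x => g x t) (hS : S.Countable)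
    (hs : S ⊆ Iio β) (hd : Dep S g) : IsCond (thin β g) := by
  have key : ∀ x y : Om ι, (∀ δ ∈ S, x δ = y δ) → x β = y β → thin β g x β = thin β g y β :=
    fun x y h e => by simp only [thin, update_self, hd x y h, e]
  refine ⟨continuous_id.update β ((continuous_apply β).update 0 ?_), fun γ x y h => ?_,
    ⟨insert β S, hS.insert β, in_thin.mono (by simp), fun γ hγ x y h => ?_⟩, fun γ x k => ?_⟩
  · exact continuous_iff_continuousAt.2 fun x => tendsto_const_nhds.congr'
      (((lc_coord β 0).bind (g := fun t x => g x t) hl x).mono fun _ e => e.symm)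
  · by_cases e : γ = β
    · subst e
      exact key x y (fun δ hδ => h δ (le_of_lt (hs hδ))) (h γ le_rfl)
    · rw [in_thin x γ e, in_thin y γ e, h γ le_rfl]
  · by_cases e : γ = β
    · subst e
      exact key x y (fun δ hδ => h δ (Or.inr hδ)) (h γ hγ)
    · exact (in_thin x γ e).trans ((h γ hγ).trans (in_thin y γ e).symm)
  · by_cases e : γ = β
    · subst e
      rcases k with _ | k
      · exact ⟨0, (fix_thin hg hs hd).spl (up_zero _ _)⟩
      · refine ⟨k + 1, fun y y' h1 h2 h3 h4 => ⟨fun i hi => ?_, by simp [thin]⟩⟩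
        have u := h3.trans h4.symm
        rcases i with _ | i
        · rw [thin_zero, thin_zero, u 0 hi, hd y y' fun δ hδ => (h1.trans h2.symm) δ (hs hδ)]
        · simpa [thin] using u _ hi
    · exact ⟨k, (in_thin.fix e).spl Up.rfl⟩

end thin

theorem her_box2 (hD : Her I D) (hI : IsLowerSet I) (hβ : β ∈ I) (h : On c S) (hS : S.Countable)
    (e : S ⊆ Iio β) (hR : IsCond R) (hI' : In I R) (hm : ∀ x, Mem c (R x)) {a : ℕ → ℕ}
    (hm' : ∀ x, Up n (R x β) a) (hK : D (K ∘ res c ∘ res (one β n a))) : D (K ∘ R) := by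
  have sI : S ⊆ I := fun _ h => hI (le_of_lt (e h)) hβ
  rw [← factor hm]
  refine hD.box (K := K ∘ res c) (c := one β n a) on_nb (Finset.countable_toSet _)
    (by simpa using hβ) (hR.drop h hS hm) ((h.in_drop.mono sI).comp hI')
    (fun y => mem_nb.2 fun γ hγ => ?_) hK
  obtain rfl := Finset.mem_singleton.1 hγ
  rw [comp_apply, h.in_drop _ γ fun k => lt_irrefl γ (e k)]
  exact hm' y

theorem LC.const_on {α : Type*} {f : Om ι → α} (h : LC f) (hd : Dep I f) (x : Om ι) :
    ∃ R, IsCond R ∧ In I R ∧ ∀ y, f (R y) = f x := by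
  obtain ⟨G, k1, m, k2⟩ := ex_nb (h x) (S := I) fun a b e => by rw [hd a b e]
  exact ⟨_, cond_nb, on_nb.in_res.mono k1, fun y => k2 _ mem_res⟩

theorem Dep.cond {α : Type*} {f : Om ι → α} (h : Dep I f) (hI : IsLowerSet I) (hK : IsCond K) :
    Dep I fun x => f (K x) := fun _ _ e => h _ _ (hK.low hI e)

theorem lc_find {p : ℕ → Om ι → Prop} [∀ x, DecidablePred fun j => p j x] (h : ∀ j, LC (p j))
    (e : ∀ x, ∃ j, p j x) : LC fun x => Nat.find (e x) := fun x => by
  filter_upwards [(eventually_all_finite (Set.finite_Iic (Nat.find (e x)))).2 fun j _ => h j x]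
    with y hy
  exact (Nat.find_eq_iff _).2 ⟨(hy _ self_mem_Iic).mpr (Nat.find_spec (e x)),
    fun m hm k => Nat.find_min (e x) hm ((hy m hm.le).mp k)⟩

variable [WellFoundedLT ι]

theorem pd (F : Finset ι) : ∀ I : Set ι, IsLowerSet I → ∀ D : Bool → (Om ι → Om ι) → Prop,
    (∀ i, Her I (D i)) → Dns I (fun K => ∃ i, D i K) →
    ∃ K, IsCond K ∧ In I K ∧ Pure F K ∧ ∃ i, Good I (D i) K := by
  classical
  induction F using Finset.induction_on_max with
  | empty =>
    intro I _ D hD hd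
    obtain ⟨R, h1, h2, i, h3⟩ := hd id isCond_id in_id
    exact ⟨R, h1, h2, fun _ h => absurd h (by simp), i, Good.of h3 (hD i)⟩
  | insert β F hF ih =>
    intro I hI D hD hd
    by_cases hβ : β ∉ I
    · obtain ⟨K, h1, h2, h3, h4⟩ := ih I hI D hD hd
      refine ⟨K, h1, h2, fun γ hγ => ?_, h4⟩
      rcases Finset.mem_insert.1 hγ with rfl | hγ
      exacts [h2.fix hβ, h3 γ hγ]
    have hβ := not_not.1 hβ
    have lw := isLowerSet_Iio β
    have sI : Iio β ⊆ I := fun _ h => hI (le_of_lt h) hβ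
    have hD' : Her (Iio β) fun K => ∃ i, D i K := fun K R a b ⟨i, e⟩ =>
      ⟨i, hD i K R a (b.mono sI) e⟩
    obtain ⟨K1, a1, a2, -, a4, a5, a6⟩ := unif hI hβ (bb_Iio β) 1 1 F ∅ (fun _ h => h.elim) hD'
      fun K a b _ =>
        let ⟨R, a, b, c⟩ := hd K a b
        ⟨R, a, b, fun _ h => h.elim, c⟩
    choose ce c1 c2 using fun j : ℕ => (a6 fun _ => j).cells (hD'.one K1 _)
    choose S s1 s2 s3 s4 using fun j => (c1 j).dep
    let cl : ℕ → Om ι → Bool := fun j x =>
      decide (D true (K1 ∘ res (ce j x) ∘ res (one β 1 fun _ => j)))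
    have cl1 : ∀ j x, D (cl j x) (K1 ∘ res (ce j x) ∘ res (one β 1 fun _ => j)) := fun j x => by
      obtain ⟨i, h⟩ := c2 j x
      by_cases e : D true (K1 ∘ res (ce j x) ∘ res (one β 1 fun _ => j))
      · rwa [show cl j x = true from decide_eq_true e]
      · rw [show cl j x = false from decide_eq_false e]
        cases i
        exacts [h, (e h).elim]
    have cl2 : ∀ j, LC (cl j) := fun j => (c1 j).lc.map fun c =>
      decide (D true (K1 ∘ res c ∘ res (one β 1 fun _ => j)))
    have cl3 : ∀ j, Dep (S j) (cl j) := fun j x y e => by simp only [cl, s3 j x y e]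
    let E : Bool → (Om ι → Om ι) → Prop := fun i K' => ∀ m R', IsCond R' → In (Iio β) R' →
      ∃ R'', IsCond R'' ∧ In (Iio β) R'' ∧ ∃ j, m ≤ j ∧ ∀ x, cl j (K' (R' (R'' x))) = i
    have hE : ∀ i, Her (Iio β) (E i) := fun i K R a b h m R' c d =>
      h m (R ∘ R') (a.comp c) (b.comp d)
    obtain ⟨K2, b1, b2, b3, i, b4⟩ := ih (Iio β) lw E hE fun K' h1 h2 => by
      by_contra hc
      push Not at hc
      have h3 := hc id isCond_id in_id true
      simp only [E, not_forall, not_exists, not_and] at h3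
      obtain ⟨m1, R1, g1, g2, g3⟩ := h3
      have h4 := hc R1 g1 g2 false
      simp only [E, not_forall, not_exists, not_and] at h4
      obtain ⟨m2, R2, g4, g5, g6⟩ := h4
      have k := (h1.comp g1).comp g4
      obtain ⟨R, r1, r2, r3⟩ := ((cl2 (max m1 m2)).comp k.cont).const_on
        (((cl3 _).mono (s2 _)).cond lw k) 0
      obtain ⟨x, hx⟩ := g3 (R2 ∘ R) (g4.comp r1) (g5.comp r2) _ (le_max_left m1 m2)
      obtain ⟨y, hy⟩ := g6 R r1 r2 _ (le_max_right m1 m2)
      have := (r3 x).trans (r3 y).symm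
      simp only [comp_apply, id_eq] at hx hy this
      rw [this] at hx
      simp_all
    have b5 : E i K2 := fun m R' g1 g2 => by
      obtain ⟨_, -, k, h⟩ := b4.comp (hE i) lw g1 g2
      obtain ⟨G, k', n, h⟩ := h 0
      obtain ⟨R, r1, r2, r3⟩ := h m id isCond_id in_id
      exact ⟨res (nb 0 G n) ∘ R, cond_nb.comp r1, (on_nb.in_res.mono (k'.trans k)).comp r2, r3⟩
    obtain ⟨K3, d1, d2, d3, d4⟩ := bb_Iio β (fun m R' => ∃ j, m ≤ j ∧ ∀ x, cl j (K2 (R' x)) = i)
      (fun m K R _ _ ⟨j, h, h'⟩ => ⟨j, h, fun x => h' _⟩) (fun m K a b => b5 m K a b) F 1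
    have ex : ∀ m x, ∃ j, m ≤ j ∧ cl j (K2 (K3 x)) = i := fun m =>
      Good.all (p := fun y => ∃ j, m ≤ j ∧ cl j (K2 y) = i)
        ((d4 m).imp fun R _ _ ⟨j, h, h'⟩ x => ⟨j, h, h' x⟩)
    have k := b1.comp d1
    have ki := b2.comp d2
    obtain ⟨T, t1, -, t2, t3⟩ := Dep.comp (f := fun x j => cl j x) (S := ⋃ j, S j)
      (fun x y e => funext fun j => cl3 j x y fun δ hδ => e δ (mem_iUnion.2 ⟨j, hδ⟩))
      (countable_iUnion s1) lw (iUnion_subset s2) k
    let g : Om ι → ℕ → ℕ := fun x t =>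
      Nat.rec (Nat.find (ex 0 x)) (fun _ p => Nat.find (ex (p + 1) x)) t
    have g1 : ∀ x, StrictMono (g x) := fun x =>
      strictMono_nat_of_lt_succ fun t => (Nat.find_spec (ex (g x t + 1) x)).1
    have g2 : ∀ x t, cl (g x t) (K2 (K3 x)) = i := fun x t => by
      cases t
      exacts [(Nat.find_spec (ex 0 x)).2, (Nat.find_spec (ex _ x)).2]
    have lf : ∀ m, LC fun x => Nat.find (ex m x) := fun m =>
      lc_find (p := fun j x => m ≤ j ∧ cl j (K2 (K3 x)) = i)
        (fun j => ((cl2 j).comp k.cont).map fun b => m ≤ j ∧ b = i) _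
    have g3 : ∀ t, LC fun x => g x t := fun t => by
      induction t with
      | zero => exact lf 0
      | succ t ih => exact ih.bind (g := fun p x => Nat.find (ex (p + 1) x)) fun p => lf _
    have g4 : Dep T g := fun x y e => by
      have : ∀ m, Nat.find (ex m x) = Nat.find (ex m y) := fun m =>
        Nat.find_congr' fun {j} => by rw [show cl j (K2 (K3 x)) = _ from congrFun (t3 x y e) j]; rfl
      simp only [g, this]
    have w := k.comp (thin_cond g1 g3 t1 t2 g4)
    have wi : In I ((K2 ∘ K3) ∘ thin β g) := (ki.mono sI).comp (in_thin.mono (by simpa using hβ))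
    refine ⟨K1 ∘ (K2 ∘ K3) ∘ thin β g, a1.comp w, a2.comp wi, fun γ hγ => ?_, i, ?_⟩
    · rcases Finset.mem_insert.1 hγ with rfl | hγ
      · exact (a5.fix Nat.one_pos).comp ((ki.fix (lt_irrefl γ)).comp (fix_thin g1 t2 g4)
          (thin_cond g1 g3 t1 t2 g4)) w
      · exact ((a4 γ hγ (hF γ hγ)).fix Nat.one_pos).comp (((b3 γ hγ).comp
          ((d3 γ hγ).fix Nat.one_pos) d1).comp (in_thin.fix (hF γ hγ).ne)
          (thin_cond g1 g3 t1 t2 g4)) w
    obtain ⟨U, u1, -, u2, u3⟩ := Dep.comp (f := fun x => (fun j => ce j x, x β))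
      (S := insert β (⋃ j, S j)) (fun x y e => Prod.ext (funext fun j => s3 j x y fun δ hδ =>
        e δ (Or.inr (mem_iUnion.2 ⟨j, hδ⟩))) (e β (Or.inl rfl)))
      ((countable_iUnion s1).insert β) hI
      (insert_subset hβ (iUnion_subset fun j => (s2 j).trans sI)) w
    refine ⟨U, u1, u2, fun x => ?_⟩
    set W := (K2 ∘ K3) ∘ thin β g with hW
    obtain ⟨G, k1, m, k2⟩ := ex_nb (S := U) (p := fun y => ce (W x β 0) (W y) = ce (W x β 0) (W x) ∧
      W y β 0 = W x β 0) (((c1 _).lc.comp w.cont x).and (cont_iff.1 w.cont β 0 x)) fun a b e => by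
        have := Prod.ext_iff.1 (u3 a b e)
        simp only at this ⊢
        rw [congrFun this.1, this.2]
    refine ⟨G, k1, m, her_box2 (K := K1) (n := 1) (a := fun _ => W x β 0) (hD i) hI hβ
      (s4 (W x β 0) (W x)) (s1 _) (s2 _) (w.comp cond_nb)
      (wi.comp (on_nb.in_res.mono (k1.trans u2))) (fun y => ?_) (fun y j hj => ?_) ?_⟩
    · rw [← (k2 _ mem_res).1]
      exact (c1 _).mem _
    · obtain rfl : j = 0 := by omega
      exact (k2 _ mem_res).2
    · have e : cl (W x β 0) (W x) = i := by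
        rw [show W x β 0 = g x (x β 0) from (congrFun (ki _ β (lt_irrefl β)) 0).trans thin_zero,
          ← g2 x (x β 0)]
        exact cl3 _ _ _ fun δ hδ => k.low lw (fun ε hε => in_thin x ε (ne_of_lt hε)) δ (s2 _ hδ)
      exact e ▸ cl1 _ _

end Pool.Agent.P.MP_39acbb_lc.Mi
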