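import Pool.Agent.P.MP_39acbb_lc.Mi.A5

set_option autoImplicit false
set_option linter.unusedSectionVars false

/-! Finite partitions into pieces and amalgamation. -/

open Filter Topology Set Function

namespace Pool.Agent.P.MP_39acbb_lc.Mi

universe u

open Pc (triv)

/-- the piece of `a` in the partition of width `w` -/
def pz (a : ℕ → ℕ) : ℕ → Pc
  | 0 => triv
  | w + 1 => if (pz a w).r < a (pz a w).k then ⟨(pz a w).k, (pz a w).r + 1, (pz a w).z⟩
      else ⟨(pz a w).k + 1, 0, update (pz a w).z (pz a w).k (pz a w).r⟩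

section pz
variable {a b : ℕ → ℕ} {w : ℕ}

theorem pz_old (h : (pz a w).r < a (pz a w).k) :
    pz a (w + 1) = ⟨(pz a w).k, (pz a w).r + 1, (pz a w).z⟩ := if_pos h

theorem pz_new (h : ¬(pz a w).r < a (pz a w).k) :
    pz a (w + 1) = ⟨(pz a w).k + 1, 0, update (pz a w).z (pz a w).k (pz a w).r⟩ := if_neg h

theorem pz_mem (a : ℕ → ℕ) (w : ℕ) : (pz a w).mem a := by
  induction w with
  | zero => exact Pc.triv_mem
  | succ w ih =>
    by_cases h : (pz a w).r < a (pz a w).k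
    · rw [pz_old h]; exact ⟨ih.1, h⟩
    · rw [pz_new h]
      refine ⟨fun i hi => ?_, Nat.zero_le _⟩
      rcases (Nat.le_of_lt_succ hi).eq_or_lt with rfl | e
      · have := ih.2
        simp only [update_self]; omega
      · simp only [update_of_ne e.ne]; exact ih.1 i e

theorem pz_sub (h : (pz a (w + 1)).mem b) : (pz a w).mem b := by
  by_cases e : (pz a w).r < a (pz a w).k
  · rw [pz_old e] at h
    exact ⟨h.1, Nat.le_of_succ_le h.2⟩
  · rw [pz_new e] at h
    exact ⟨(h.1.mono (Nat.le_succ _)).trans (up_update _ _ le_rfl),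
      ((h.1 _ (Nat.lt_succ_self _)).trans (update_self _ _ _)).ge⟩

theorem pz_eq (h : (pz a w).mem b) : pz b w = pz a w := by
  induction w with
  | zero => rfl
  | succ w ih =>
    have ih := ih (pz_sub h)
    by_cases e : (pz a w).r < a (pz a w).k
    · rw [pz_old e] at h ⊢
      rw [pz_old (by rw [ih]; exact h.2), ih]
    · rw [pz_new e] at h ⊢
      rw [pz_new (by rw [ih]; exact ((h.1 _ (Nat.lt_succ_self _)).trans (update_self _ _ _)).not_gt),
        ih]

theorem pz_fin (w : ℕ) : (range fun a => pz a w).Finite := by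
  induction w with
  | zero => exact (finite_singleton triv).subset (by rintro _ ⟨_, rfl⟩; rfl)
  | succ w ih =>
    refine ((ih.image fun c => (⟨c.k, c.r + 1, c.z⟩ : Pc)).union
      (ih.image fun c => (⟨c.k + 1, 0, update c.z c.k c.r⟩ : Pc))).subset ?_
    rintro _ ⟨a, rfl⟩
    by_cases e : (pz a w).r < a (pz a w).k
    · exact Or.inl ⟨_, ⟨a, rfl⟩, (pz_old e).symm⟩
    · exact Or.inr ⟨_, ⟨a, rfl⟩, (pz_new e).symm⟩

theorem pz_mono (a : ℕ → ℕ) : Monotone fun w => (pz a w).k := monotone_nat_of_le_succ fun w => by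
  by_cases e : (pz a w).r < a (pz a w).k
  · rw [pz_old e]
  · rw [pz_new e]; exact Nat.le_succ _

theorem pz_top (a : ℕ → ℕ) (k : ℕ) : ∃ w, k ≤ (pz a w).k := by
  induction k with
  | zero => exact ⟨0, Nat.zero_le _⟩
  | succ k ih =>
    obtain ⟨w, h⟩ := ih
    have : ∀ d, k < (pz a (w + d)).k ∨ (pz a (w + d)).k = k ∧ d ≤ (pz a (w + d)).r := fun d => by
      induction d with
      | zero => exact h.eq_or_lt.symm.imp id fun e => ⟨e.symm, Nat.zero_le _⟩
      | succ d ih =>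
        rcases ih with e | e
        · exact Or.inl (e.trans_le (pz_mono a (Nat.le_succ _)))
        · rw [← Nat.add_assoc]
          by_cases e' : (pz a (w + d)).r < a (pz a (w + d)).k
          · rw [pz_old e']; exact Or.inr ⟨e.1, Nat.succ_le_succ e.2⟩
          · rw [pz_new e']; exact Or.inl (e.1 ▸ Nat.lt_succ_self _)
    refine ⟨w + (a k + 1), (this _).resolve_right fun e => ?_⟩
    have := (pz_mem a (w + (a k + 1))).2
    rw [e.1] at this
    omega

theorem pz_par {p : ℕ} (h0 : a 0 % 2 = p) (h : ∀ t, a (t + 1) % 2 = 1) (w : ℕ) :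
    (w % 2 ≠ p → (pz a w).r < a (pz a w).k) ∧
      ((pz a w).k = 0 ∧ (pz a w).r = w ∨ (pz a w).k ≠ 0 ∧ ((pz a w).r + p + 1 + w) % 2 = 0) := by
  have key : ∀ w, ((pz a w).k = 0 ∧ (pz a w).r = w ∨
      (pz a w).k ≠ 0 ∧ ((pz a w).r + p + 1 + w) % 2 = 0) → w % 2 ≠ p →
      (pz a w).r < a (pz a w).k := fun w e e' => by
    have := (pz_mem a w).2
    rcases e with ⟨e1, e2⟩ | ⟨e1, e2⟩
    · rw [e1] at this ⊢; omega
    · have := h ((pz a w).k - 1)
      rw [Nat.sub_add_cancel (Nat.pos_of_ne_zero e1)] at this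
      omega
  suffices s : _ from ⟨key w s, s⟩
  induction w with
  | zero => exact Or.inl ⟨rfl, rfl⟩
  | succ w ih =>
    by_cases e : (pz a w).r < a (pz a w).k
    · rw [pz_old e]; simp only; omega
    · have := mt (key w ih) e
      rw [pz_new e]; simp only; omega

end pz

variable {ι : Type u} [LinearOrder ι] {K L R : Om ι → Om ι} {α γ : ι} {x y : Om ι} {k n w : ℕ}
  {I S : Set ι} {c : Box ι} {F G : Finset ι} {D : (Om ι → Om ι) → Prop}

/-- `K` respects the partition of width `w` at `γ` -/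
def FixW (K : Om ι → Om ι) (γ : ι) (w : ℕ) : Prop := ∀ a k, k ≤ (pz a w).k → Fix K γ a k

/-- the piece of `x` -/
def box (F : Finset ι) (w : ℕ) (x : Om ι) (γ : ι) : Pc := if γ ∈ F then pz (x γ) w else triv

theorem on_box : On (box F w x) F := fun _ h => if_neg h

theorem box_in (h : γ ∈ F) : box F w x γ = pz (x γ) w := if_pos h

theorem self_box : Mem (box F w x) x := fun γ => by
  by_cases h : γ ∈ F
  · rw [box_in h]; exact pz_mem _ _
  · rw [on_box γ h]; exact Pc.triv_mem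

theorem cond_box : IsCond (res (box F w x)) := on_box.cond F.countable_toSet

theorem box_fin (F : Finset ι) (w : ℕ) : (range (box F w)).Finite := by
  have := (pz_fin w).to_subtype
  refine (finite_range fun (f : F → range fun a => pz a w) γ =>
    if h : γ ∈ F then (f ⟨γ, h⟩).1 else triv).subset ?_
  rintro _ ⟨x, rfl⟩
  exact ⟨fun γ => ⟨_, x γ, rfl⟩, funext fun γ => by simp [box]⟩

theorem FixW.mono {v : ℕ} (h : FixW K γ w) (e : v ≤ w) : FixW K γ v :=
  fun a k hk => h a k (hk.trans (pz_mono a e))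

theorem Fix.mem {d : Pc} (h : Fix K γ d.z d.k) (e : d.mem (x γ)) : d.mem (K x γ) :=
  ⟨(h x e.1).1, e.2.trans (h.ge e.1)⟩

theorem FixW.fix (h : FixW K γ w) (a : ℕ → ℕ) : Fix K γ (pz a w).z (pz a w).k :=
  (h a _ le_rfl).congr (pz_mem a w).1

theorem box_map (h : ∀ γ ∈ F, FixW K γ w) (e : Mem (box F w x) y) : Mem (box F w x) (K y) :=
  fun γ => by
  by_cases k : γ ∈ F
  · have := e γ
    rw [box_in k] at this ⊢
    exact ((h γ k).fix _).mem this
  · rw [on_box γ k]; exact Pc.triv_mem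

theorem pure_conj {c' : Box ι} (hm : ∀ y, Mem c (R (res c' y)))
    (h : ∀ γ ∈ I, Fix R γ (c' γ).z (c' γ).k ∧ (c γ).k = (c' γ).k) :
    Pure I (drop c ∘ R ∘ res c') := fun γ hγ x _ => ⟨up_zero _ _, fun y h1 _ h3 => by
  refine Pc.drop_lt (hm x γ) ?_
  rw [(h γ hγ).2, Nat.zero_add]
  exact ((h γ hγ).1 _ (mem_res γ).1).2 _ (fun δ hδ => congrArg _ (h1 δ hδ)) (mem_res γ).1
    (by simpa [res] using Pc.res_lt (c := c' γ) h3)⟩

section am
open Classical

/-- `R` transplanted into the box `c` -/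
noncomputable def am (c : Box ι) (R : Om ι → Om ι) (x : Om ι) (γ : ι) : ℕ → ℕ :=
  if ∀ δ ≤ γ, (c δ).mem (x δ) then res c (R (drop c x)) γ else x γ

theorem am_res : am c R ∘ res c = res c ∘ R := by
  funext x γ
  simp only [comp_apply, am, drop_res]
  exact if_pos fun δ _ => mem_res δ

theorem am_low (h : On c (Ici α)) (hR : IsCond R) (e : γ < α) : am c R x γ = R x γ := by
  have t : ∀ δ ≤ γ, c δ = triv := fun δ hδ => h δ (not_le.2 (hδ.trans_lt e))
  rw [am, if_pos fun δ hδ => by rw [t δ hδ]; exact Pc.triv_mem, res, t γ le_rfl, Pc.triv_res]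
  exact hR.caus γ _ _ fun δ hδ => by rw [drop, t δ hδ, Pc.triv_drop]

theorem am_lev : Lev (am c R) γ (c γ).k := fun x => by
  unfold am
  split_ifs with h
  · exact (mem_res γ).1.trans (h γ le_rfl).1.symm
  · exact Up.rfl

theorem am_out (h : ¬(c γ).mem (x γ)) : am c R x γ = x γ := if_neg fun e => h (e γ le_rfl)

theorem am_fix {a : ℕ → ℕ} (hp : Fix R γ 0 0) (h : k ≤ (c γ).k ∨ ¬(c γ).mem a) :
    Fix (am c R) γ a k := by
  rcases lt_trichotomy k (c γ).k with e | rfl | e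
  · exact am_lev.fix e
  · refine fun x hx => ⟨(am_lev x).trans hx, fun y h1 h2 h3 => ?_⟩
    have r : ∀ y : Om ι, res c y γ (c γ).k = y γ 0 + (c γ).r := fun y => by
      simpa [res] using Pc.res_add (c := c γ) (a := y γ) 0
    by_cases e : ∀ δ ≤ γ, (c δ).mem (x δ)
    · have m := e γ le_rfl
      rw [am, am, if_pos e, if_pos fun δ hδ => ?_, r, r]
      · exact Nat.add_lt_add_right ((hp _ (up_zero _ _)).2 _ (lo_drop h1) (up_zero _ _)
          (Pc.drop_lt m (by simpa using h3))) _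
      · rcases hδ.eq_or_lt with rfl | hδ
        · exact ⟨(h2.trans hx.symm).trans m.1, m.2.trans h3.le⟩
        · exact h1 δ hδ ▸ e δ hδ.le
    · rw [am, am, if_neg e]
      split_ifs with e'
      · have := hp.ge (x := drop c y) (up_zero _ _)
        have m := (e' γ le_rfl).2
        rw [r]
        simp only [drop, Pc.drop, Nat.zero_add, if_true] at this
        exact h3.trans_le (by omega)
      · exact h3
  · have o : ∀ x : Om ι, Up k (x γ) a → am c R x γ = x γ := fun x hx =>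
      am_out fun m => h.resolve_left (not_le.2 e) (m.congr (hx.symm.mono e))
    exact fun x hx => ⟨o x hx ▸ hx, fun y _ h2 h3 => by rwa [o x hx, o y h2]⟩

theorem am_cond (h : On c F) (hR : IsCond R) (hp : Pure F R) : IsCond (am c R) := by
  have dp : ∀ γ (x y : Om ι), (∀ δ ∈ F, δ ≤ γ → x δ = y δ) → (∀ δ ≤ γ, (c δ).mem (x δ)) →
      ∀ δ ≤ γ, (c δ).mem (y δ) := fun γ x y e m δ hδ => by
    by_cases k : δ ∈ F
    · exact e δ k hδ ▸ m δ hδ
    · rw [h δ k]; exact Pc.triv_mem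
  have eq : ∀ γ (x y : Om ι), (∀ δ ∈ F, δ ≤ γ → x δ = y δ) → x γ = y γ →
      R (drop c x) γ = R (drop c y) γ → am c R x γ = am c R y γ := fun γ x y e1 e2 e3 => by
    simp only [am, res, e2, e3]
    exact if_congr ⟨dp γ x y e1, dp γ y x fun δ a b => (e1 δ a b).symm⟩ rfl rfl
  refine ⟨cont_iff.2 fun γ j x => ?_, fun γ x y e => eq γ x y (fun δ _ => e δ) (e γ le_rfl)
    (hR.caus γ _ _ fun δ hδ => congrArg _ (e δ hδ)), ?_, fun γ x k => ?_⟩
  · filter_upwards [(eventually_all_finset F).2 fun δ _ => lc_pcmem (c δ) δ x, lc_coord γ j x,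
      cont_iff.1 (cont_res.comp (hR.cont.comp (cont_drop (c := c)))) γ j x] with y h1 h2 h3
    have : (∀ δ ≤ γ, (c δ).mem (y δ)) ↔ ∀ δ ≤ γ, (c δ).mem (x δ) := forall₂_congr fun δ _ => by
      by_cases k : δ ∈ F
      · rw [h1 δ k]
      · simp only [h δ k, Pc.triv_mem]
    simp only [am, this]
    split_ifs
    exacts [h3, h2]
  · obtain ⟨T, h1, h2, h3⟩ := hR.supp
    refine ⟨F ∪ T, F.countable_toSet.union h1, fun x γ k => ?_, fun γ hγ x y k =>
      eq γ x y (fun δ a _ => k δ (Or.inl a)) (k γ hγ) ?_⟩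
    · unfold am
      split_ifs with e
      · rw [res, h2 _ γ fun e => k (Or.inr e), drop, Pc.res_drop (e γ le_rfl)]
      · rfl
    · by_cases e' : γ ∈ T
      · exact h3 γ e' _ _ fun δ hδ => congrArg _ (k δ (Or.inr hδ))
      · rw [h2 _ γ e', h2 _ γ e', drop, drop, k γ hγ]
  · by_cases e : γ ∈ F ∧ (k ≤ (c γ).k ∨ ¬(c γ).mem (x γ))
    · exact ⟨k, (am_fix (hp γ e.1) e.2).spl Up.rfl⟩
    have m : (c γ).k ≤ k ∧ ∀ y : Om ι, Up k (y γ) (x γ) → (c γ).mem (y γ) := by
      by_cases e' : γ ∈ F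
      · simp only [e', true_and, not_or, not_le, not_not] at e
        exact ⟨e.1.le, fun y u => e.2.congr (u.mono e.1)⟩
      · rw [h γ e']; exact ⟨Nat.zero_le _, fun _ _ => Pc.triv_mem⟩
    by_cases e' : ∀ δ < γ, (c δ).mem (x δ)
    · obtain ⟨l, hl⟩ := spl_conj hR m.1 x
      have i : ∀ y, Lo γ y x → Up k (y γ) (x γ) → am c R y γ = res c (R (drop c y)) γ :=
        fun y h1 h2 => if_pos fun δ hδ => by
          rcases hδ.eq_or_lt with rfl | hδ
          exacts [m.2 y h2, h1 δ hδ ▸ e' δ hδ]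
      refine ⟨l, fun y y' h1 h2 h3 h4 => ?_⟩
      rw [i y h1 h3, i y' h2 h4]
      exact hl y y' h1 h2 h3 h4 (m.2 y h3)
    · refine ⟨k, spl_self fun y h1 _ => ?_⟩
      rw [am, if_neg fun a => e' fun δ hδ => h1 δ hδ ▸ a δ hδ.le]
      exact Up.rfl

theorem am_fixW (hp : Pure F R) (h : γ ∈ F) : FixW (am (box F w x) R) γ w := fun a k hk =>
  am_fix (hp γ h) (by
    rw [box_in h]
    exact or_iff_not_imp_right.2 fun e => pz_eq (not_not.1 e) ▸ hk)

end am

theorem fin_iter {α β : Type*} {A : (α → α) → Prop} (h0 : A id)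
    (h1 : ∀ f g, A f → A g → A (f ∘ g)) {Q : β → (α → α) → Prop} {C : Set β} (hC : C.Finite)
    (h2 : ∀ c ∈ C, ∀ f g, A g → Q c f → Q c (f ∘ g))
    (h3 : ∀ c ∈ C, ∀ f, A f → ∃ g, A g ∧ Q c (f ∘ g)) : ∃ f, A f ∧ ∀ c ∈ C, Q c f := by
  induction C, hC using Set.Finite.induction_on with
  | empty => exact ⟨id, h0, fun _ h => h.elim⟩
  | insert _ _ ih =>
    obtain ⟨f, a, b⟩ := ih (fun c h => h2 c (Or.inr h)) fun c h => h3 c (Or.inr h)
    obtain ⟨g, a', b'⟩ := h3 _ (Or.inl rfl) f a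
    refine ⟨f ∘ g, h1 f g a a', ?_⟩
    rintro c (rfl | h)
    exacts [b', h2 c (Or.inr h) f g a' (b c h)]

end Pool.Agent.P.MP_39acbb_lc.Mi
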