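import Pool.Agent.P.MP_39acbb_lc.Mi.A6

set_option autoImplicit false
set_option linter.unusedSectionVars false

/-! One step of the construction. -/

open Filter Topology Set Function

namespace Pool.Agent.P.MP_39acbb_lc.Mi

universe u

open Pc (triv)

variable {ι : Type u} [LinearOrder ι] {K L R : Om ι → Om ι} {α γ : ι} {x y : Om ι} {k n w : ℕ}
  {I S : Set ι} {c : Box ι} {F G : Finset ι} {D : (Om ι → Om ι) → Prop} {e : Om ι → ℕ → ℕ}
  {N : Om ι → ℕ}

/-- conditions that are pure on `F` -/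
def PC (F : Finset ι) (R : Om ι → Om ι) : Prop := IsCond R ∧ Pure F R

theorem pc_id : PC F id := ⟨isCond_id, pure_id⟩

theorem PC.comp (h : PC F L) (h' : PC F R) : PC F (L ∘ R) := ⟨h.1.comp h'.1, h.2.comp h'.2 h'.1⟩

theorem PC.mono (h : PC F R) (e : G ⊆ F) : PC G R := ⟨h.1, h.2.mono e⟩

theorem pc_low (hF : ↑F ⊆ Ici α) (h : IsCond R) (h' : In (Iio α) R) : PC F R :=
  ⟨h, h'.pure fun _ a b => not_le.2 b (hF a)⟩

/-- locally constant functions of countably many coordinates below `α` -/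
def Low {β : Type*} (α : ι) (f : Om ι → β) : Prop :=
  LC f ∧ ∃ S : Set ι, S.Countable ∧ S ⊆ Iio α ∧ Dep S f

section low
variable {β β' β'' : Type*} {f : Om ι → β} {f' : Om ι → β'}

theorem Low.comp (h : Low α f) (hK : IsCond K) : Low α fun x => f (K x) :=
  let ⟨_, a, b, c⟩ := h.2
  let ⟨T, a', _, b', c'⟩ := c.comp a (isLowerSet_Iio α) b hK
  ⟨h.1.comp hK.cont, T, a', b', c'⟩

theorem Low.dep (h : Low α f) : Dep (Iio α) f :=
  let ⟨_, _, b, c⟩ := h.2
  c.mono b

theorem low_const (b : β) : Low α fun _ : Om ι => b :=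
  ⟨lc_const b, ∅, countable_empty, empty_subset _, fun _ _ _ => rfl⟩

theorem Low.map2 (h : Low α f) (h' : Low α f') (g : β → β' → β'') :
    Low α fun x => g (f x) (f' x) :=
  let ⟨S, a, b, c⟩ := h.2
  let ⟨T, a', b', c'⟩ := h'.2
  ⟨h.1.map2 h'.1 g, S ∪ T, a.union a', union_subset b b', fun x y e => congrArg₂ g
    (c x y fun δ k => e δ (Or.inl k)) (c' x y fun δ k => e δ (Or.inr k))⟩

theorem Low.res (h : Low α f) (hc : On c (Ici α)) (x : Om ι) : f (res c x) = f x :=
  h.dep _ _ fun δ hδ => hc.in_res x δ (not_le.2 hδ)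

end low

/-- no pure extension forces a value of `e` into a bounded interval that begins at `N` -/
def NT (e : Om ι → ℕ → ℕ) (N : Om ι → ℕ) (F : Finset ι) (K : Om ι → Om ι) : Prop :=
  ∀ (b : ℕ) (R : Om ι → Om ι), PC F R → ∃ x, ∀ j, e (K (R x)) j < N (K (R x)) ∨ b ≤ e (K (R x)) j

theorem NT.comp (h : NT e N F K) (hR : PC F R) : NT e N F (K ∘ R) :=
  fun b R' a => h b (R ∘ R') (hR.comp a)

/-- admissible steps -/
def Adm (α : ι) (F G : Finset ι) (w : ℕ) (R : Om ι → Om ι) : Prop :=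
  IsCond R ∧ (∀ γ ∈ F, FixW R γ w) ∧ ∀ γ ∈ G, γ < α → Lev R γ w

theorem adm_id : Adm α F G w id :=
  ⟨isCond_id, fun _ _ _ _ _ => (in_id (I := ∅)).fix id, fun _ _ _ _ => Up.rfl⟩

theorem Adm.comp (h : Adm α F G w L) (h' : Adm α F G w R) : Adm α F G w (L ∘ R) :=
  ⟨h.1.comp h'.1, fun γ e a k hk => (h.2.1 γ e a k hk).comp (h'.2.1 γ e a k hk) h'.1,
    fun γ e e' => (h.2.2 γ e e').comp (h'.2.2 γ e e')⟩

theorem Adm.conj (h : Adm α F G w R) (x : Om ι) :
    ∃ R', PC F R' ∧ R ∘ res (box F w x) = res (box F w x) ∘ R' := by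
  have m : ∀ y, Mem (box F w x) (R (res (box F w x) y)) := fun y => box_map h.2.1 mem_res
  exact ⟨_, ⟨(h.1.comp cond_box).drop on_box F.countable_toSet m, pure_conj m fun γ e =>
    ⟨by rw [box_in e]; exact (h.2.1 γ e).fix _, rfl⟩⟩, (factor m).symm⟩

theorem Adm.old {F' : Finset ι} (h : Adm α F' G (w + 1) R) (hF : F ⊆ F') (x : Om ι)
    (o : ∀ γ ∈ F, (pz (x γ) w).r < x γ (pz (x γ) w).k) :
    ∃ R', PC F R' ∧ R ∘ res (box F' (w + 1) x) = res (box F w x) ∘ R' := by
  have m : ∀ y, Mem (box F w x) (R (res (box F' (w + 1) x) y)) := fun y γ => by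
    by_cases e : γ ∈ F
    · have := box_map h.2.1 (mem_res (c := box F' (w + 1) x) (x := y)) γ
      rw [box_in (hF e)] at this
      rw [box_in e]
      exact pz_sub this
    · rw [on_box γ e]; exact Pc.triv_mem
  exact ⟨_, ⟨(h.1.comp cond_box).drop on_box F.countable_toSet m, pure_conj m fun γ e =>
    ⟨by rw [box_in (hF e)]; exact (h.2.1 γ (hF e)).fix _, by
      rw [box_in e, box_in (hF e), pz_old (o γ e)]⟩⟩, (factor m).symm⟩

variable [WellFoundedLT ι]

theorem push (F : Finset ι) {p : Om ι → Prop} (hp : ∀ x, p x → ∀ᶠ y in 𝓝 x, p y)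
    (h : ∀ R, PC F R → ∃ x, ¬p (R x)) : ∃ R, PC F R ∧ ∀ x, ¬p (R x) := by
  obtain ⟨K, k1, -, k2, i, k3⟩ := pd F univ isLowerSet_univ (fun i K => ∀ x, p (K x) ↔ i = true)
    (fun _ _ _ _ _ a x => a _) fun K a _ => by
      by_cases e : ∃ x, p (K x)
      · obtain ⟨x, e⟩ := e
        obtain ⟨G, -, m, k⟩ := ex_nb (a.cont.continuousAt.eventually (hp _ e)) (dep_univ _)
        exact ⟨_, cond_nb, in_univ, true, fun y => iff_of_true (k _ mem_res) rfl⟩
      · exact ⟨id, isCond_id, in_univ, false, fun y => iff_of_false (fun k => e ⟨y, k⟩) (by simp)⟩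
  have := Good.all (p := fun y => p y ↔ i = true) k3
  obtain ⟨x, hx⟩ := h K ⟨k1, k2⟩
  exact ⟨K, ⟨k1, k2⟩, fun y hy => hx ((this x).2 ((this y).1 hy))⟩

theorem gap (hα : α ∈ F) (hF : ↑F ⊆ Ici α) (hK : IsCond K) (he : ∀ j, LC fun x => e x j)
    (hd : ∀ x j j', j' ≤ j → K x α j' ≤ e x j) : ∃ R, PC F R ∧ ∃ b, NT e (fun _ => b) F R := by
  obtain ⟨l, hl⟩ := hK.mil α 0 0
  obtain ⟨G, g1, m, g2⟩ := ex_nb (hl.ev hK) (S := Iio α) fun a b k => propext
    ⟨fun h => h.congr (fun δ hδ => (k δ hδ).symm) (up_zero _ _), fun h => h.congr k (up_zero _ _)⟩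
  have r0 : PC F (res (nb 0 G m)) := pc_low hF cond_nb (on_nb.in_res.mono g1)
  set R0 := res (nb (0 : Om ι) G m)
  obtain ⟨R1, r1, q1⟩ := fin_iter (A := PC F) pc_id (fun _ _ => PC.comp)
    (Q := fun j R => (∃ b, ∀ y, e (R0 (R y)) j < b) ∨
      ∀ b R', PC F R' → ∃ y, b ≤ e (R0 (R (R' y))) j) (finite_Iio l)
    (fun j _ f g a => Or.imp (fun ⟨b, h⟩ => ⟨b, fun y => h _⟩) fun h b R' a' => h b _ (a.comp a'))
    fun j _ f a => by
      by_cases h : ∃ b R', PC F R' ∧ ∀ y, e (R0 (f (R' y))) j < b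
      · obtain ⟨b, R', h1, h2⟩ := h
        exact ⟨R', h1, Or.inl ⟨b, h2⟩⟩
      · push Not at h
        exact ⟨id, pc_id, Or.inr h⟩
  have : ∀ j, ∃ b, (∃ b, ∀ y, e (R0 (R1 y)) j < b) → ∀ y, e (R0 (R1 y)) j < b := fun j => by
    by_cases h : ∃ b, ∀ y, e (R0 (R1 y)) j < b
    exacts [h.imp fun _ a _ => a, ⟨0, fun a => (h a).elim⟩]
  choose f hf using this
  refine ⟨R0 ∘ R1, r0.comp r1, (Finset.range l).sup f, fun b R r => ?_⟩
  obtain ⟨R2, r2, q2⟩ := fin_iter (A := PC F) pc_id (fun _ _ => PC.comp)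
    (Q := fun j R' => (∀ y, e (R0 (R1 (R (R' y)))) j < (Finset.range l).sup f) ∨
      ∀ y, b ≤ e (R0 (R1 (R (R' y)))) j) (finite_Iio l)
    (fun j _ f g _ => Or.imp (fun h y => h _) fun h y => h _) fun j hj g a => by
      rcases q1 j hj with h | h
      · exact ⟨id, pc_id, Or.inl fun y =>
          (hf j h _).trans_le (Finset.le_sup (Finset.mem_range.2 hj))⟩
      · obtain ⟨R', a', b'⟩ := push F (p := fun y => e (R0 (R1 (R (g y)))) j < b)
          (fun x hx => ((he j).comp (((r0.comp r1).comp r).comp a).1.cont x).mono fun y k =>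
            k.trans_lt hx) fun R' a' => (h b _ ((r.comp a).comp a')).imp fun _ => not_lt.2
        exact ⟨R', a', Or.inr fun y => not_lt.1 (b' y)⟩
  refine ⟨R2 fun _ _ => b, fun j => ?_⟩
  by_cases h : j < l
  · exact (q2 j h).imp (fun a => a _) fun a => a _
  · exact Or.inr (((((r0.comp r1).comp r).comp r2).2.ge hα fun _ _ => b).trans
      ((g2 _ mem_res).ge.trans (hd _ j l (not_lt.1 h))))

theorem loc (hF : ↑F ⊆ Ici α) (G : Finset ι) (w : ℕ) (x : Om ι) (hD : Her (Iio α) D)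
    (hd : ∀ K, PC F K → ∃ R, PC F R ∧ D (K ∘ R)) : ∃ R K, Adm α F G w R ∧ PC F K ∧
      R ∘ res (box F w x) = res (box F w x) ∘ K ∧ Good (Iio α) (fun K' => D (K ∘ K')) id := by
  obtain ⟨K, k1, -, k2, k3, -, k4⟩ := unif isLowerSet_univ (mem_univ α) (bb_Iio α) 0 w G F
    (fun γ h => (mem_Ici.1 (hF h)).eq_or_lt.symm.imp id fun e => ⟨e.symm, rfl⟩) hD fun K a _ b =>
      let ⟨R, a, b⟩ := hd K ⟨a, b⟩
      ⟨R, a.1, in_univ, a.2, b⟩
  have o : res (one α 0 0) = id := by
    funext x γ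
    by_cases e : γ = α
    · rw [e, res, one_self]; exact Pc.res_zero rfl rfl _
    · exact on_nb.in_res x γ (by simpa using e)
  refine ⟨am (box F w x) K, K, ⟨am_cond on_box k1 k2, fun γ => am_fixW k2, fun γ a b y => ?_⟩,
    ⟨k1, k2⟩, am_res, by simpa only [o, comp_id] using k4 0⟩
  rw [am_low (on_box.mono hF) k1 b]
  exact k3 γ a b y

theorem phase1 (hα : α ∈ F) (hF : ↑F ⊆ Ici α) (G : Finset ι) (w : ℕ) (hK : IsCond K)
    (he : ∀ j, LC fun x => e x j) (hd : ∀ x j j', j' ≤ j → K x α j' ≤ e x j) :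
    ∃ R N, Adm α F G w R ∧ Low α N ∧ ∀ x, NT (fun x => e (R x)) N F (res (box F w x)) := by
  obtain ⟨R, r, q⟩ := fin_iter (A := Adm α F G w) adm_id (fun _ _ => Adm.comp)
    (Q := fun c R => ∃ N, Low α N ∧ NT (fun x => e (R x)) N F (res c)) (box_fin F w)
    (by
      rintro _ ⟨x, rfl⟩ f g a ⟨N, h1, h2⟩
      obtain ⟨R', a', b'⟩ := a.conj x
      refine ⟨fun x => N (g x), h1.comp a.1, fun b R r => ?_⟩
      have := h2.comp a' b R r
      rw [← b'] at this
      exact this)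
    (by
      rintro _ ⟨x, rfl⟩ f a
      have k := a.1.comp (cond_box (F := F) (w := w) (x := x))
      obtain ⟨R, K', r1, r2, r3, r4⟩ := loc hF G w x
        (D := fun K => ∃ b, NT (fun y => e (f (res (box F w x) y))) (fun _ => b) F K)
        (fun K R a b ⟨c, h⟩ => ⟨c, h.comp (pc_low hF a b)⟩) fun K' h =>
          gap (e := fun y => e (f (res (box F w x) (K' y)))) hα hF ((hK.comp k).comp h.1)
            (fun j => (he j).comp (k.comp h.1).cont) fun y => hd _
      obtain ⟨ce, c1, c2⟩ := r4.cells fun K R a b ⟨c, h⟩ => ⟨c, h.comp (pc_low hF a b)⟩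
      have : ∀ c, ∃ b, c ∈ range ce →
          NT (fun y => e (f (res (box F w x) y))) (fun _ => b) F (K' ∘ res c) := fun c => by
        by_cases h : c ∈ range ce
        · obtain ⟨y, rfl⟩ := h
          exact (c2 y).imp fun _ a _ => a
        · exact ⟨0, fun a => (h a).elim⟩
      choose t ht using this
      obtain ⟨S, s1, s2, s3, s4⟩ := c1.dep
      have lw : Low α ce := ⟨c1.lc, S, s1, s2, s3⟩
      refine ⟨R, r1, fun y => t (ce y), lw.map2 lw fun a _ => t a, fun b R' r => ?_⟩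
      obtain ⟨R2, g1, g2, g3⟩ := (lw.comp r.1).1.const_on (lw.comp r.1).dep 0
      have m : ∀ y, Mem (ce (R' 0)) ((R' ∘ R2) y) := fun y => g3 y ▸ c1.mem _
      obtain ⟨y, hy⟩ := ht _ ⟨R' 0, rfl⟩ b (drop (ce (R' 0)) ∘ R' ∘ R2)
        ⟨(r.1.comp g1).drop (s4 _) s1 m, Pure.comp (((s4 _).in_drop.mono s2).pure
          fun _ a b => not_le.2 b (hF a)) (r.comp (pc_low hF g1 g2)).2 (r.1.comp g1)⟩
      refine ⟨R2 y, fun j => ?_⟩
      have := hy j
      simp only [comp_apply] at this m ⊢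
      rw [res_drop (m y), ← comp_apply (f := res _) (g := K'), ← r3] at this
      rwa [lw.res (on_box.mono hF), g3])
  choose N h1 h2 using fun c : range (box F w) => q c.1 c.2
  have := (box_fin F w).fintype
  refine ⟨R, fun y => Finset.univ.sup fun c => N c y, r, ?_, fun x b R' r' => ?_⟩
  · classical
    generalize (Finset.univ : Finset (range (box F w))) = s
    induction s using Finset.induction_on with
    | empty => exact low_const 0
    | insert a s _ ih => simpa only [Finset.sup_insert] using (h1 a).map2 ih max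
  · obtain ⟨y, hy⟩ := h2 ⟨_, x, rfl⟩ b R' r'
    exact ⟨y, fun j => (hy j).imp_left fun h =>
      h.trans_le (Finset.le_sup (f := fun c => N c _) (Finset.mem_univ _))⟩

theorem step {F' : Finset ι} (hα : α ∈ F') (hF : ↑F' ⊆ Ici α) (hs : F ⊆ F') (G : Finset ι)
    (hK : IsCond K) (he : ∀ j, LC fun x => e x j) (hd : ∀ x j j', j' ≤ j → K x α j' ≤ e x j)
    (hN : Low α N) (h : ∀ x, NT e N F (res (box F w x))) :
    ∃ R N', Adm α F' G (w + 1) R ∧ Low α N' ∧ (∀ x, N (R x) < N' x) ∧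
      (∀ x, NT (fun x => e (R x)) N' F' (res (box F' (w + 1) x))) ∧
      ∀ x, (∀ γ ∈ F, (pz (x γ) w).r < x γ (pz (x γ) w).k) → ∀ y, Mem (box F' (w + 1) x) y →
        ∀ j, e (R y) j < N (R y) ∨ N' y ≤ e (R y) j := by
  obtain ⟨R1, N1, r1, l1, q1⟩ := phase1 hα hF G (w + 1) hK he hd
  have l2 := l1.map2 (hN.comp r1.1) fun a b => max a (b + 1)
  set N2 := fun x => max (N1 x) (N (R1 x) + 1)
  obtain ⟨R, r, q⟩ := fin_iter (A := Adm α F' G (w + 1)) adm_id (fun _ _ => Adm.comp)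
    (Q := fun c R => ∀ y j, e (R1 (R (res c y))) j < N (R1 (R (res c y))) ∨
      N2 (R (res c y)) ≤ e (R1 (R (res c y))) j)
    ((box_fin F' (w + 1)).subset (image_subset_range _
      {x | ∀ γ ∈ F, (pz (x γ) w).r < x γ (pz (x γ) w).k}))
    (by
      rintro _ ⟨x, -, rfl⟩ f g a k y
      obtain ⟨R', -, b'⟩ := a.conj x
      have := k (R' y)
      rw [← comp_apply (f := res _) (g := R'), ← b'] at this
      exact this)
    (by
      rintro _ ⟨x, o, rfl⟩ f a
      have k := a.1.comp (cond_box (F := F') (w := w + 1) (x := x))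
      obtain ⟨T, t1, t2⟩ := (r1.comp a).old hs x o
      set c := box F' (w + 1) x
      obtain ⟨R, K', g1, -, g3, g4⟩ := loc hF G (w + 1) x
        (D := fun K => ∀ y j, e (R1 (f (res c (K y)))) j < N (R1 (f (res c (K y)))) ∨
          N2 (f (res c (K y))) ≤ e (R1 (f (res c (K y)))) j)
        (fun K R _ _ h y => h _) fun K' h' => by
          have lw := l2.comp (k.comp h'.1)
          obtain ⟨R2, g1, g2, g3⟩ := lw.1.const_on lw.dep 0
          have p2 := h'.comp (pc_low hF g1 g2)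
          have k' := (r1.1.comp k).comp p2.1
          obtain ⟨R3, g4, g5⟩ := push F' (p := fun y => ¬∀ j,
            e (R1 (f (res c (K' (R2 y))))) j < N (R1 (f (res c (K' (R2 y))))) ∨
              N2 (f (res c (K' 0))) ≤ e (R1 (f (res c (K' (R2 y))))) j)
            (fun y hy => by
              obtain ⟨j, hj⟩ := not_forall.1 hy
              filter_upwards [(he j).comp k'.cont y, hN.1.comp k'.cont y] with z a b k
              simp only [comp_apply] at a b
              exact hj (a ▸ b ▸ k j))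
            fun R' a' => by
              obtain ⟨y, hy⟩ := (h x).comp t1 _ _ ((p2.comp a').mono hs)
              rw [← t2] at hy
              exact ⟨y, not_not.2 hy⟩
          refine ⟨R2 ∘ R3, (pc_low hF g1 g2).comp g4, fun y j => ?_⟩
          have := g3 (R3 y)
          simp only [comp_apply] at this ⊢
          exact this ▸ not_not.1 (g5 y) j
      refine ⟨R, g1, fun y => ?_⟩
      have := Good.all (p := fun y => ∀ j, e (R1 (f (res c (K' y)))) j < N (R1 (f (res c (K' y)))) ∨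
          N2 (f (res c (K' y))) ≤ e (R1 (f (res c (K' y)))) j) g4 y
      rw [← comp_apply (f := res _) (g := K'), ← g3] at this
      exact this)
  refine ⟨R1 ∘ R, fun x => N2 (R x), r1.comp r, l2.comp r.1,
    fun x => Nat.lt_of_succ_le (le_max_right _ _),
    fun x b R' r' => ?_, fun x o y m => ?_⟩
  · obtain ⟨T, t1, t2⟩ := r.conj x
    obtain ⟨y, hy⟩ := (q1 x).comp t1 b R' r'
    rw [← t2] at hy
    exact ⟨y, fun j => (hy j).imp_left fun a => a.trans_le (le_max_left _ _)⟩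
  · have := q _ ⟨x, o, rfl⟩ (drop (box F' (w + 1) x) y)
    rw [res_drop m] at this
    exact this

end Pool.Agent.P.MP_39acbb_lc.Mi
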