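import Pool.Agent.P.MP_39acbb_lc.Mi.A7

set_option autoImplicit false
set_option linter.unusedSectionVars false

/-! The main combinatorial theorem. -/

open Filter Topology Set Function

namespace Pool.Agent.P.MP_39acbb_lc.Mi

universe u

open Pc (triv)

variable {ι : Type u} [LinearOrder ι] {K : Om ι → Om ι} {α : ι} {S : Set ι} {e : Om ι → ℕ → ℕ}

open Classical in
/-- the first digit gets parity `p`, the others are odd -/
noncomputable def th (S : Set ι) (p : ℕ) (x : Om ι) (γ : ι) (t : ℕ) : ℕ :=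
  if γ ∈ S then 2 * x γ t + if t = 0 then p else 1 else x γ t

theorem in_th {p : ℕ} : In S (th S p) := fun _ _ h => funext fun _ => if_neg h

theorem th_cond {p : ℕ} (hS : S.Countable) : IsCond (th S p) := by
  classical
  have k : ∀ γ t (x y : Om ι), x γ t = y γ t → th S p x γ t = th S p y γ t := fun γ t x y h => by
    simp only [th, h]
  refine ⟨cont_iff.2 fun γ t => (lc_coord γ t).map fun v =>
    if γ ∈ S then 2 * v + if t = 0 then p else 1 else v,
    fun γ x y h => funext fun t => k γ t x y (congrFun (h γ le_rfl) t),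
    ⟨S, hS, in_th, fun γ hγ x y h => funext fun t => k γ t x y (congrFun (h γ hγ) t)⟩,
    fun γ x l => ⟨l, fun y y' _ _ h3 h4 => ⟨fun t ht => k γ t y y' (h3.trans h4.symm t ht),
      fun h => ?_⟩⟩⟩
  by_cases e : γ ∈ S
  · simp only [th, if_pos e]; omega
  · simpa only [th, if_neg e] using h

variable [WellFoundedLT ι]

theorem main (hK : IsCond K) (he : ∀ j, LC fun x => e x j)
    (hd : ∀ x j j', j' ≤ j → K x α j' ≤ e x j) :
    ∃ (M : Om ι → Om ι) (B : Om ι → ℕ → Prop) (b : ℕ) (R0 R1 : Om ι → Om ι), IsCond M ∧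
      (∃ S : Set ι, S.Countable ∧ S ⊆ Iio α ∧ Dep S B) ∧
      IsCond R0 ∧ In (Ici α) R0 ∧ IsCond R1 ∧ In (Ici α) R1 ∧
      (∀ x j, ¬B x (e (M (R0 x)) j)) ∧ ∀ x j, e (M (R1 x)) j < b ∨ B x (e (M (R1 x)) j) := by
  classical
  have h1 : (↑({α} : Finset ι) : Set ι) ⊆ Ici α := by simp
  obtain ⟨L, l1, b, l2⟩ := gap (Finset.mem_singleton_self α) h1 hK he hd
  obtain ⟨s, G, S, h0, h1, h2, -, h4⟩ := book
    (St := (Om ι → Om ι) × (Om ι → ℕ) × Finset ι × (Om ι → Om ι))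
    (fun n s => IsCond s.1 ∧ Low α s.2.1 ∧ α ∈ s.2.2.1 ∧ ↑s.2.2.1 ⊆ Ici α ∧
      ∀ x, NT (fun x => e (s.1 x)) s.2.1 s.2.2.1 (res (box s.2.2.1 n x)))
    (fun n s G s' S => s'.1 = s.1 ∘ s'.2.2.2 ∧ s.2.2.1 ⊆ s'.2.2.1 ∧
      (∀ γ ∈ G, α ≤ γ → γ ∈ s'.2.2.1) ∧ Adm α s'.2.2.1 G (n + 1) s'.2.2.2 ∧ In S s'.2.2.2 ∧
      (∀ x, s.2.1 (s'.2.2.2 x) < s'.2.1 x) ∧
      ∀ x, (∀ γ ∈ s.2.2.1, (pz (x γ) n).r < x γ (pz (x γ) n).k) →
        ∀ y, Mem (box s'.2.2.1 (n + 1) x) y →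
          ∀ j, e (s'.1 y) j < s.2.1 (s'.2.2.2 y) ∨ s'.2.1 y ≤ e (s'.1 y) j)
    (L, fun _ => b, {α}, id) ⟨l1.1, low_const b, Finset.mem_singleton_self α, h1, fun x => by
      have : res (box {α} 0 x) = id := by
        funext y γ
        simp only [res, box, pz, ite_self, Pc.triv_res, id]
      rw [this]
      exact l2⟩ ∅ fun n s G ⟨a1, a2, a3, a4, a5⟩ => by
      have u : (↑(s.2.2.1 ∪ G.filter (α ≤ ·)) : Set ι) ⊆ Ici α := by
        rw [Finset.coe_union]
        exact union_subset a4 fun _ h => (Finset.mem_filter.1 h).2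
      obtain ⟨R, N, b1, b2, b3, b4, b5⟩ := step (Finset.mem_union_left _ a3) u
        Finset.subset_union_left G (hK.comp a1) (fun j => (he j).comp a1.cont) (fun x => hd _) a2 a5
      obtain ⟨S, g1, g2, -⟩ := b1.1.supp
      exact ⟨(s.1 ∘ R, N, s.2.2.1 ∪ G.filter (α ≤ ·), R), S, g1,
        ⟨a1.comp b1.1, b2, Finset.mem_union_left _ a3, u, b4⟩, rfl, Finset.subset_union_left,
        fun γ h h' => Finset.mem_union_right _ (Finset.mem_filter.2 ⟨h, h'⟩), b1, g2, b3, b5⟩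
  let R : ℕ → Om ι → Om ι := fun n => (s (n + 1)).2.2.2
  let F : ℕ → Finset ι := fun n => (s n).2.2.1
  have hR : ∀ n, IsCond (R n) := fun n => (h2 n).2.2.2.1.1
  have mo : Monotone F := monotone_nat_of_le_succ fun n => (h2 n).2.1
  have eL : ∀ n, (s n).1 = L ∘ seg R 0 n := fun n => by
    induction n with
    | zero => rw [h0]; rfl
    | succ n ih => rw [(h2 n).1, ih, seg, Nat.zero_add]; rfl
  obtain ⟨M, m1, m2, m3⟩ := fusion hR fun γ z k => by
    by_cases h : ∃ n, γ ∈ S n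
    · obtain ⟨n, h⟩ := h
      obtain ⟨d, hd⟩ := h4 n γ h
      obtain ⟨w, hw⟩ := pz_top z k
      refine ⟨max d (max w k), fun m hm => ?_⟩
      have g := hd m (le_of_max_le_left hm)
      have := max_le_iff.1 (le_of_max_le_right hm)
      rcases lt_or_ge γ α with e | e
      · exact ((h2 m).2.2.2.1.2.2 γ g e).fix (by omega)
      · exact (h2 m).2.2.2.1.2.1 γ ((h2 m).2.2.1 γ g e) z k (hw.trans (pz_mono z (by omega)))
    · exact ⟨0, fun m _ => (h2 m).2.2.2.2.1.fix fun k => h ⟨m, k⟩⟩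
  let a : ℕ → Om ι → ℕ := fun n x => (s n).2.1 (M n x)
  have la : ∀ n, Low α (a n) := fun n => (h1 n).2.1.comp (m1 n)
  have eM : ∀ n x, M n x = R n (M (n + 1) x) := fun n x => congrFun (m2 n 1) x
  have sm : ∀ x, StrictMono fun n => a n x := fun x => strictMono_nat_of_lt_succ fun n => by
    simp only [a, eM n x]
    exact (h2 n).2.2.2.2.2.1 _
  have av : ∀ n x, (∀ γ ∈ F n, (pz (x γ) n).r < x γ (pz (x γ) n).k) →
      ∀ j, e (L (M 0 x)) j < a n x ∨ a (n + 1) x ≤ e (L (M 0 x)) j := fun n x o j => by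
    have := (h2 n).2.2.2.2.2.2 x o (M (n + 1) x) (fun γ => lim_mem (m3 (n + 1) x γ) fun m =>
      box_map (seg_ind (Q := fun L => ∀ γ ∈ F (n + 1), FixW L γ (n + 1)) hR
        (adm_id (α := α) (G := ∅)).2.1
        (fun _ _ c a b γ h z k hk => (a γ h z k hk).comp (b γ h z k hk) c)
        (fun i hi γ h => ((h2 i).2.2.2.1.2.1 γ (mo (by omega) h)).mono (by omega)) m) self_box γ) j
    rw [eL, comp_apply, ← comp_apply (f := seg R 0 _), ← Nat.zero_add (n + 1), Nat.zero_add (n + 1)]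
      at this
    have k := m2 0 (n + 1)
    rw [Nat.zero_add] at k
    rw [← k] at this
    simpa only [a, eM n x] using this
  have cF : (⋃ n, (F n : Set ι)).Countable := countable_iUnion fun n => (F n).countable_toSet
  have iF : ∀ p, In (Ici α) (th (⋃ n, (F n : Set ι)) p) := fun p =>
    in_th.mono (iUnion_subset fun n => (h1 n).2.2.2.1)
  have av2 : ∀ p < 2, ∀ n, n % 2 ≠ p → ∀ x j, e (L (M 0 (th (⋃ n, (F n : Set ι)) p x))) j < a n x ∨
      a (n + 1) x ≤ e (L (M 0 (th (⋃ n, (F n : Set ι)) p x))) j := fun p hp n hn x j => by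
    have k : ∀ n, a n (th (⋃ n, (F n : Set ι)) p x) = a n x := fun n =>
      (la n).dep _ _ fun δ hδ => iF p x δ (not_le.2 hδ)
    rw [← k, ← k]
    refine av n _ (fun γ h => (pz_par (p := p) ?_ (fun t => ?_) n).1 hn) j <;>
      simp only [th, if_pos (mem_iUnion.2 ⟨n, h⟩ : γ ∈ ⋃ n, (F n : Set ι))]
    · simp; omega
    · simp
  choose T t1 t2 t3 using fun n => (la n).2
  refine ⟨L ∘ M 0, fun x v => ∃ n, n % 2 = 0 ∧ a n x ≤ v ∧ v < a (n + 1) x, b, _, _,
    l1.1.comp (m1 0), ⟨⋃ n, T n, countable_iUnion t1, iUnion_subset t2,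
      fun x y h => ?_⟩, th_cond cF, iF 1, th_cond cF, iF 0, fun x j ⟨n, c1, c2, c3⟩ => ?_,
    fun x j => ?_⟩
  · simp only [fun n => t3 n x y fun δ k => h δ (mem_iUnion.2 ⟨n, k⟩)]
  · have := av2 1 (by omega) n (by omega) x j
    simp only [comp_apply] at c2 c3
    omega
  · refine or_iff_not_imp_left.2 fun h => ?_
    simp only [comp_apply] at h ⊢
    generalize hv : e (L (M 0 (th (⋃ n, (F n : Set ι)) 0 x))) j = v at h
    have ex : ∃ n, v < a (n + 1) x := ⟨v, (sm x).le_apply (x := v + 1)⟩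
    have c1 := Nat.find_spec ex
    have c2 : a (Nat.find ex) x ≤ v := by
      rcases k : Nat.find ex with _ | n
      · simp only [a, h0]; omega
      · exact not_lt.1 (Nat.find_min ex (k ▸ n.lt_succ_self))
    refine ⟨_, by_contra fun c3 => ?_, c2, c1⟩
    have := av2 0 (by omega) _ c3 x j
    omega

end Pool.Agent.P.MP_39acbb_lc.Mi
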