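import Pool.Agent.P.MP_39acbb_lc.Mi.A8
import Pool.Agent.Lib.PosetForcing.Tools

set_option autoImplicit false
set_option linter.unusedSectionVars false
set_option synthInstance.maxSize 4000

/-! A model of ZFC without rapid filters. -/

open Filter Topology Set Function Pool.Agent.Lib.PosetForcing

namespace Pool.Agent.P.MP_39acbb_lc.Mi

universe v

/-- no filter on `ω` is rapid -/
def NR {M : Type v} (mem : M → M → Prop) : Prop := ∀ w u, IsOmega mem w →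
  (∀ a b n, mem a u → mem b u → mem n w → ∃ k, mem k a ∧ mem k b ∧ mem n k) →
  ∃ m, IsFun mem m w w ∧ ∀ e r, IsFun mem e w w →
    (∀ j j' y y', App mem m j' y' → App mem e j y → j' = j ∨ mem j' j → y' = y ∨ mem y' y) →
    (∀ k, mem k r → ∃ j, App mem e j k) → ¬mem r u

/-- well-founded countably branching trees -/
inductive Tr : Type
  | nil : Tr
  | sup (t : ℕ → Tr) : Tr

theorem ex_bound {S : Set Ordinal.{0}} (h : S.Countable) : ∃ β, S ⊆ Iio β := by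
  have := h.to_subtype
  obtain ⟨β, hβ⟩ := Ordinal.bddAbove_of_small (s := S)
  exact ⟨β + 1, fun δ k => (hβ k).trans_lt (lt_add_one β)⟩

theorem ex_closed (g : Ordinal.{0} → Ordinal.{0}) (b : Ordinal.{0}) : ∃ α, b ≤ α ∧
    ∀ S : Set Ordinal.{0}, S.Countable → S ⊆ Iio α → ∃ β, S ⊆ Iio β ∧ β ≤ α ∧ g β ≤ α := by
  let f : Tr → Ordinal.{0} := fun t =>
    Tr.rec b (fun _ v => max (⨆ n, v n) (g (⨆ n, v n))) t
  have le : ∀ t, f t ≤ ⨆ t, f t := Ordinal.le_iSup f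
  refine ⟨⨆ t, f t, le .nil, fun S h1 h2 => ?_⟩
  obtain ⟨s, hs⟩ := countable_iff_exists_subset_range.1 (h1.image some)
  have : ∀ o : Option Ordinal.{0}, ∃ t, ∀ δ ∈ S, some δ = o → δ < f t := fun o => by
    by_cases e : o ∈ some '' S
    · obtain ⟨δ, k, rfl⟩ := e
      obtain ⟨t, ht⟩ := (Ordinal.lt_iSup_iff).1 (h2 k)
      exact ⟨t, fun _ _ e => Option.some_inj.1 e ▸ ht⟩
    · exact ⟨.nil, fun δ k e' => (e ⟨δ, k, e'⟩).elim⟩
  choose t ht using this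
  refine ⟨⨆ n, f (t (s n)), fun δ k => ?_, (le_max_left _ _).trans (le (.sup fun n => t (s n))),
    (le_max_right _ _).trans (le (.sup fun n => t (s n)))⟩
  obtain ⟨n, hn⟩ := hs ⟨δ, k, rfl⟩
  exact (ht _ δ k hn.symm).trans_le (Ordinal.le_iSup (fun n => f (t (s n))) n)

/-- the forcing -/
def Cd : Type 1 := {K : Om Ordinal.{0} → Om Ordinal.{0} // IsCond K}

instance : Preorder Cd where
  le q p := ∃ R, IsCond R ∧ q.1 = p.1 ∘ R
  le_refl _ := ⟨id, isCond_id, rfl⟩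
  le_trans := fun _ _ _ ⟨R, a, b⟩ ⟨T, c, d⟩ => ⟨T ∘ R, c.comp a, by rw [b, d]; rfl⟩

instance : OrderTop Cd where
  top := ⟨id, isCond_id⟩
  le_top p := ⟨p.1, p.2, rfl⟩

/-- extension of a condition -/
def Cd.ext (p : Cd) (R : Om Ordinal.{0} → Om Ordinal.{0}) (h : IsCond R) : Cd :=
  ⟨p.1 ∘ R, p.2.comp h⟩

theorem Cd.ext_le {p : Cd} {R : Om Ordinal.{0} → Om Ordinal.{0}} {h : IsCond R} :
    p.ext R h ≤ p := ⟨R, h, rfl⟩

theorem small_cd (β : Ordinal.{0}) : Small.{0} {q : Cd // In (Iio β) q.1} := by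
  classical
  refine small_of_injective (f := fun q (x : Iio β → ℕ → ℕ) (γ : Iio β) =>
    q.1.1 (fun δ => if h : δ < β then x ⟨δ, h⟩ else 0) γ) fun p q h =>
      Subtype.ext (Subtype.ext (funext fun x => funext fun γ => ?_))
  by_cases e : γ < β
  · have k : ∀ δ ∈ Iio β, x δ = if h : δ < β then x δ else 0 := fun δ h => by
      rw [dif_pos (mem_Iio.1 h)]
    exact (p.1.2.low (isLowerSet_Iio β) k γ e).trans ((congrFun (congrFun h fun δ => x δ) ⟨γ, e⟩).trans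
      (q.1.2.low (isLowerSet_Iio β) k γ e).symm)
  · exact (p.2 x γ e).trans (q.2 x γ e).symm

theorem Cd.bound (p : Cd) : ∃ β, In (Iio β) p.1 :=
  let ⟨_, a, b, _⟩ := p.2.supp
  let ⟨β, h⟩ := ex_bound a
  ⟨β, In.mono b h⟩

/-- names for sets of natural numbers -/
def nm (A : Set (ℕ × Cd)) : Name Cd := .mk A (fun x => natName x.1.1) fun x => x.1.2

/-- the generic real at `α` -/
def gn (α : Ordinal.{0}) : Name Cd :=
  graphName (ι := {t : ℕ × ℕ × Cd // ∀ x, t.2.2.1 x α t.1 = t.2.1}) (fun t => natName t.1.1)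
    (fun t => natName t.1.2.1) fun t => t.1.2.2

theorem ex_const {β : Type*} {f : Om Ordinal.{0} → β} (h : LC f) (x : Om Ordinal.{0}) :
    ∃ R, IsCond R ∧ ∀ y, f (R y) = f x :=
  let ⟨R, a, _, b⟩ := h.const_on (dep_univ f) x
  ⟨R, a, b⟩

theorem gn_fun (α : Ordinal.{0}) (p : Cd) :
    Forces p fun U => IsFun Mod.mem ((gn α).val U) (omegaName.val U) (omegaName.val U) := by
  refine forces_isFunOn_graph (V := fun U y => Mod.mem y (omegaName.val U))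
    (fun i q _ _ => ⟨q, le_rfl, .of_forall (fun U => ⟨natName_mem_omega _ U,
      natName_mem_omega _ U⟩) _⟩) (fun j q _ _ => ?_) fun i j q _ ⟨R, _, a⟩ ⟨T, _, b⟩ h => ?_
  · obtain ⟨R, a, b⟩ := ex_const (cont_iff.1 q.2.cont α j.down) 0
    exact ⟨q.ext R a, Cd.ext_le, ⟨(j.down, _, q.ext R a), b⟩, le_rfl, .of_forall (fun _ => rfl) _⟩
  · refine ⟨q, le_rfl, .of_forall (fun U => ?_) _⟩
    rw [← i.2 (R 0), ← j.2 (T 0), h.natName_inj, ← comp_apply (f := i.1.2.2.1), ← a, b]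
    rfl

theorem read {p : Cd} {e : Name Cd}
    (h : Forces p fun U => IsFun Mod.mem (e.val U) (omegaName.val U) (omegaName.val U)) :
    ∃ q ≤ p, ∃ f : Om Ordinal.{0} → ℕ → ℕ, (∀ j, LC fun x => f x j) ∧ ∀ j R (hR : IsCond R) x,
      ∃ T, ∃ hT : IsCond T, (∀ y, f (R (T y)) j = f (R x) j) ∧ Forces ((q.ext R hR).ext T hT)
        fun U => App Mod.mem (e.val U) ((natName j).val U) ((natName (f (R x) j)).val U) := by
  let D : ℕ → ℕ → (Om Ordinal.{0} → Om Ordinal.{0}) → Prop := fun j v K => ∃ hK : IsCond K,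
    Forces (p.ext K hK) fun U => App Mod.mem (e.val U) ((natName j).val U) ((natName v).val U)
  have hD : ∀ j v, Her univ (D j v) := fun j v K R a _ ⟨b, c⟩ => ⟨b.comp a, c.mono ⟨R, a, rfl⟩⟩
  have hD' : ∀ j, Her univ fun K => ∃ v, D j v K := fun j K R a b ⟨v, c⟩ => ⟨v, hD j v K R a b c⟩
  obtain ⟨K, k1, -, -, k2⟩ := bb_univ _ hD' (fun j K a _ => by
    obtain ⟨y, hy⟩ := Forces.exists_name (p := p.ext K a) (Φ := fun U y =>
      App Mod.mem (e.val U) ((natName j).val U) y ∧ Mod.mem y (omegaName.val U))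
      ((h.mono Cd.ext_le).imp fun U h => (h.2.1 _ (natName_mem_omega j U)).imp fun y k =>
        ⟨k, ((isZFC U).app_val h k).2⟩)
    obtain ⟨q, hq, v, hv⟩ := (hy.imp fun _ h => h.2).exists_fam
    obtain ⟨R, r1, r2⟩ := id hq
    refine ⟨R, r1, in_univ, v.down, a.comp r1, ?_⟩
    rw [show p.ext (K ∘ R) (a.comp r1) = q from Subtype.ext r2.symm]
    exact ((hy.mono hq).and hv).imp fun U h => h.2 ▸ h.1.1) ∅ 0
  choose ce c1 c2 using fun j => (k2 j).cells (hD' j)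
  have : ∀ j c, ∃ v, c ∈ range (ce j) → D j v (K ∘ res c) := fun j c => by
    by_cases h : c ∈ range (ce j)
    · obtain ⟨y, rfl⟩ := h
      exact (c2 j y).imp fun _ a _ => a
    · exact ⟨0, fun a => (h a).elim⟩
  choose t ht using this
  refine ⟨p.ext K k1, Cd.ext_le, fun x j => t j (ce j x), fun j => (c1 j).lc.map _,
    fun j R hR x => ?_⟩
  obtain ⟨T, a, b⟩ := ex_const ((c1 j).lc.comp hR.cont) x
  obtain ⟨G, -, g⟩ := (c1 j).fin (R x)
  exact ⟨T, a, fun y => congrArg _ (b y), ((hD j _).box g G.countable_toSet (subset_univ _)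
    (hR.comp a) in_univ (fun y => b y ▸ (c1 j).mem _) (ht j _ ⟨_, rfl⟩)).2⟩

theorem abv {α : Ordinal.{0}} {H q : Cd} {Z R T : Om Ordinal.{0} → Om Ordinal.{0}} {hR : IsCond R}
    (hH : In (Iio α) H.1) (h : ∀ x, Lo α (q.1 x) (H.1 (Z x))) (hT : IsCond T)
    (e : rst (Iio α) Z = R ∘ T) : q ≤ H.ext R hR := by
  refine ⟨T ∘ rst (Iio α)ᶜ q.1, hT.comp (q.2.rst _), ?_⟩
  have : rst (Iio α) q.1 = H.1 ∘ rst (Iio α) Z := by
    rw [← hH.rst, ← rst_comp H.2 (isLowerSet_Iio α)]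
    funext x γ
    by_cases k : γ ∈ Iio α
    · rw [rst_in k, rst_in k]; exact h x γ k
    · rw [rst_out k, rst_out k]
  exact (rst_tl q.2 (isLowerSet_Iio α)).symm.trans (by rw [this, e]; rfl)

theorem name_ex {β : Ordinal.{0}} {H : Cd} {B : Om Ordinal.{0} → ℕ → Prop} (hH : In (Iio β) H.1)
    (h2 : Dep (Iio β) B) : ∃ A : Set (ℕ × Cd),
      (∀ t ∈ A, In (Iio β) t.2.1) ∧ ∀ (q : Cd) Z, IsCond Z → (∀ x, Lo β (q.1 x) (H.1 (Z x))) → ∀ v,
        ((∀ x, B (Z x) v) → ∃ r ≤ q, Forces r fun U => Mod.mem ((natName v).val U) ((nm A).val U)) ∧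
        ((∀ x, ¬B (Z x) v) → Forces q fun U => ¬Mod.mem ((natName v).val U) ((nm A).val U)) := by
  have lw := isLowerSet_Iio β
  let A : Set (ℕ × Cd) := {t | ∃ R hR, In (Iio β) R ∧ t.2 = H.ext R hR ∧ ∀ x, B (R x) t.1}
  refine ⟨A, ?_,
    fun q Z hZ h v => ⟨fun k => ?_, fun k => forces_not_iff.2 fun r ⟨T, t1, t2⟩ hr => ?_⟩⟩
  · rintro ⟨v, _⟩ ⟨R, hR, a, rfl, -⟩
    exact hH.comp a
  · refine ⟨q, le_rfl, forces_el_mem (b := nm A) ⟨(v, H.ext _ (hZ.rst (Iio β))), _, hZ.rst _,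
      in_rst, rfl, fun x => ?_⟩ (abv (hR := hZ.rst _) hH h isCond_id rfl)⟩
    rw [h2 _ (Z x) fun δ => rst_in]
    exact k x
  · obtain ⟨s, ⟨T', t3, t4⟩, ⟨⟨v', c⟩, R, hR, a, hc, b⟩, ⟨T'', t5, t6⟩, e⟩ := hr.exists_el
    replace t6 : s.1 = (H.1 ∘ R) ∘ T'' := t6.trans (congrArg (fun c : Cd => c.1 ∘ T'') hc)
    obtain rfl : v = v' := e.natName_inj
    refine k (T (T' 0)) ?_
    rw [h2 _ (R (T'' 0)) (H.2.inj_low lw fun δ hδ => ?_)]
    · exact b _
    · rw [← h _ δ hδ]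
      exact (congrFun (congrFun (t2 ▸ t4) 0) δ).symm.trans (congrFun (congrFun t6 0) δ)

theorem nr (U : Gen Cd) : NR (M := Mod U) Mod.mem := by
  intro w u hw h1
  obtain rfl := hw.eq_omega
  obtain ⟨u, rfl⟩ := u.exists_name
  by_contra h3
  obtain ⟨p, -, hp⟩ := exists_forces_of (p := ⊤) (U := U) (Φ := fun U =>
    (∀ a b n, Mod.mem a (u.val U) → Mod.mem b (u.val U) → Mod.mem n (omegaName.val U) →
      ∃ k, Mod.mem k a ∧ Mod.mem k b ∧ Mod.mem n k) ∧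
    ∀ m, IsFun Mod.mem m (omegaName.val U) (omegaName.val U) → ∃ e r,
      IsFun Mod.mem e (omegaName.val U) (omegaName.val U) ∧
      (∀ j j' y y', App Mod.mem m j' y' → App Mod.mem e j y → j' = j ∨ Mod.mem j' j →
        y' = y ∨ Mod.mem y' y) ∧ (∀ k, Mod.mem k r → ∃ j, App Mod.mem e j k) ∧ Mod.mem r (u.val U))
    (by rw [Iic_top]; exact univ_mem) ⟨h1, fun m hm => by
      by_contra h4
      exact h3 ⟨m, hm, fun e r a b c d => h4 ⟨e, r, a, b, c, d⟩⟩⟩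
  clear h1 h3 hw U
  have dec : ∀ (q : Cd) (A : Set (ℕ × Cd)), ∃ W ≤ q,
      (Forces W fun U => ¬∃ b, Mod.mem b (u.val U) ∧ ∀ k, Mod.mem k b → ¬Mod.mem k ((nm A).val U)) ∨
        Forces W fun U => ∃ b, Mod.mem b (u.val U) ∧ ∀ k, Mod.mem k b →
          ¬Mod.mem k ((nm A).val U) := fun q A =>
    or_iff_not_imp_right.2 (fun h => by
      push Not at h
      exact forces_not_iff.2 h) |>.elim (fun h => ⟨q, le_rfl, Or.inl h⟩)
      fun (h : ∃ W ≤ q, _) => h.imp fun _ a => ⟨a.1, Or.inr a.2⟩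
  choose W w1 w2 using dec
  have : ∀ β, ∃ β', ∀ (q : Cd) (A : Set (ℕ × Cd)), In (Iio β) q.1 → (∀ t ∈ A, In (Iio β) t.2.1) →
      In (Iio β') (W q A).1 := fun β => by
    have := small_cd β
    choose f hf using Cd.bound
    let F : {q : Cd // In (Iio β) q.1} × Set (ℕ × {q : Cd // In (Iio β) q.1}) → Ordinal.{0} :=
      fun t => f (W t.1 ((fun s => (s.1, s.2.1)) '' t.2))
    refine ⟨⨆ t, F t, fun q A a b => (hf _).mono (Iio_subset_Iio ?_)⟩
    have := Ordinal.le_iSup F (⟨q, a⟩, (fun s => (s.1, s.2.1)) ⁻¹' A)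
    simp only [F] at this
    rwa [image_preimage_eq_of_subset fun t ht => ⟨(t.1, ⟨t.2, b t ht⟩), rfl⟩] at this
  choose g hg using this
  obtain ⟨α, -, hα⟩ := ex_closed g 0
  obtain ⟨e, he⟩ := Forces.exists_name ((hp.and (gn_fun α p)).imp fun U h => h.1.2 _ h.2)
  obtain ⟨r, hr⟩ := Forces.exists_name he
  obtain ⟨q, hq, f, f1, f2⟩ := read (hr.imp fun _ h => h.1)
  obtain ⟨M, B, b, R0, R1, m1, ⟨S, s1, s2, s3⟩, r1, r2, r3, r4, r5, r6⟩ :=
    main (α := α) q.2 f1 fun x j j' hj => by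
      obtain ⟨R, a, a'⟩ := ex_const ((cont_iff.1 q.2.cont α j').map2 (f1 j) Prod.mk) x
      obtain ⟨T, c, -, c'⟩ := f2 j R a 0
      obtain ⟨U, k1, k2, k3⟩ := ((hr.mono (Cd.ext_le.trans (Cd.ext_le.trans hq))).and (c'.and
        (forces_app_graph (X := fun t => natName t.1.1) (Y := fun t => natName t.1.2.1)
          (c := fun t : {t : ℕ × ℕ × Cd // ∀ x, t.2.2.1 x α t.1 = t.2.1} => t.1.2.2)
          ⟨(j', _, (q.ext R a).ext T c), fun y => (Prod.ext_iff.1 (a' (T y))).1⟩ le_rfl))).exists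
      rw [show f (R 0) j = f x j from (Prod.ext_iff.1 (a' 0)).2] at k2
      exact (k1.2.1 _ _ _ _ k3 k2 (hj.eq_or_lt.imp (congrArg fun n => (natName n).val U)
        natName_mem_iff.2)).elim
        (fun e => (natName_inj e).le) fun e => (natName_mem_iff.1 e).le
  have lw := isLowerSet_Iio α
  let H : Cd := ⟨rst (Iio α) (q.1 ∘ M), (q.2.comp m1).rst _⟩
  obtain ⟨T, t1, t2, -⟩ := H.2.supp
  obtain ⟨β, β1, β2, β3⟩ := hα (S ∪ T ∩ Iio α) (s1.union (t1.mono inter_subset_left))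
    (union_subset s2 inter_subset_right)
  have hH : In (Iio β) H.1 := fun x γ k => by
    by_cases e : γ ∈ T
    · exact in_rst x γ fun e' => k (β1 (Or.inr ⟨e, e'⟩))
    · exact t2 x γ e
  obtain ⟨A, a1, a2⟩ := name_ex hH (s3.mono fun _ k => β1 (Or.inl k))
  obtain ⟨R', r7, r8⟩ := w1 H A
  have r9 : In (Iio α) R' := fun x γ k => (in_rst _ γ k).symm.trans ((congrFun (congrFun r8 x) γ).symm.trans
    (hg β H A hH a1 x γ fun e => k (lt_of_lt_of_le e β3)))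
  have key : ∀ R (hR : IsCond R), In (Ici α) R → 
      ∀ Ψ : ∀ U : Gen Cd, Mod U → Prop, (∀ a : Name Cd, Clopen fun U => Ψ U (a.val U)) →
      (∀ (s : Cd) Z j v, IsCond Z → (∀ x, Lo β (s.1 x) (H.1 (Z x))) →
        (∀ x, f (M (R (Z x))) j = v) → ∃ t ≤ s, Forces t fun U => Ψ U ((natName v).val U)) →
      ∃ s ≤ W H A, s ≤ p ∧ Forces s fun U => ∀ k, Mod.mem k (r.val U) → Ψ U k := by
    intro R hR i Ψ _ h
    have c := (m1.comp hR).comp r7
    have lo : ∀ x, Lo α (q.1 (M (R x))) (H.1 x) := fun x δ k =>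
      ((q.2.comp m1).low lw (fun ε hε => i x ε fun e => not_le.2 (mem_Iio.1 hε) (mem_Ici.1 e)) δ k).trans (rst_in k).symm
    refine ⟨q.ext _ c, ?_, Cd.ext_le.trans hq, ((hr.mono (Cd.ext_le.trans hq)).and
      (forces_forall_mem_omega (Φ := fun U j => IsFun Mod.mem (e.val U) (omegaName.val U)
        (omegaName.val U) → ∀ k, App Mod.mem (e.val U) j k → Ψ U k) ?_)).imp fun U h k hk => ?_⟩
    · rw [show W H A = H.ext R' r7 from Subtype.ext r8]
      exact abv in_rst (fun x => lo _) isCond_id r9.rst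
    · rintro j s ⟨T, t1, t2⟩
      obtain ⟨T', t3, t4, t5⟩ := f2 j _ (c.comp t1) 0
      obtain ⟨t, t6, t7⟩ := h ((q.ext _ (c.comp t1)).ext T' t3) (R' ∘ T ∘ T') j _ (r7.comp (t1.comp t3))
        (fun x δ k => lo _ δ (k.trans_le β2)) t4
      exact ⟨t, t6.trans ⟨T', t3, by rw [t2]; rfl⟩, ((t5.mono t6).and t7).imp fun U h a k b =>
        a.2.2 _ _ _ h.1 b ▸ h.2⟩
    · obtain ⟨j, hj⟩ := h.1.2.2.1 k hk
      exact h.2 j ((isZFC U).app_val h.1.1 hj).1 h.1.1 k hj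
  rcases w2 H A with h | h
  · obtain ⟨s, s1, s2, s3⟩ := key R0 r1 r2
      (fun U k => ¬Mod.mem k ((nm A).val U)) (fun _ => inferInstance) fun s Z j v a b c =>
        ⟨s, le_rfl, (a2 s Z a b v).2 fun x => c x ▸ r5 _ j⟩
    obtain ⟨U, k2, k3, k4⟩ := ((hr.mono s2).and ((h.mono s1).and s3)).exists
    exact k3 ⟨_, k2.2.2.2, k4⟩
  · obtain ⟨s, s1, s2, s3⟩ := key R1 r3 r4
      (fun U k => Mod.mem k ((natName b).val U) ∨ Mod.mem k ((nm A).val U)) (fun _ => by infer_instance)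
      fun s Z j v a b' c => by
        by_cases e : v < b
        · exact ⟨s, le_rfl, .of_forall (fun U => Or.inl (natName_mem e U)) _⟩
        · exact ((a2 s Z a b' v).1 fun x => c x ▸ (r6 _ j).resolve_left (c x ▸ e)).imp
            fun _ k => ⟨k.1, k.2.imp fun _ => Or.inr⟩
    obtain ⟨U, ⟨k1, k2⟩, k3, k4⟩ := (((hp.mono s2).and (hr.mono s2)).and ((h.mono s1).and s3)).exists
    obtain ⟨c, c1, c2⟩ := k3
    obtain ⟨k, k5, k6, k7⟩ := k1.1 _ _ _ k2.2.2.2 c1 (natName_mem_omega b U)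
    obtain ⟨m, m1, rfl⟩ := (mem_natName U k).1 ((k4 k k5).resolve_right (c2 k k6))
    exact lt_asymm m1 (natName_mem_iff.1 k7)

end Pool.Agent.P.MP_39acbb_lc.Mi
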