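import Pool.Agent.P.MP_af1204_lc.Inn.TFil

set_option autoImplicit false
set_option linter.unusedSectionVars false
set_option synthInstance.maxSize 4000

/-! Finite combinatorics in a model of ZFC: bounds, a Ramsey bound, non-rapid filters. -/

open Filter Function Pool.Agent.P.MP_af1204_lc.Inn

namespace Pool.Agent.P.MP_39acbb_lc.Gr

theorem imp_ex {α : Type} [Nonempty α] {p : Prop} {q : α → Prop} (h : p → ∃ x, q x) :
    ∃ x, p → q x := by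
  by_cases e : p
  exacts [(h e).imp fun _ a _ => a, ⟨Classical.arbitrary α, fun a => (e a).elim⟩]

variable [Md] {X : Type} [MT X]

theorem bdd (ix : X → NN) [DD ix] (hi : Injective ix) (P : X → NN → Prop) [DP2 P]
    (mono : ∀ x b b', b ≤ b' → P x b → P x b') (h : ∀ x, ∃ b, P x b) (N : NN) :
    ∃ b, ∀ x, ix x < N → P x b := by
  refine NN.ind (P := fun N => ∃ b, ∀ x, ix x < N → P x b) N
    ⟨0, fun x k => (NN.not_lt_zero _ k).elim⟩ fun n ⟨b, hb⟩ => ?_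
  by_cases e : ∃ x, ix x = n
  · obtain ⟨x, rfl⟩ := e
    obtain ⟨c, hc⟩ := h x
    refine ⟨max b c, fun y k => (NN.lt_suc_iff.1 k).eq_or_lt.elim (fun e => ?_) fun e =>
      mono _ _ _ (le_max_left _ _) (hb y e)⟩
    exact hi e ▸ mono _ _ _ (le_max_right _ _) hc
  · exact ⟨b, fun y k => hb y ((NN.lt_suc_iff.1 k).lt_of_ne fun e' => e ⟨y, e'⟩)⟩

theorem bdd2 (ix : X → NN) [DD ix] (hi : Injective ix) (f : X → X → NN) [DD2 f] (N : NN) :
    ∃ b, ∀ x y, ix x < N → ix y < N → f x y < b := by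
  obtain ⟨b, h⟩ := bdd ix hi (fun x b => ∀ y, ix y < N → f x y < b)
    (fun _ _ _ e h y k => (h y k).trans_le e) (fun x => bdd ix hi (fun y b => f x y < b)
      (fun _ _ _ e h => h.trans_le e) (fun y => ⟨_, NN.lt_suc _⟩) N) N
  exact ⟨b, fun x y k => h x k y⟩

theorem seq_rec (I : X → Prop) [DP I] (R : NN → X → X → Prop) [DP3 R] (z : X) (hz : I z)
    (h : ∀ n x, I x → ∃ y, I y ∧ R n x y) :
    ∃ f : Fn NN X, f 0 = z ∧ ∀ n, I (f n) ∧ R n (f n) (f n.suc) := by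
  have : Nonempty X := ⟨z⟩
  obtain ⟨F, hF⟩ := chsH (P := fun p : NN × X => I p.2) (R := fun p y => I y ∧ R p.1 p.2 y)
    fun p k => h p.1 p.2 k
  obtain ⟨f, _, h0, h1⟩ := NN.exists_rec ((0 : NN), z) fun p => (p.1.suc, F p)
  have k : ∀ n, (f n).1 = n ∧ I (f n).2 := fun n =>
    NN.ind (P := fun n => (f n).1 = n ∧ I (f n).2) n (by rw [h0]; exact ⟨rfl, hz⟩) fun n ih => by
      rw [h1]
      exact ⟨congrArg NN.suc ih.1, (hF _ ih.2).1⟩
  refine ⟨lm fun n => (f n).2, congrArg Prod.snd h0, fun n => ⟨(k n).2, ?_⟩⟩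
  have := (hF _ (k n).2).2
  rw [(k n).1] at this
  simpa only [lm_apply, h1] using this

theorem ex_pair : ∃ κ : Fn (NN × NN) NN, Injective κ :=
  (Cd.le_def _ _).1 (by rw [← Cd.mul_def, Cd.mk_nat, Cd.mul_eq_self le_rfl])

/-- at most `c` elements -/
def Sz (A : PS NN) (c : NN) : Prop :=
  ∃ a : Fn NN NN, (∀ i ∈ A, a i < c) ∧ ∀ i ∈ A, ∀ j ∈ A, a i = a j → i = j

instance {Γ : Type} [MC Γ] (A : Γ → PS NN) (c : Γ → NN) [DD A] [DD c] :
    DP fun g => Sz (A g) (c g) := by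
  unfold Sz; infer_instance

theorem ramsey (n : NN) : ∃ c, ∀ (Q : Fn NN (PS (NN × NN))) (r : PS NN),
    (∀ l i j k, i < j → j < k → (i, j) ∈ Q l → (i, k) ∈ Q l → (j, k) ∉ Q l) →
    (∀ i ∈ r, ∀ j ∈ r, i < j → ∃ l < n, (i, j) ∈ Q l) → Sz r c := by
  classical
  obtain ⟨κ, hκ⟩ := ex_pair
  refine NN.ind (P := fun n => ∃ c, ∀ (Q : Fn NN (PS (NN × NN))) (r : PS NN),
    (∀ l i j k, i < j → j < k → (i, j) ∈ Q l → (i, k) ∈ Q l → (j, k) ∉ Q l) →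
    (∀ i ∈ r, ∀ j ∈ r, i < j → ∃ l < n, (i, j) ∈ Q l) → Sz r c) n
    ⟨NN.suc 0, fun Q r _ h => ⟨Fn.const _ 0, fun _ _ => NN.lt_suc _, fun i hi j hj _ => ?_⟩⟩
    fun n ⟨c, ih⟩ => ?_
  · exact le_antisymm (not_lt.1 fun k => let ⟨_, e, _⟩ := h j hj i hi k; NN.not_lt_zero _ e)
      (not_lt.1 fun k => let ⟨_, e, _⟩ := h i hi j hj k; NN.not_lt_zero _ e)
  obtain ⟨b, hb⟩ := bdd2 (fun x => x) injective_id (fun l s => (κ (l, s)).suc) (max n.suc c)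
  refine ⟨b, fun Q r h1 h2 => ?_⟩
  rcases eq_empty_or_nonempty r with rfl | h
  · exact ⟨Fn.id, fun _ h => h.elim, fun _ h => h.elim⟩
  obtain ⟨a, ha, hm⟩ := wf_min (· ∈ r) h
  obtain ⟨f, hf⟩ := chsH (P := fun l => l < n.suc) (R := fun l (f : Fn NN NN) =>
    (∀ i ∈ sb fun j => j ∈ r ∧ a < j ∧ (a, j) ∈ Q l, f i < c) ∧
      ∀ i ∈ sb fun j => j ∈ r ∧ a < j ∧ (a, j) ∈ Q l,
        ∀ j ∈ sb fun j => j ∈ r ∧ a < j ∧ (a, j) ∈ Q l, f i = f j → i = j) fun l hl =>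
    ih (Q.update l (Q n)) _ (fun l' => by
      by_cases e : l' = l
      · rw [e, Fn.update_self]; exact h1 n
      · rw [Fn.update_of_ne e]; exact h1 l') fun i hi j hj e => by
      obtain ⟨l', k1, k2⟩ := h2 i hi.1 j hj.1 e
      have ne : l' ≠ l := fun e' => h1 l a i j hi.2.1 e hi.2.2 hj.2.2 (e' ▸ k2)
      rcases (NN.lt_suc_iff.1 k1).eq_or_lt with rfl | k
      · exact ⟨l, (NN.lt_suc_iff.1 hl).lt_of_ne ne.symm, by rwa [Fn.update_self]⟩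
      · exact ⟨l', k, by rwa [Fn.update_of_ne ne]⟩
  obtain ⟨g, hg⟩ := chsH (P := fun j => j ∈ r ∧ a < j) (R := fun j l => l < n.suc ∧ (a, j) ∈ Q l)
    fun j k => h2 a ha j k.1 k.2
  have lt : ∀ i ∈ r, i ≠ a → a < i := fun i hi e => (not_lt.1 (hm i hi)).lt_of_ne e.symm
  refine ⟨lm fun j => if j = a then 0 else (κ (g j, f (g j) j)).suc, fun i hi => ?_,
    fun i hi j hj => ?_⟩
  · rw [lm_apply]
    split_ifs with e
    · have := lt_max_of_lt_left (c := c) ((NN.zero_le n).trans_lt n.lt_suc)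
      exact (NN.zero_le _).trans_lt (hb 0 0 this this)
    · have k := hg i ⟨hi, lt i hi e⟩
      exact hb _ _ (lt_max_of_lt_left k.1)
        (lt_max_of_lt_right ((hf _ k.1).1 i ⟨hi, lt i hi e, k.2⟩))
  · simp only [lm_apply]
    split_ifs with e e' e'
    · exact fun _ => e.trans e'.symm
    · exact fun k => (NN.zero_ne_suc _ k).elim
    · exact fun k => (NN.suc_ne_zero _ k).elim
    · intro k
      obtain ⟨k1, k2⟩ := Prod.ext_iff.1 (hκ (NN.suc_inj.1 k))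
      have k3 := hg i ⟨hi, lt i hi e⟩
      have k4 := hg j ⟨hj, lt j hj e'⟩
      simp only at k1 k2
      rw [k1] at k2 k3
      exact (hf _ k4.1).2 i ⟨hi, lt i hi e, k3.2⟩ j ⟨hj, lt j hj e', k4.2⟩ k2

theorem ex_block (s : NN → NN) [DD s] (h : ∀ n, s n < s n.suc) (i : NN) (h0 : s 0 ≤ i) :
    ∃ n, s n ≤ i ∧ i < s n.suc := by
  have k : ∀ n, n ≤ s n := fun n => NN.ind (P := fun n => n ≤ s n) n (NN.zero_le _) fun n ih =>
    NN.suc_le_iff.2 (ih.trans_lt (h n))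
  obtain ⟨m, h1, h2⟩ := wf_min (fun n => i < s n) ⟨i.suc, i.lt_suc.trans_le (k _)⟩
  rcases m.cases with rfl | ⟨n, rfl⟩
  · exact (h0.not_gt h1).elim
  · exact ⟨n, not_lt.1 fun e => h2 n e n.lt_suc, h1⟩

/-- no filter on the natural numbers of the model is rapid -/
def NRt : Prop := ∀ u : PS (PS NN), (∀ a ∈ u, ∀ b ∈ u, ∀ n, ∃ k, k ∈ a ∧ k ∈ b ∧ n < k) →
  ∃ m : Fn NN NN, ∀ (e : Fn NN NN) (r : PS NN), (∀ j j', j' ≤ j → m j' ≤ e j) →
    (∀ k ∈ r, ∃ j, e j = k) → r ∉ u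

theorem NRt.slalom (h : NRt) (F : Filter X) [DF1 F] [F.NeBot] (f : X → NN) [DD f]
    (hf : Tendsto f F atTop) (c : NN → NN) [DD c] :
    ∃ T : Fn NN NN, ∀ A : PS X, A.s ∈ F → ∃ n, ¬Sz (image f A ∩ Iio (T n)) (c n) := by
  obtain ⟨κ, hκ⟩ := ex_pair
  obtain ⟨m, hm⟩ := h (sb fun r => ∀ᶠ x in F, f x ∈ r) fun a ha b hb n =>
    let ⟨x, k⟩ := ((Eventually.and ha hb).and (hf.eventually (eventually_gt_atTop n))).exists
    ⟨f x, k.1.1, k.1.2, k.2⟩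
  obtain ⟨M, hM⟩ := chs fun j : NN => bdd (fun x => x) injective_id (fun i b => m i ≤ b)
    (fun _ _ _ e h => h.trans e) (fun _ => ⟨_, le_rfl⟩) j.suc
  obtain ⟨T, -, hT⟩ := seq_rec (fun _ => True)
    (fun n a b => a < b ∧ ∀ s < c n.suc.suc, M (κ (n.suc, s)) ≤ b) 0 trivial fun n a _ => by
      obtain ⟨b, k⟩ := bdd (fun x => x) injective_id (fun s b => M (κ (n.suc, s)) ≤ b)
        (fun _ _ _ e h => h.trans e) (fun _ => ⟨_, le_rfl⟩) (c n.suc.suc)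
      exact ⟨max a.suc b, trivial, lt_max_of_lt_left a.lt_suc, fun s e => le_max_of_le_right (k s e)⟩
  refine ⟨T, fun A hA => by_contra fun k => ?_⟩
  push Not at k
  obtain ⟨a, ha⟩ := chs k
  have mo := (NN.strictMono_of_lt_suc fun n => (hT n).2.1).monotone
  obtain ⟨e, he⟩ := chs (R := fun j y => M j ≤ y ∧ ∀ n : NN, ∀ i ∈ image f A ∩ Iio (T n.suc.suc),
      T n.suc ≤ i → j = κ (n.suc, a n.suc.suc i) → y = i) fun j => by
    by_cases e : ∃ n : NN, ∃ i ∈ image f A ∩ Iio (T n.suc.suc), T n.suc ≤ i ∧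
      j = κ (n.suc, a n.suc.suc i)
    · obtain ⟨n, i, h1, h2, rfl⟩ := e
      refine ⟨i, ((hT n).2.2 _ ((ha _).1 i h1)).trans h2, fun n' i' g1 _ g2 => ?_⟩
      obtain ⟨k1, k2⟩ := Prod.ext_iff.1 (hκ g2)
      obtain rfl : n = n' := NN.suc_inj.1 k1
      exact (ha _).2 i h1 i' g1 k2
    · exact ⟨M j, le_rfl, fun n i h1 h2 h3 => (e ⟨n, i, h1, h2, h3⟩).elim⟩
  refine hm e (sb fun i => i ∈ image f A ∧ T (NN.suc 0) ≤ i)
    (fun j j' k => (hM j j' (NN.lt_suc_iff.2 k)).trans (he j).1) (fun i hi => ?_)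
    (((hf.eventually (eventually_ge_atTop _)).and hA).mono fun x k => ⟨⟨x, k.2, rfl⟩, k.1⟩)
  obtain ⟨n, k1, k2⟩ := ex_block (fun n => T n.suc) (fun n => (hT _).2.1) i hi.2
  exact ⟨_, (he _).2 n i ⟨hi.1, k2⟩ k1 rfl⟩

end Pool.Agent.P.MP_39acbb_lc.Gr
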