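import Pool.Agent.P.MP_39acbb_lc.Mi.B1

set_option autoImplicit false
set_option linter.unusedSectionVars false
set_option synthInstance.maxSize 4000

/-! Countable groups of the model: differences that avoid given sets; the tree of products. -/

open Filter Function Topology Pool.Agent.P.MP_af1204_lc.Inn

namespace Pool.Agent.P.MP_39acbb_lc.Gr

variable [Md]

/-- groups of the model -/
class GD (G : Type) [MT G] [Group G] : Prop where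
  mul : DD2 fun a b : G => a * b
  inv : DD fun a : G => a⁻¹

variable {G : Type} [MT G] [Group G] [GD G]

instance dd_gmul {Γ : Type} [MC Γ] (a b : Γ → G) [DD a] [DD b] : DD fun g => a g * b g :=
  GD.mul.out.comp fun g => ⟨a g, b g⟩

instance dd_ginv {Γ : Type} [MC Γ] (a : Γ → G) [DD a] : DD fun g => (a g)⁻¹ := GD.inv.comp a

variable {ix : G → NN} [DD ix]

theorem rs (h : NRt) (hi : Injective ix) (F : Filter G) [DF1 F] [F.NeBot]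
    (hF : Tendsto ix F atTop) (W : NN → PS G) [DD W]
    (hW : ∀ n, ∀ a ∈ W n, ∀ b ∈ W n, a⁻¹ * b ∉ W n) (Z A0 : PS G) (h0 : A0.s ∈ F)
    (hZ : ∀ g ∈ A0, ∃ N, ∀ x ∈ A0, N ≤ ix x → g⁻¹ * x ∉ Z) :
    ∃ ξ : PS G, (∀ x ∈ ξ, x ∉ Z) ∧ (∀ n, ∃ N, ∀ x ∈ ξ, x ∈ W n → ix x < N) ∧
      ∀ A ∈ F, ∃ a ∈ A, ∃ b ∈ A, a⁻¹ * b ∈ ξ := by
  obtain ⟨s, s0, hs⟩ := seq_rec (fun _ => True)
    (fun _ a b => a < b ∧ ∀ g, ix g < a → g ∈ A0 → ∀ x ∈ A0, b ≤ ix x → g⁻¹ * x ∉ Z) 0 trivial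
    fun _ a _ => by
      obtain ⟨b, k⟩ := bdd ix hi (fun g N => g ∈ A0 → ∀ x ∈ A0, N ≤ ix x → g⁻¹ * x ∉ Z)
        (fun _ _ _ e h g x k k' => h g x k (e.trans k'))
        (fun g => imp_ex (hZ g)) a
      exact ⟨max a.suc b, trivial, lt_max_of_lt_left a.lt_suc,
        fun g e e' x k1 k2 => k g e e' x k1 (le_of_max_le_right k2)⟩
  have mo := (NN.strictMono_of_lt_suc fun n => (hs n).2.1).monotone
  obtain ⟨f, hf⟩ := chs fun x : G => ex_block s (fun n => (hs n).2.1) (ix x)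
    (s0.trans_le (NN.zero_le _))
  obtain ⟨c, hc⟩ := chs fun n : NN => ramsey n.suc
  obtain ⟨T, hT⟩ := h.slalom F f (tendsto_atTop.2 fun n =>
    (hF.eventually (eventually_ge_atTop (s n))).mono fun x k => not_lt.1 fun e =>
      k.not_gt ((hf x).2.trans_le (mo (NN.suc_le_iff.2 e)))) c
  refine ⟨sb fun x => x ∉ Z ∧ ∃ n a b, f a < T n ∧ f b < T n ∧ x = a⁻¹ * b ∧ ∀ l < n, x ∉ W l,
    fun _ k => k.1, fun l => ?_, fun A hA => by_contra fun k => ?_⟩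
  · obtain ⟨t, ht⟩ := bdd (fun x => x) injective_id (fun n b => T n ≤ b) (fun _ _ _ e h => h.trans e)
      (fun _ => ⟨_, le_rfl⟩) l.suc
    obtain ⟨N, hN⟩ := bdd2 ix hi (fun a b => ix (a⁻¹ * b)) (s t)
    refine ⟨N, ?_⟩
    rintro _ ⟨-, n, a, b, h1, h2, rfl, h3⟩ k
    have := ht n (NN.lt_suc_iff.2 (not_lt.1 fun e => h3 l e k))
    exact hN a b ((hf a).2.trans_le (mo (NN.suc_le_iff.2 (h1.trans_le this))))
      ((hf b).2.trans_le (mo (NN.suc_le_iff.2 (h2.trans_le this))))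
  obtain ⟨B, b1, b2⟩ := DF1.ex (inter_mem hA h0)
  obtain ⟨n, hn⟩ := hT B b1
  have : Nonempty G := ⟨1⟩
  obtain ⟨γ, hγ⟩ := chsH (P := fun i => i ∈ image f B) (R := fun i x => x ∈ B ∧ f x = i) fun _ k => k
  refine hn (hc n (lm fun l => sb fun p => (l = n ∧ p.2 = p.1.suc) ∨
    (l ≠ n ∧ (γ p.1)⁻¹ * γ p.2 ∈ W l)) _ (fun l i j k _ e => ?_) fun i hi j hj e => ?_)
  · rintro (⟨h1, h2⟩ | ⟨h1, h2⟩) (⟨h3, h4⟩ | ⟨h3, h4⟩) (⟨h5, h6⟩ | ⟨h5, h6⟩) <;> try contradiction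
    · exact e.ne (h2.trans h4.symm)
    · exact hW l _ h2 _ h4 (by simpa [mul_assoc] using h6)
  · rcases (NN.suc_le_iff.2 e).eq_or_lt with e' | e'
    · exact ⟨n, n.lt_suc, Or.inl ⟨rfl, e'.symm⟩⟩
    · have g1 := hγ i hi.1
      have g2 := hγ j hj.1
      by_contra k'
      refine k ⟨_, (b2 g1.1).1, _, (b2 g2.1).1, (hs i.suc).2.2 _
        ((hf _).2.trans_eq (by rw [g1.2])) (b2 g1.1).2 _ (b2 g2.1).2 ((mo (NN.suc_le_iff.2 e')).trans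
          ((congrArg s g2.2).ge.trans (hf _).1)), n, _, _, g1.2.trans_lt hi.2, g2.2.trans_lt hj.2, rfl,
        fun l hl m => k' ⟨l, hl.trans n.lt_suc, Or.inr ⟨hl.ne, m⟩⟩⟩

variable [TopologicalSpace G] [IsTopologicalGroup G] [T2Space G] [DF1 (𝓝 (1 : G))]

theorem ev_tr {y : G} {p : G → Prop} : (∀ᶠ z in 𝓝 y, p z) ↔ ∀ᶠ v in 𝓝 1, p (y * v) := by
  rw [← map_mul_left_nhds_one, eventually_map]

theorem fr_tr {y : G} {p : G → Prop} : (∃ᶠ z in 𝓝 y, p z) ↔ ∃ᶠ v in 𝓝 1, p (y * v) :=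
  not_congr ev_tr

/-- there is a nonempty nowhere dense set without isolated points -/
def Concl (G : Type) [MT G] [TopologicalSpace G] : Prop :=
  ∃ A : PS G, A.Nonempty ∧ (∀ a ∈ A, ∃ᶠ z in 𝓝 a, z ≠ a ∧ z ∈ A) ∧
    ∀ y, ¬∀ᶠ z in 𝓝 y, z ∈ closure A.s

/-- discrete sets whose only accumulation point is the identity -/
structure Ds (ξ : PS G) : Prop where
  one : 1 ∉ ξ
  acc : ∃ᶠ x in 𝓝 1, x ∈ ξ
  cd : ∀ y ≠ 1, ∀ᶠ z in 𝓝 y, z ∈ ξ → z = y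

theorem ex_sym {V : Set G} (h : V ∈ 𝓝 1) :
    ∃ U : PS G, U.s ∈ 𝓝 1 ∧ (∀ a ∈ U, a⁻¹ ∈ U) ∧ ∀ a ∈ U, ∀ b ∈ U, a * b ∈ V := by
  obtain ⟨V1, h1, h2⟩ := exists_nhds_one_split h
  obtain ⟨B, b1, b2⟩ := DF1.ex h1
  exact ⟨sb fun a => a ∈ B ∧ a⁻¹ ∈ B, inter_mem b1 (inv_mem_nhds_one G b1),
    fun a k => ⟨k.2, by simpa using k.1⟩, fun a k b k' => h2 a (b2 k.1) b (b2 k'.1)⟩

theorem tree (hi : Injective ix) {ξ η : PS G} (h1 : Ds ξ) (h2 : Ds η) (hd : ∀ x ∈ ξ, x ∉ η) :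
    Concl G := by
  obtain ⟨U, -, hU⟩ := seq_rec (fun U : PS G => U.s ∈ 𝓝 1 ∧ ∀ a ∈ U, a⁻¹ ∈ U)
    (fun n U V => (∀ a ∈ V, ∀ b ∈ V, a * b ∈ U) ∧ ∀ y ≠ 1, ix y = n → y ∉ V ∧
      ∀ v ∈ V, y * v ∈ ξ ∨ y * v ∈ η → y * v = y) univ ⟨univ_mem, fun _ _ => trivial⟩
    fun n U k => by
      have : ∀ᶠ v in 𝓝 1, ∀ y ≠ 1, ix y = n → v ≠ y ∧ (y * v ∈ ξ ∨ y * v ∈ η → y * v = y) := by
        by_cases e : ∃ y ≠ 1, ix y = n
        · obtain ⟨y, e, rfl⟩ := e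
          filter_upwards [ev_tr.1 (h1.cd y e), ev_tr.1 (h2.cd y e), eventually_ne_nhds e.symm]
            with v a b c z _ e'
          exact hi e' ▸ ⟨c, fun k => k.elim a b⟩
        · exact Eventually.of_forall fun v y a b => (e ⟨y, a, b⟩).elim
      obtain ⟨V, v1, v2, v3⟩ := ex_sym (inter_mem k.1 this)
      have v4 := fun a k => (v3 a k 1 (mem_of_mem_nhds v1)).2
      simp only [mul_one] at v4
      exact ⟨V, ⟨v1, v2⟩, fun a k b k' => (v3 a k b k').1, fun y a b =>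
        ⟨fun k => (v4 y k y a b).1 rfl, fun v k => (v4 v k y a b).2⟩⟩
  have u1 : ∀ n, 1 ∈ U n := fun n => mem_of_mem_nhds (hU n).1.1
  have an : ∀ {m n}, m ≤ n → ∀ {a}, a ∈ U n → a ∈ U m := fun {m n} =>
    NN.ind (P := fun n => m ≤ n → ∀ {a}, a ∈ U n → a ∈ U m) n
      (fun e _ k => le_antisymm e (NN.zero_le m) ▸ k) fun n ih e a k =>
        e.eq_or_lt.elim (fun e => e ▸ k) fun e => ih (NN.lt_suc_iff.1 e)
          (mul_one a ▸ (hU n).2.1 a k 1 (u1 _))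
  have mu : ∀ {n j k a b}, n < j → n < k → a ∈ U j → b ∈ U k → a * b ∈ U n :=
    fun e e' k k' => (hU _).2.1 _ (an (NN.suc_le_iff.2 e) k) _ (an (NN.suc_le_iff.2 e') k')
  have iv : ∀ {n a}, a ∈ U n → a⁻¹ ∈ U n := fun k => (hU _).1.2 _ k
  have ne : ∀ x ∈ ξ, x ≠ 1 := fun x k e => h1.one (e ▸ k)
  have nu : ∀ y ≠ 1, ∀ n, y ∈ U n → n ≤ ix y := fun y e n k => not_lt.1 fun e' =>
    ((hU _).2.2 y e rfl).1 (an (NN.suc_le_iff.2 e') k)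
  have is : ∀ y ≠ 1, ∀ z, z ∈ ξ ∨ z ∈ η → y⁻¹ * z ∈ U (ix y).suc → z = y := fun y e z k k' => by
    simpa using ((hU _).2.2 y e rfl).2 _ k' (by simpa using k)
  have l1 : ∀ n : NN, n.suc < n.suc.suc := fun n => NN.lt_suc _
  let C : PS (NN × G) → Prop := fun B => (∀ m, (m, 1) ∈ B) ∧ ∀ m, ∀ x ∈ ξ, x ∈ U m → ∀ b,
    ((ix x).suc.suc.suc.suc, b) ∈ B → (m, x * b) ∈ B
  let A : NN → G → Prop := fun m a => ∀ B, C B → (m, a) ∈ B
  have a1 : ∀ m, A m 1 := fun m B k => k.1 m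
  have a2 : ∀ m, ∀ x ∈ ξ, x ∈ U m → ∀ b, A (ix x).suc.suc.suc.suc b → A m (x * b) :=
    fun m x e e' b k B k' => k'.2 m x e e' b (k B k')
  have a3 : ∀ m a, A m a → a = 1 ∨ ∃ x ∈ ξ, ∃ b, A (ix x).suc.suc.suc.suc b ∧ a = x * b :=
    fun m a k => (k (sb fun p => A p.1 p.2 ∧ (p.2 = 1 ∨ ∃ x ∈ ξ, ∃ b,
      A (ix x).suc.suc.suc.suc b ∧ p.2 = x * b)) ⟨fun m => ⟨a1 m, Or.inl rfl⟩,
        fun m x e e' b k => ⟨a2 m x e e' b k.1, Or.inr ⟨x, e, b, k.1, rfl⟩⟩⟩).2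
  have a4 : ∀ m a, A m a → ∀ j < m, a ∈ U j := fun m a k =>
    k (sb fun p => ∀ j < p.1, p.2 ∈ U j) ⟨fun _ _ _ => u1 _, fun m x e e' b k j hj =>
      mu hj hj e' (k m ((nu x (ne x e) m e').trans_lt ((ix x).lt_suc.trans ((l1 _).trans
        ((l1 _).trans (l1 _))))))⟩
  have a5 : ∀ m a, A m a → ∃ j, (∀ b, A j b → A m (a * b)) ∧
      ∃ l, ∀ u ∈ U l, A m (a * u) → A j u := fun m a k =>
    (k (sb fun p => A p.1 p.2 ∧ ∃ j, (∀ b, A j b → A p.1 (p.2 * b)) ∧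
      ∃ l, ∀ u ∈ U l, A p.1 (p.2 * u) → A j u) ⟨fun m => ⟨a1 m, m, by simp, 0, by simp⟩, by
        rintro m x e e' b ⟨k1, j, k2, l, k3⟩
        refine ⟨a2 m x e e' b k1, j, fun c k => mul_assoc x b c ▸ a2 m x e e' _ (k2 c k),
          max l (ix x).suc.suc.suc, fun u k4 k5 => k3 u (an (le_max_left _ _) k4) ?_⟩
        have k6 := mu (l1 _) (l1 _) (a4 _ _ k1 _ (l1 _)) (an (le_max_right _ _) k4)
        rcases a3 _ _ k5 with k7 | ⟨y, e1, c, k7, k8⟩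
        · rw [mul_assoc, mul_eq_one_iff_eq_inv] at k7
          exact ((nu x (ne x e) _ ((congrArg _ k7).mpr (iv k6))).not_gt
            ((ix x).lt_suc.trans (l1 _))).elim
        have k9 := a4 _ _ k7 _ (l1 _)
        simp only [mul_assoc] at k8
        obtain rfl : x = y := by
          rcases le_or_gt (ix x) (ix y) with e2 | e2
          · refine (is x (ne x e) y (Or.inl e1) ?_).symm
            rw [show x⁻¹ * y = b * u * c⁻¹ by rw [eq_mul_inv_iff_mul_eq, mul_assoc, ← k8]; simp]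
            exact mu (l1 _) ((NN.lt_suc_iff.2 (NN.suc_le_suc.2 e2)).trans (l1 _)) k6 (iv k9)
          · refine is y (ne y e1) x (Or.inl e) ?_
            rw [show y⁻¹ * x = c * (b * u)⁻¹ by rw [eq_mul_inv_iff_mul_eq, mul_assoc, k8]; simp]
            exact mu ((l1 _).trans (l1 _)) (NN.lt_suc_iff.2 (NN.suc_le_suc.2 e2.le)) k9 (iv k6)
        exact mul_left_cancel k8 ▸ k7⟩).2
  refine ⟨sb (A 0), ⟨1, a1 0⟩, fun a k => ?_, fun y k => ?_⟩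
  · obtain ⟨j, k1, -⟩ := a5 0 a k
    exact fr_tr.2 ((h1.acc.and_eventually (hU j).1.1).mono fun x e => ⟨by simpa using ne x e.1,
      k1 x (mul_one x ▸ a2 j x e.1 e.2 1 (a1 _))⟩)
  obtain ⟨a, k1, k2⟩ := ((mem_closure_iff_frequently.1 k.self_of_nhds).and_eventually
    k.eventually_nhds).exists
  obtain ⟨j, -, l, k3⟩ := a5 0 a k1
  obtain ⟨u, g1, g2, g3⟩ := (h2.acc.and_eventually ((ev_tr.1 k2).and (hU l.suc).1.1)).exists
  have e : u ≠ 1 := fun e => h2.one (e ▸ g1)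
  obtain ⟨v, g4, g5, g6⟩ := ((fr_tr.1 (mem_closure_iff_frequently.1 g2)).and_eventually
    (Eventually.and (hU l.suc).1.1 (hU (ix u).suc.suc.suc).1.1)).exists
  rcases a3 _ _ (k3 _ (mu l.lt_suc l.lt_suc g3 g5) (mul_assoc a u v ▸ g4)) with k7 | ⟨x, e1, c, k7, k8⟩
  · rw [mul_eq_one_iff_eq_inv] at k7
    exact (nu u e _ ((congrArg _ k7).mpr (iv g6))).not_gt ((ix u).lt_suc.trans ((l1 _).trans (l1 _)))
  have k9 := a4 _ _ k7 _ (l1 _)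
  refine hd x e1 ?_
  rcases le_or_gt (ix x) (ix u) with e2 | e2
  · rw [← is x (ne x e1) u (Or.inr g1) ?_]
    · exact g1
    · rw [show x⁻¹ * u = c * v⁻¹ by rw [eq_mul_inv_iff_mul_eq, mul_assoc, k8]; simp]
      exact mu ((l1 _).trans (l1 _)) ((NN.lt_suc_iff.2 (NN.suc_le_suc.2 e2)).trans (l1 _)) k9 (iv g6)
  · rw [is u e x (Or.inl e1) ?_]
    · exact g1
    · rw [show u⁻¹ * x = v * c⁻¹ by rw [eq_mul_inv_iff_mul_eq, mul_assoc, ← k8]; simp]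
      exact mu ((l1 _).trans (l1 _)) ((NN.lt_suc_iff.2 (NN.suc_le_suc.2 e2.le)).trans (l1 _)) g6 (iv k9)

end Pool.Agent.P.MP_39acbb_lc.Gr
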