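import Pool.Agent.P.MP_39acbb_lc.Mi.B2

set_option autoImplicit false
set_option linter.unusedSectionVars false
set_option synthInstance.maxSize 4000

/-! Boolean groups, countable groups, groups with a countable set that is not closed. -/

open Filter Function Topology Pool.Agent.P.MP_af1204_lc.Inn

namespace Pool.Agent.P.MP_39acbb_lc.Gr

variable [Md] {G : Type} [MT G] [Group G] [GD G] {ix : G → NN} [DD ix]

theorem ex_char (hi : Injective ix) (hb : ∀ x : G, x * x = 1) {g : G} (hg : g ≠ 1) :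
    ∃ W : PS G, (∀ a ∈ W, ∀ b ∈ W, a⁻¹ * b ∉ W) ∧ ∀ x, x ∈ W ∨ g⁻¹ * x ∈ W := by
  have iv : ∀ x : G, x⁻¹ = x := fun x => inv_eq_of_mul_eq_one_right (hb x)
  have co : ∀ x y : G, x * y = y * x := fun x y => by rw [← iv (x * y), mul_inv_rev, iv, iv]
  let _ : CommGroup G := { mul_comm := co }
  obtain ⟨K, -, hK⟩ := seq_rec (fun K : PS G => 1 ∈ K ∧ g ∉ K ∧ ∀ a ∈ K, ∀ b ∈ K, a * b ∈ K)
    (fun n K L => K ⊆ L ∧ ∀ x, ix x = n → x ∈ L ∨ g * x ∈ L) {1}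
    ⟨rfl, hg, fun a (h : a = 1) b (h' : b = 1) => (by rw [h, h', mul_one] : a * b = 1)⟩
    fun n K ⟨k1, k2, k3⟩ => by
      by_cases e : ∃ x, ix x = n ∧ g * x ∉ K
      · obtain ⟨x, rfl, e⟩ := e
        refine ⟨sb fun a => a ∈ K ∨ x * a ∈ K, ⟨Or.inl k1, fun k => k.elim k2 fun k => e (co x g ▸ k),
          ?_⟩, fun _ => Or.inl, fun y e' => Or.inl (Or.inr (by rwa [hi e', hb]))⟩
        rintro a (h | h) b (h' | h')
        · exact Or.inl (k3 a h b h')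
        · exact Or.inr (mul_left_comm a x b ▸ k3 a h _ h')
        · exact Or.inr (mul_assoc x a b ▸ k3 _ h b h')
        · exact Or.inl (by simpa only [mul_mul_mul_comm x a, hb, one_mul] using k3 _ h _ h')
      · exact ⟨K, ⟨k1, k2, k3⟩, fun _ => id, fun x e' => Or.inr (not_not.1 fun k => e ⟨x, e', k⟩)⟩
  have mo : Monotone K := fun m n => NN.ind (P := fun n => m ≤ n → K m ⊆ K n) n
    (fun e => le_antisymm e (NN.zero_le m) ▸ le_rfl) fun n ih e => e.eq_or_lt.elim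
      (fun e => e ▸ le_rfl) fun e => (ih (NN.lt_suc_iff.1 e)).trans (hK n).2.1
  have mu : ∀ a ∈ iU K, ∀ b ∈ iU K, a * b ∈ iU K := fun a ⟨m, h⟩ b ⟨n, h'⟩ =>
    ⟨max m n, (hK _).1.2.2 a (mo (le_max_left m n) h) b (mo (le_max_right m n) h')⟩
  have al : ∀ x, x ∉ iU K → g * x ∈ iU K := fun x h =>
    ⟨_, ((hK _).2.2 x rfl).resolve_left fun k => h ⟨_, k⟩⟩
  refine ⟨(iU K)ᶜ, fun a h b h' k => k ?_, fun x => by_contra fun k => ?_⟩
  · simpa only [mul_mul_mul_comm g a, hb, one_mul, iv] using mu _ (al a h) _ (al b h')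
  · simp only [not_or, mem_compl_iff, not_not] at k
    obtain ⟨n, h⟩ := mu _ k.2 _ k.1
    rw [mul_assoc, hb, mul_one, iv] at h
    exact (hK n).1.2.1 h

variable [TopologicalSpace G] [IsTopologicalGroup G] [T2Space G] [DF1 (𝓝 (1 : G))]

theorem fin_ev (hi : Injective ix) (y : G) (N : NN) : ∀ᶠ z in 𝓝 y, ix z < N → z = y := by
  refine ev_tr.2 (NN.ind (P := fun N => ∀ᶠ v in 𝓝 1, ix (y * v) < N → y * v = y) N
    (Eventually.of_forall fun _ k => (NN.not_lt_zero _ k).elim) fun n ih => ?_)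
  by_cases e : ∃ x ≠ y, ix x = n
  · obtain ⟨x, e, rfl⟩ := e
    filter_upwards [ih, ev_tr.1 (eventually_ne_nhds e.symm)] with v a b k
    exact a ((NN.lt_suc_iff.1 k).lt_of_ne fun e' => b (hi e'))
  · exact ih.mono fun v a k => by_contra fun b =>
      (NN.lt_suc_iff.1 k).eq_or_lt.elim (fun e' => e ⟨_, b, e'⟩) fun e' => b (a e')

instance (A : PS G) : DF1 (𝓝 1 ⊓ 𝓟 A.s) :=
  let ⟨B, h⟩ := DF1.out (F := 𝓝 (1 : G))
  ⟨image (· ∩ A) B, fun _ => mem_inf_principal.trans ((h _).trans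
    ⟨fun ⟨C, a, b⟩ => ⟨_, ⟨C, a, rfl⟩, fun _ k => b k.1 k.2⟩,
      fun ⟨_, ⟨C, a, e⟩, b⟩ => ⟨C, a, fun _ k k' => b (e ▸ ⟨k, k'⟩)⟩⟩)⟩

theorem ex_ds (h : NRt) (hi : Injective ix) (W : NN → PS G) [DD W]
    (hW : ∀ n, ∀ a ∈ W n, ∀ b ∈ W n, a⁻¹ * b ∉ W n) (Z A : PS G) (h0 : 1 ∉ A)
    (h1 : ∃ᶠ x in 𝓝 1, x ∈ A) (h2 : 1 ∈ Z) (hZ : ∀ g ∈ A, ∃ N, ∀ x ∈ A, N ≤ ix x → g⁻¹ * x ∉ Z) :
    ∃ ξ : PS G, Ds ξ ∧ (∀ x ∈ ξ, x ∉ Z) ∧ ∀ n, ∃ N, ∀ x ∈ ξ, x ∈ W n → ix x < N := by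
  have : (𝓝 1 ⊓ 𝓟 A.s).NeBot := frequently_mem_iff_neBot.1 h1
  obtain ⟨κ, hκ⟩ := ex_pair
  obtain ⟨V, hV⟩ := chs (R := fun (n : NN) (V : PS G) => (∀ a ∈ V, ∀ b ∈ V, a⁻¹ * b ∉ V) ∧
      ∀ y : G, y ≠ 1 → ix y = n → ∀ᶠ v in nhds (X := G) 1, y * v ∈ V) fun n => by
    by_cases e : ∃ y ≠ 1, ix y = n
    · obtain ⟨y, e, rfl⟩ := e
      obtain ⟨U, u1, u2, u3⟩ := ex_sym (eventually_ne_nhds e.symm)
      obtain ⟨U', v1, v2, v3⟩ := ex_sym u1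
      refine ⟨sb fun a => y⁻¹ * a ∈ U', fun a k b k' k'' => ?_, fun z _ e' => hi e' ▸ ?_⟩
      · refine u3 _ (v3 _ (v2 _ k) _ k') _ (v3 _ (v2 _ k'') 1 (mem_of_mem_nhds v1)) ?_
        simp [mul_assoc]
      · exact mem_of_superset v1 fun v k => by simpa using k
    · exact ⟨∅, fun _ k => k.elim, fun y a b => (e ⟨y, a, b⟩).elim⟩
  obtain ⟨ξ, k1, k2, k3⟩ := rs h hi (𝓝 1 ⊓ 𝓟 A.s) (tendsto_atTop.2 fun N =>
    eventually_inf_principal.2 ((fin_ev hi 1 N).mono fun x a b => not_lt.1 fun e => h0 (a e ▸ b)))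
    (fun l => sb fun x => ∃ n, l = κ (n, 0) ∧ x ∈ W n ∨ l = κ (n, NN.suc 0) ∧ x ∈ V n) (by
      rintro l a ⟨n, a1 | a1⟩ b ⟨m, b1 | b1⟩ ⟨k, c1 | c1⟩ <;>
        have e1 := Prod.ext_iff.1 (hκ (a1.1.symm.trans b1.1)) <;>
        have e2 := Prod.ext_iff.1 (hκ (a1.1.symm.trans c1.1)) <;>
        simp only [NN.zero_ne_suc, NN.suc_ne_zero, and_false, and_true] at e1 e2
      · exact hW n a a1.2 b (e1 ▸ b1.2) (e2 ▸ c1.2)
      · exact (hV n).1 a a1.2 b (e1 ▸ b1.2) (e2 ▸ c1.2)) Z A (mem_inf_of_right (mem_principal_self _)) hZ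
  refine ⟨ξ, ⟨fun k => k1 1 k h2, frequently_iff.2 fun {U} hU => ?_, fun y e => ?_⟩, k1,
    fun n => (k2 (κ (n, 0))).imp fun N k x a b => k x a ⟨n, Or.inl ⟨rfl, b⟩⟩⟩
  · obtain ⟨U', u1, u2, u3⟩ := ex_sym hU
    obtain ⟨a, a1, b, b1, k⟩ := k3 _ (mem_inf_of_left u1)
    exact ⟨_, u3 _ (u2 a a1) b b1, k⟩
  · obtain ⟨N, k⟩ := k2 (κ (ix y, NN.suc 0))
    filter_upwards [fin_ev hi y N, (ev_tr (p := (· ∈ V (ix y)))).2 ((hV _).2 y e rfl)] with z a b c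
    exact a (k z c ⟨_, Or.inr ⟨rfl, b⟩⟩)

theorem far (g : G) : ∃ N, ∀ x, N ≤ ix x → g⁻¹ * x ≠ 1 :=
  ⟨(ix g).suc, fun _ k e => (NN.suc_le_iff.1 k).ne (congrArg ix (inv_mul_eq_one.1 e))⟩

theorem boolean (h : NRt) (hi : Injective ix) (hb : ∀ x : G, x * x = 1)
    (h1 : ∃ᶠ x in 𝓝 (1 : G), x ≠ 1) : Concl G := by
  obtain ⟨W, hW⟩ := chs (R := fun (n : NN) (W : PS G) => (∀ a ∈ W, ∀ b ∈ W, a⁻¹ * b ∉ W) ∧
      ∀ g ≠ 1, ix g = n → ∀ x, x ∈ W ∨ g⁻¹ * x ∈ W) fun n => by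
    by_cases e : ∃ y ≠ 1, ix y = n
    · obtain ⟨y, e, rfl⟩ := e
      exact (ex_char hi hb e).imp fun W k => ⟨k.1, fun z _ e' => hi e' ▸ k.2⟩
    · exact ⟨∅, fun _ k => k.elim, fun y a b => (e ⟨y, a, b⟩).elim⟩
  obtain ⟨ξ, k1, -, k2⟩ := ex_ds h hi W (fun n => (hW n).1) {1} {1}ᶜ (fun k => k rfl) h1 rfl
    fun g _ => (far g).imp fun N k x _ => k x
  obtain ⟨ζ, k3, k4, -⟩ := ex_ds h hi (fun _ => ∅) (fun _ _ k => k.elim) (insert 1 ξ) ξ k1.one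
    k1.acc (Or.inl rfl) fun g e => by
      obtain ⟨N, k⟩ := k2 (ix g)
      obtain ⟨M, k'⟩ := bdd ix hi (fun x b => ix (g * x) < b) (fun _ _ _ e h => h.trans_le e)
        (fun _ => ⟨_, NN.lt_suc _⟩) N
      obtain ⟨L, k''⟩ := far (ix := ix) g
      refine ⟨max L (max N M), fun x a b c => c.elim (k'' x (le_of_max_le_left b)) fun c => ?_⟩
      have := max_le_iff.1 (le_of_max_le_right b)
      rcases (hW _).2 g (fun e' => k1.one (e' ▸ e)) rfl x with d | d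
      · exact this.1.not_gt (k x a d)
      · exact this.2.not_gt (by simpa using k' _ (k _ c d))
  exact tree hi k3 k1 fun x k e => k4 x k (Or.inr e)

instance (H : Subgroup G) [DP (· ∈ H)] : GD H :=
  ⟨⟨(inferInstance : DD fun p : Cx fun _ : H => H => p.1.1 * p.2.1).of_enc fun _ => rfl⟩,
    (inferInstance : DD fun a : H => a.1⁻¹).of_enc fun _ => rfl⟩

instance (H : Subgroup G) [DP (· ∈ H)] : DF1 (𝓝 (1 : H)) :=
  let ⟨B, h⟩ := DF1.out (F := 𝓝 (1 : G))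
  ⟨image (preimage Subtype.val) B, fun _ => (mem_nhds_subtype _ _ _).trans
    ⟨fun ⟨_, a, b⟩ => let ⟨C, c, d⟩ := (h _).1 a; ⟨_, ⟨C, c, rfl⟩, fun _ k => b (d k)⟩,
      fun ⟨_, ⟨C, a, e⟩, b⟩ => ⟨C.s, (h _).2 ⟨C, a, fun _ => id⟩, fun _ k => b (e ▸ k)⟩⟩⟩

theorem Concl.sub (H : Subgroup G) [DP (· ∈ H)] (h : Concl H) : Concl G := by
  obtain ⟨A, ⟨a, a1⟩, a2, a3⟩ := h
  refine ⟨image Subtype.val A, ⟨_, a, a1, rfl⟩, ?_, fun y k => ?_⟩
  · rintro _ ⟨a, k, rfl⟩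
    exact (continuous_subtype_val.tendsto a).frequently ((a2 a k).mono fun z e =>
      ⟨fun e' => e.1 (Subtype.ext e'), z, e.2, rfl⟩)
  · obtain ⟨_, ⟨a, -, rfl⟩, k2⟩ := ((mem_closure_iff_frequently.1 k.self_of_nhds).and_eventually
      k.eventually_nhds).exists
    exact a3 a (((continuous_subtype_val.tendsto a).eventually k2).mono fun z e =>
      closure_subtype.2 e)

theorem fixed (hi : Injective ix) (hc : ¬Concl G) {ξ : PS G} (h : Ds ξ) (f : G → G) [DD f]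
    (h1 : Continuous f) (h2 : f 1 = 1) (h3 : ∀ x, f (f x) = x) : ∀ᶠ x in 𝓝 1, x ∈ ξ → f x = x := by
  have inj : Injective f := LeftInverse.injective h3
  have key : ∀ (P : G → Prop) [DP P], (∀ x, P x → ¬P (f x)) → ∀ᶠ x in 𝓝 1, ¬(x ∈ ξ ∧ P x) :=
    fun P _ hP => by_contra fun k => hc (tree hi (ξ := sb fun x => x ∈ ξ ∧ P x)
      (η := sb fun x => f x ∈ ξ ∧ P (f x)) ⟨fun e => h.one e.1, k, fun y e =>
        (h.cd y e).mono fun _ a b => a b.1⟩ ⟨fun e => h.one (h2 ▸ e.1),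
          (h1.tendsto' 1 1 h2).frequently (Frequently.mono k fun x e => by simpa [h3] using e),
          fun y e => ((h1.tendsto y).eventually (h.cd _ fun e' => e (inj (e'.trans h2.symm)))).mono
            fun _ a b => inj (a b.1)⟩ fun x a b => hP x a.2 b.2)
  filter_upwards [key (fun x => ix x < ix (f x)) fun x a b => lt_asymm a (by rwa [h3] at b),
    key (fun x => ix (f x) < ix x) fun x a b => lt_asymm a (by rwa [h3] at b)] with x a b c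
  exact hi (le_antisymm (not_lt.1 fun e => a ⟨c, e⟩) (not_lt.1 fun e => b ⟨c, e⟩))

theorem opn (hc : ¬Concl G) (P : G → Prop) [DP P] (h1 : P 1) (h2 : IsClosed {x | P x})
    (h3 : ∀ a, P a → ∃ᶠ x in 𝓝 1, x ≠ 1 ∧ P (a * x)) : ∃ y, ∀ᶠ v in 𝓝 1, P (y * v) :=
  by_contra fun k => hc ⟨sb P, ⟨1, h1⟩, fun a e => fr_tr.2 ((h3 a e).mono fun x e =>
    ⟨by simpa using e.1, e.2⟩), fun y e => k ⟨y, ev_tr.1 (e.mono fun _ k => h2.closure_subset k)⟩⟩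

theorem countable (h : NRt) (hi : Injective ix) (h1 : ∃ᶠ x in 𝓝 (1 : G), x ≠ 1) : Concl G := by
  by_contra hc
  obtain ⟨ξ, k1, -, -⟩ := ex_ds h hi (fun _ => ∅) (fun _ _ k => k.elim) {1} {1}ᶜ (fun k => k rfl) h1
    rfl fun g _ => (far g).imp fun N k x _ => k x
  have a1 := fixed hi hc k1 (fun x => x⁻¹) continuous_inv inv_one inv_inv
  have a2 : ∀ y : G, y * y = 1 → ∃ᶠ x in 𝓝 1, x ≠ 1 ∧ x * x = 1 ∧ y * x = x * y := fun y e =>
    (k1.acc.and_eventually (a1.and (fixed hi hc k1 (fun x => y * x * y) (by fun_prop) (by simpa using e)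
      fun x => by simp only [← mul_assoc, e, one_mul]; rw [mul_assoc, e, mul_one]))).mono
      fun x k => ⟨fun e => k1.one (e ▸ k.1), inv_eq_iff_mul_eq_one.1 (k.2.1 k.1), by
        simpa only [mul_assoc, e, mul_one] using congrArg (· * y) (k.2.2 k.1)⟩
  obtain ⟨y, a3⟩ := opn hc (fun x => x * x = 1) (mul_one 1) (isClosed_eq (by fun_prop) (by fun_prop))
    fun a e => (a2 a e).mono fun x k => ⟨k.1, by
      rw [mul_assoc, ← mul_assoc x, ← k.2.2, mul_assoc, k.2.1, mul_one, e]⟩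
  have a4 : y * y = 1 := by simpa using a3.self_of_nhds
  obtain ⟨z, a5⟩ := opn hc (fun x => y * x = x * y) (by simp)
    (isClosed_eq (by fun_prop) (by fun_prop)) fun a e => (a2 y a4).mono fun x k => ⟨k.1, by
      rw [← mul_assoc, e, mul_assoc, k.2.2, mul_assoc]⟩
  have a6 : y * z = z * y := by simpa using a5.self_of_nhds
  obtain ⟨B, b1, b2, b3⟩ := ex_sym (V := {v : G | v * v = 1}) ((a3.and a5).mono fun v k => by
    have e : y * v = v * y := mul_left_cancel (a := z) (by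
      rw [← mul_assoc, ← a6, mul_assoc, k.2, mul_assoc])
    have := k.1
    rwa [mul_assoc, ← mul_assoc v, ← e, ← mul_assoc, ← mul_assoc, a4, one_mul] at this)
  have b4 : ∀ a ∈ B, a * a = 1 := fun a k => by simpa using b3 a k 1 (mem_of_mem_nhds b1)
  let H : Subgroup G :=
    { carrier := {a | a * a = 1 ∧ (∀ b ∈ B, a * b = b * a) ∧
        ∀ c, (∀ b ∈ B, c * b = b * c) → a * c = c * a}
      mul_mem' := fun {a c} k k' => ⟨by
        rw [mul_assoc, ← mul_assoc c, ← k.2.2 c k'.2.1, mul_assoc, k'.1, mul_one, k.1],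
        fun b e => by rw [mul_assoc, k'.2.1 b e, ← mul_assoc, k.2.1 b e, mul_assoc],
        fun b e => by rw [mul_assoc, k'.2.2 b e, ← mul_assoc, k.2.2 b e, mul_assoc]⟩
      one_mem' := by simp
      inv_mem' := fun {a} k => (inv_eq_of_mul_eq_one_right k.1).symm ▸ k }
  have : DP (· ∈ H) := (inferInstance : DP fun a => a * a = 1 ∧ (∀ b ∈ B, a * b = b * a) ∧
    ∀ c, (∀ b ∈ B, c * b = b * c) → a * c = c * a)
  have b5 : ∀ a ∈ B, a ∈ H := fun a k => ⟨b4 a k, fun b k' => by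
    rw [← inv_eq_of_mul_eq_one_right (b3 a k b k'), mul_inv_rev,
      inv_eq_of_mul_eq_one_right (b4 a k), inv_eq_of_mul_eq_one_right (b4 b k')],
    fun c e => (e a k).symm⟩
  refine hc (Concl.sub H (boolean (ix := fun x => ix x.1) h (fun _ _ e => Subtype.ext (hi e))
    (fun x => Subtype.ext x.2.1) ?_))
  rw [nhds_subtype, frequently_comap]
  exact (h1.and_eventually b1).mono fun x k => ⟨⟨x, b5 x k.2⟩, rfl, fun e => k.1 (congrArg Subtype.val e)⟩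

theorem general (h : NRt) (C : PS G) (hC : cd C ≤ Cd.aleph0) (p : G)
    (hp : ∃ᶠ z in 𝓝 p, z ≠ p ∧ z ∈ C) : Concl G := by
  obtain ⟨K, k0, hK⟩ := seq_rec (fun K : PS G => 1 ∈ K ∧ cd K ≤ Cd.aleph0)
    (fun _ K L => ∀ a ∈ K, ∀ b ∈ K, a * b⁻¹ ∈ L) (insert 1 (image (p⁻¹ * ·) C))
    ⟨Or.inl rfl, Cd.mk_insert_le.trans (Cd.add_le_of_le le_rfl (Cd.mk_image_le.trans hC)
      Cd.one_le_aleph0)⟩ fun _ K k => ⟨image (fun q => q.1 * q.2⁻¹) (K ×ˢ K),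
        ⟨⟨(1, 1), ⟨k.1, k.1⟩, by simp⟩, Cd.mk_image_le.trans ((Cd.mk_setProd _ _).trans_le
          (Cd.mul_le_of_le le_rfl k.2 k.2))⟩, fun a e b e' => ⟨(a, b), ⟨e, e'⟩, rfl⟩⟩
  have mo : Monotone K := fun m n => NN.ind (P := fun n => m ≤ n → K m ⊆ K n) n
    (fun e => le_antisymm e (NN.zero_le m) ▸ le_rfl) fun n ih e => e.eq_or_lt.elim
      (fun e => e ▸ le_rfl) fun e => (ih (NN.lt_suc_iff.1 e)).trans fun a k => by
        simpa using (hK n).2 a k 1 (hK n).1.1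
  let H := Subgroup.ofDiv (iU K).s ⟨1, 0, (hK 0).1.1⟩ fun a ⟨m, k⟩ b ⟨n, k'⟩ =>
    ⟨_, (hK (max m n)).2 a (mo (le_max_left m n) k) b (mo (le_max_right m n) k')⟩
  have : DP (· ∈ H) := (iU K).dp
  obtain ⟨f, hf⟩ := (Cd.le_def H NN).1 ((Cd.mk_iUnion_le K).trans ((Cd.mul_le_of_le le_rfl
    Cd.mk_nat.le (Cd.sup_le fun n => (hK n).1.2)).trans Cd.mk_nat.ge))
  refine Concl.sub H (countable h hf ?_)
  rw [nhds_subtype, frequently_comap]
  exact (fr_tr.1 hp).mono fun x k => ⟨⟨x, 0, k0 ▸ Or.inr ⟨_, k.2, by simp⟩⟩, rfl,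
    fun e => k.1 (by simpa using congrArg Subtype.val e)⟩

end Pool.Agent.P.MP_39acbb_lc.Gr
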