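import Pool.Agent.P.MP_39acbb_lc.Mi.A9
import Pool.Agent.P.MP_39acbb_lc.Mi.B3
import Pool.Agent.P.MP_39acbb_lc.Mi.Defs
import Pool.Agent.P.MP_af1204_lc.Lk.Count

set_option autoImplicit false
set_option linter.unusedSectionVars false
set_option synthInstance.maxSize 4000

/-! The statement in the model. -/

open Filter Function Topology Pool.Agent.P.MP_af1204_lc.Inn Pool.Agent.Lib.PosetForcing
open Pool.Agent.P.MP_5f3b23_lc.Zf (mm op op_inj om app_iff isPair_iff isFun_iff leCard_iff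
  isOmega_iff mem_pow Zm UD)
open Pool.Agent.P.MP_39acbb_lc.Mi (NR nr)

namespace Pool.Agent.P.MP_39acbb_lc.Gr

section
variable [Md] {X Y : Type} [MT X] [MT Y]

theorem app_code {f : Fn X Y} {x y : MM} :
    App mm f.code x y ↔ ∃ a, enc a = x ∧ enc (f a) = y :=
  app_iff.trans (Fn.mem_code.trans (exists_congr fun _ => ⟨op_inj, fun h => by rw [h.1, h.2]⟩))

theorem fun_code {m : MM} : IsFun mm m (car X) (car Y) ↔ ∃ f : Fn X Y, f.code = m :=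
  isFun_iff.trans (fn_car m)

theorem ex_ps {a V : MM} (h : IsSub mm V a) : ∃ A : PS (El a), A.code = V :=
  (ps_car V).1 (mem_pow.2 ((car_El a).symm ▸ h))

theorem nrt (h : NR (mm (M := MM))) : NRt := by
  intro u hu
  obtain ⟨m, h1, h2⟩ := h om u.code (isOmega_iff.2 rfl) fun a b n ha hb hn => by
    obtain ⟨A, a1, rfl⟩ := PS.mem_code.1 ha
    obtain ⟨B, b1, rfl⟩ := PS.mem_code.1 hb
    obtain ⟨k, k1, k2, k3⟩ := hu A a1 B b1 (El.mk n hn)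
    exact ⟨k.v, PS.enc_mem_code.2 k1, PS.enc_mem_code.2 k2, k3⟩
  have fc : ∀ {m : MM}, IsFun mm m om om ↔ ∃ f : Fn NN NN, f.code = m := by
    simpa only [car_El] using @fun_code _ NN NN _ _
  obtain ⟨m, rfl⟩ := fc.1 h1
  refine ⟨m, fun e r k1 k2 k3 => h2 e.code r.code (fc.2 ⟨e, rfl⟩) ?_ (fun k hk => ?_)
    (PS.enc_mem_code.2 k3)⟩
  · intro j j' y y' a b c
    obtain ⟨j', rfl, rfl⟩ := app_code.1 a
    obtain ⟨j, rfl, rfl⟩ := app_code.1 b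
    exact (k1 j j' (c.elim (fun e => (El.ext e).le) fun e => le_of_lt e)).eq_or_lt.imp (congrArg El.v) id
  · obtain ⟨k, a, rfl⟩ := PS.mem_code.1 hk
    obtain ⟨j, rfl⟩ := k2 k a
    exact ⟨_, app_code.2 ⟨j, rfl, rfl⟩⟩

theorem stmt (h : NRt) : CountableCase (mm (M := MM)) := by
  rintro w g m e T hw ⟨⟨P, p1, p2⟩, g1, g2, g3⟩ ⟨t1, t2, t3, -⟩ hH hC ⟨C, p, c1, c2, c3, c4⟩
  obtain rfl := isOmega_iff.1 hw
  obtain rfl : P = car (El g × El g) := zext fun p => (p1 p).trans (Iff.trans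
    ⟨fun ⟨x, y, a, b, c⟩ => ⟨(⟨x, a⟩, ⟨y, b⟩), (isPair_iff.1 c).symm⟩,
      fun ⟨q, c⟩ => ⟨_, _, q.1.2, q.2.2, isPair_iff.2 c.symm⟩⟩ mem_car.symm)
  obtain ⟨f, rfl⟩ := (fun_code (X := El g × El g) (Y := El g)).1 (by rwa [car_El])
  have o1 : ∀ {x y z}, Op mm f.code x y z ↔ ∃ a b : El g, a.v = x ∧ b.v = y ∧ (f (a, b)).v = z :=
    ⟨fun ⟨_, a, b⟩ => let ⟨q, c, d⟩ := app_code.1 b
      ⟨q.1, q.2, (op_inj (c.trans (isPair_iff.1 a))).1, (op_inj (c.trans (isPair_iff.1 a))).2, d⟩,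
      fun ⟨a, b, c, d, k⟩ => ⟨_, isPair_iff.2 rfl, app_code.2 ⟨(a, b), c ▸ d ▸ rfl, k⟩⟩⟩
  have o2 : ∀ {a b c : El g}, Op mm f.code a.v b.v c.v ↔ f (a, b) = c :=
    o1.trans ⟨fun ⟨_, _, a, b, c⟩ => El.ext a ▸ El.ext b ▸ El.ext c, fun k => ⟨_, _, rfl, rfl, k ▸ rfl⟩⟩
  obtain ⟨i, hi⟩ := chs (R := fun a b : El g => f (b, a) = El.mk e g2) fun a =>
    let ⟨y, a, b, _⟩ := (g3 _ a.mem).2.2
    ⟨El.mk y a, o2.1 b⟩
  let _ : Mul (El g) := ⟨fun a b => f (a, b)⟩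
  let _ : One (El g) := ⟨El.mk e g2⟩
  let _ : Inv (El g) := ⟨i⟩
  let _ : Group (El g) := Group.ofLeftAxioms
    (fun a b c => (o2.1 (g1 _ _ _ _ _ _ (o2.2 rfl) (o2.2 rfl) (o2.2 rfl))).symm)
    (fun a => o2.1 (g3 _ a.mem).1) hi
  have : GD (El g) := ⟨⟨(inferInstance : DD fun p : Cx fun _ : El g => El g => f (p.1, p.2))⟩, i.dd⟩
  have cd : ∀ {V : PS (El g)} {a : El g}, a.v ∈ V.code ↔ a ∈ V := PS.enc_mem_code
  let _ : TopologicalSpace (El g) :=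
    { IsOpen := fun U => ∀ x ∈ U, ∃ V : PS (El g), V.code ∈ T ∧ x ∈ V ∧ V.s ⊆ U
      isOpen_univ := fun x _ => let ⟨V, k⟩ := ex_ps (t1 g t2)
        ⟨V, by rw [k]; exact t2, cd.1 (by rw [k]; exact x.mem), fun _ _ => trivial⟩
      isOpen_inter := fun s t a b x k =>
        let ⟨V, v1, v2, v3⟩ := a x k.1
        let ⟨W, w1, w2, w3⟩ := b x k.2
        ⟨V ∩ W, t3 _ _ _ v1 w1 fun y => PS.mem_code.trans ⟨fun ⟨_, a, b⟩ => b ▸ ⟨cd.2 a.1, cd.2 a.2⟩,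
          fun ⟨a, b⟩ => let ⟨z, c, d⟩ := PS.mem_code.1 a; ⟨z, ⟨c, cd.1 (by subst d; exact b)⟩, d⟩⟩,
          ⟨v2, w2⟩, fun _ k => ⟨v3 k.1, w3 k.2⟩⟩
      isOpen_sUnion := fun s a x ⟨t, b, k⟩ =>
        let ⟨V, v1, v2, v3⟩ := a t b x k
        ⟨V, v1, v2, fun _ k => ⟨t, b, v3 k⟩⟩ }
  have op : ∀ {V : PS (El g)}, V.code ∈ T → IsOpen V.s := fun k _ a => ⟨_, k, a, fun _ => id⟩
  have nh : ∀ {x : El g} {Z}, Z ∈ 𝓝 x ↔ ∃ V : PS (El g), V.code ∈ T ∧ x ∈ V ∧ V.s ⊆ Z :=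
    ⟨fun k => let ⟨_, a, b, c⟩ := mem_nhds_iff.1 k; let ⟨V, d, e, e'⟩ := b _ c; ⟨V, d, e, e'.trans a⟩,
      fun ⟨_, a, b, c⟩ => mem_of_superset ((op a).mem_nhds b) c⟩
  have : DF1 (𝓝 (1 : El g)) := ⟨sb fun V => enc V ∈ T ∧ 1 ∈ V, fun _ => nh.trans
    ⟨fun ⟨V, a, b, c⟩ => ⟨V, ⟨a, b⟩, c⟩, fun ⟨V, a, c⟩ => ⟨V, a.1, a.2, c⟩⟩⟩
  have : T2Space (El g) := ⟨fun x y k => by
    obtain ⟨V, W, a, b, c, d, k'⟩ := hH _ x.mem _ y.mem fun e => k (El.ext e)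
    obtain ⟨V, rfl⟩ := ex_ps (t1 V a)
    obtain ⟨W, rfl⟩ := ex_ps (t1 W b)
    exact ⟨_, _, op a, op b, cd.1 c, cd.1 d, Set.disjoint_left.2 fun z a b => k' _ (cd.2 a) (cd.2 b)⟩⟩
  have dv : Continuous fun q : El g × El g => q.1 * q.2⁻¹ :=
    continuous_iff_continuousAt.2 fun q Z k => by
      obtain ⟨W, a, b, c⟩ := nh.1 k
      obtain ⟨U, V, u, v, u', v', k'⟩ := hC _ _ _ _ (o2.2 (inv_mul_cancel_right q.1 q.2)) a (cd.2 b)
      obtain ⟨U, rfl⟩ := ex_ps (t1 U u)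
      obtain ⟨V, rfl⟩ := ex_ps (t1 V v)
      exact mem_map.2 (mem_of_superset (prod_mem_nhds ((op u).mem_nhds (cd.1 u'))
        ((op v).mem_nhds (cd.1 v'))) fun r s => c (cd.1 (k' _ _ _ (cd.2 s.1) (cd.2 s.2)
          (o2.2 (inv_mul_cancel_right r.1 r.2)))))
  have iv : Continuous fun a : El g => a⁻¹ := by
    simpa only [comp_def, one_mul] using dv.comp (Continuous.prodMk_right 1)
  have : IsTopologicalGroup (El g) :=
    { continuous_inv := iv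
      continuous_mul := by
        simpa only [comp_def, inv_inv] using dv.comp (continuous_fst.prodMk (iv.comp continuous_snd)) }
  have ac : ∀ {A : PS (El g)} {a : El g}, Accum mm T A.code a.v ↔ ∃ᶠ z in 𝓝 a, z ≠ a ∧ z ∈ A :=
    ⟨fun k => frequently_iff.2 fun hZ => by
      obtain ⟨V, a, b, c⟩ := nh.1 hZ
      obtain ⟨_, d, d', e⟩ := k _ a (cd.2 b)
      obtain ⟨z, -, rfl⟩ := PS.mem_code.1 d
      exact ⟨z, c (cd.1 d'), fun e' => e (congrArg El.v e'), cd.1 d⟩, fun k V a b => by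
      obtain ⟨V, rfl⟩ := ex_ps (t1 V a)
      obtain ⟨z, c, d, e⟩ := frequently_iff.1 k ((op a).mem_nhds (cd.1 b))
      exact ⟨_, cd.2 e, cd.2 c, fun e' => d (El.ext e')⟩⟩
  obtain ⟨C, rfl⟩ := ex_ps c1
  obtain ⟨A, ⟨a, a1⟩, a2, a3⟩ := general h C (Cd.mk_nat ▸ Cd.mk_le_iff.2 (by
    rw [car_El, show car C = C.code from zext fun _ => mem_car.trans (Iff.trans
      ⟨fun ⟨t, e⟩ => ⟨t.1, t.2, e⟩, fun ⟨t, k, e⟩ => ⟨⟨t, k⟩, e⟩⟩ PS.mem_code.symm)]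
    exact leCard_iff.1 c2)) (El.mk p c3) (ac.1 c4)
  refine ⟨A.code, fun x k => ?_, ⟨_, cd.2 a1⟩, fun V y v k => ?_, fun x k => ?_⟩
  · obtain ⟨z, -, rfl⟩ := PS.mem_code.1 k
    exact z.mem
  · obtain ⟨V, rfl⟩ := ex_ps (t1 V v)
    obtain ⟨y, k', rfl⟩ := PS.mem_code.1 k
    obtain ⟨x, b, c⟩ := frequently_iff.1 (not_eventually.1 (a3 y)) ((op v).mem_nhds k')
    obtain ⟨W, w1, w2, w3⟩ := nh.1 (isClosed_closure.isOpen_compl.mem_nhds c)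
    refine ⟨_, _, cd.2 b, w1, cd.2 w2, fun z k1 k2 => ?_⟩
    obtain ⟨z, k3, rfl⟩ := PS.mem_code.1 k1
    exact w3 (cd.1 k2) (subset_closure k3)
  · obtain ⟨z, k', rfl⟩ := PS.mem_code.1 k
    exact ac.2 (a2 z k')

end

instance : UD.{2} fun _ mem _ => NR mem := by
  unfold NR; infer_instance

theorem consistent : ∃ (N : Type) (mem : N → N → Prop), IsZFC mem ∧ CountableCase mem := by
  obtain ⟨U, -⟩ := exists_gen (⊤ : Mi.Cd)
  obtain ⟨S, m', _, h1, h2, h3⟩ := MP_af1204_lc.Lk.ex_elem' _ (isZFC U) (omegaName.val U)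
  obtain ⟨f, hf⟩ := h1.exists_injective_nat'
  let e := (Equiv.ofInjective f hf).symm
  have h4 := MP_af1204_lc.Lk.zfc_map m' e h2
  let z : Zm (Set.range f) := { mem := fun a x => m' (e x) (e a), zfc := h4 }
  let md : Md := ⟨Set.range f⟩
  refine ⟨_, _, h4, @stmt md (@nrt md (show NR fun a b => m' (e a) (e b) from ?_))⟩
  simpa only [NR, IsFun, IsFunOn, App, IsPair, IsUPair, IsOmega, IsInductive, IsSucc,
    e.surjective.forall, e.surjective.exists, e.apply_eq_iff_eq]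
    using h3 (fun _ mem _ => NR mem) (nr U)

end Pool.Agent.P.MP_39acbb_lc.Gr
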